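import Pool.Agent.V11208.PL.Skein

/-! Boundary values: descending choices. -/

namespace Pool.Agent.V11208.PL
open Pool.Agent.V11208.UB

variable {V C : Type} {σ : Equiv.Perm V} {p : V → Pt} {o u : C → V} {s t : C → ℝ}

open Classical in
/-- heights descending along the cycle of `b`, which is put on top -/
noncomputable def hdes (ρ : Equiv.Perm V) (b : V) (ε M : ℝ) (h : V → ℝ) (v : V) : ℝ :=
  if Reach ρ b v then ε * (M - tm ρ b v) else h v

theorem hdes_reach {ρ : Equiv.Perm V} {b : V} {ε M : ℝ} {h : V → ℝ} {v : V} (hv : Reach ρ b v) :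
    hdes ρ b ε M h v = ε * (M - tm ρ b v) := by
  classical
  unfold hdes; rw [if_pos hv]

theorem hdes_not {ρ : Equiv.Perm V} {b : V} {ε M : ℝ} {h : V → ℝ} {v : V} (hv : ¬ Reach ρ b v) :
    hdes ρ b ε M h v = h v := by
  classical
  unfold hdes; rw [if_neg hv]

theorem boundary [Fintype C] {nabla : PLink → Polynomial ℤ} (hN : IsConway nabla)
    (F : Frame σ p o u s t) (hV : Finite V) (S : Finset C) (ω : C → Bool) (b : V)
    (hb : ∀ i, σ (o i) ≠ b ∧ σ (u i) ≠ b) (ε : ℝ) (hε : ε * ε = 1)
    (hg : ∀ i, i ∉ S → (Before (σ * tau o u S) b (o i) (u i) → sgn (ω i) = ε) ∧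
      (Before (σ * tau o u S) b (u i) (o i) → sgn (ω i) = -ε)) :
    (OneCycle (σ * tau o u S) b → nab nabla F hV S ω = 1) ∧
      (¬ OneCycle (σ * tau o u S) b → nab nabla F hV S ω = 0) := by
  classical
  set ρ := σ * tau o u S with hρ
  obtain ⟨N, hNb⟩ := (Set.finite_range (fun v => (tm ρ b v : ℝ))).bddAbove
  obtain ⟨B, hBb⟩ := (Set.finite_range (fun v => |hgt σ o u ω v|)).bddAbove
  have hN1 : ∀ v, (tm ρ b v : ℝ) ≤ N := fun v => hNb ⟨v, rfl⟩
  have hB1 : ∀ v, |hgt σ o u ω v| ≤ B := fun v => hBb ⟨v, rfl⟩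
  have hN0 : (0:ℝ) ≤ N := by
    have := hN1 b
    rw [tm_base] at this
    simpa using this
  have hB0 : (0:ℝ) ≤ B := (abs_nonneg _).trans (hB1 b)
  set M : ℝ := N + B + 3 with hM
  set h := hdes ρ b ε M (hgt σ o u ω) with hh
  have hεabs : |ε| = 1 := by
    have h1 : |ε| * |ε| = 1 := by rw [← abs_mul, hε, abs_one]
    have h2 := abs_nonneg ε
    nlinarith
  -- values on the crossing edges
  have edge : ∀ (v : V) (r : ℝ), Reach ρ b v → ρ v ≠ b →
      (1 - r) * h v + r * h (ρ v) = ε * (M - tm ρ b v - r) := by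
    intro v r hv hvb
    rw [hh, hdes_reach hv, hdes_reach hv.step, tm_step hv hvb]
    push_cast; ring
  have hsgn : ∀ i, |sgn (ω i)| = 1 := by
    intro i
    unfold sgn
    split_ifs <;> simp
  have sign : ∀ i, i ∉ S → 0 < hd σ o u s t (hgt σ o u ω) i * hd σ o u s t h i := by
    intro i hi
    obtain ⟨ro, ru⟩ := F.rem hi
    have hro : ρ (o i) = σ (o i) := ro
    have hru : ρ (u i) = σ (u i) := ru
    have nbo : ρ (o i) ≠ b := by rw [hro]; exact (hb i).1
    have nbu : ρ (u i) ≠ b := by rw [hru]; exact (hb i).2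
    have hne : o i ≠ u i := F.ou i i
    rw [F.hd_hgt]
    have s0 := F.s0 i
    have s1 := F.s1 i
    have t0 := F.t0 i
    have t1 := F.t1 i
    -- values
    have vo : Reach ρ b (o i) → (1 - s i) * h (o i) + s i * h (σ (o i)) =
        ε * (M - tm ρ b (o i) - s i) := by
      intro hr; have := edge (o i) (s i) hr nbo; rwa [hro] at this
    have vu : Reach ρ b (u i) → (1 - t i) * h (u i) + t i * h (σ (u i)) =
        ε * (M - tm ρ b (u i) - t i) := by
      intro hr; have := edge (u i) (t i) hr nbu; rwa [hru] at this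
    have vo' : ¬ Reach ρ b (o i) → (1 - s i) * h (o i) + s i * h (σ (o i)) = sgn (ω i) := by
      intro hr
      have hr' : ¬ Reach ρ b (σ (o i)) := by rw [← hro, reach_step_iff]; exact hr
      rw [hh, hdes_not hr, hdes_not hr', F.hgt_o, F.hgt_so]; ring
    have vu' : ¬ Reach ρ b (u i) → (1 - t i) * h (u i) + t i * h (σ (u i)) = - sgn (ω i) := by
      intro hr
      have hr' : ¬ Reach ρ b (σ (u i)) := by rw [← hru, reach_step_iff]; exact hr
      rw [hh, hdes_not hr, hdes_not hr', F.hgt_u, F.hgt_su]; ring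
    have hs1 := abs_le.1 (hsgn i).le
    have hεs : |ε * sgn (ω i)| ≤ 1 := by rw [abs_mul, hεabs, hsgn, one_mul]
    have hεs' := abs_le.1 hεs
    by_cases hO : Reach ρ b (o i)
    · by_cases hU : Reach ρ b (u i)
      · have hlt : tm ρ b (o i) < tm ρ b (u i) ∨ tm ρ b (u i) < tm ρ b (o i) := by
          apply lt_or_gt_of_ne
          intro h'; exact hne (tm_inj hO hU h')
        have hdv : hd σ o u s t h i = ε * ((tm ρ b (u i) + t i) - (tm ρ b (o i) + s i)) := by
          unfold hd; rw [vo hO, vu hU]; ring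
        rcases hlt with hlt | hlt
        · have hsg := (hg i hi).1 ⟨hO, Or.inr hlt⟩
          rw [hsg, hdv]
          have hlt' : (tm ρ b (o i) : ℝ) + 1 ≤ tm ρ b (u i) := by exact_mod_cast hlt
          have h1 : 2 * ε * (ε * ((tm ρ b (u i) + t i) - (tm ρ b (o i) + s i))) =
              2 * (ε * ε) * ((tm ρ b (u i) + t i) - (tm ρ b (o i) + s i)) := by ring
          rw [h1, hε]; linarith
        · have hsg := (hg i hi).2 ⟨hU, Or.inr hlt⟩
          rw [hsg, hdv]
          have hlt' : (tm ρ b (u i) : ℝ) + 1 ≤ tm ρ b (o i) := by exact_mod_cast hlt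
          have h1 : 2 * -ε * (ε * ((tm ρ b (u i) + t i) - (tm ρ b (o i) + s i))) =
              2 * (ε * ε) * ((tm ρ b (o i) + s i) - (tm ρ b (u i) + t i)) := by ring
          rw [h1, hε]; linarith
      · have hsg := (hg i hi).1 ⟨hO, Or.inl hU⟩
        have hdv : hd σ o u s t h i = ε * (M - tm ρ b (o i) - s i) + sgn (ω i) := by
          unfold hd; rw [vo hO, vu' hU]; ring
        rw [hdv, hsg]
        have h1 : 2 * ε * (ε * (M - tm ρ b (o i) - s i) + ε) =
            2 * (ε * ε) * (M - tm ρ b (o i) - s i + 1) := by ring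
        rw [h1, hε]
        have := hN1 (o i)
        linarith
    · by_cases hU : Reach ρ b (u i)
      · have hsg := (hg i hi).2 ⟨hU, Or.inl hO⟩
        have hdv : hd σ o u s t h i = sgn (ω i) - ε * (M - tm ρ b (u i) - t i) := by
          unfold hd; rw [vo' hO, vu hU]
        rw [hdv, hsg]
        have h1 : 2 * -ε * (-ε - ε * (M - tm ρ b (u i) - t i)) =
            2 * (ε * ε) * (M - tm ρ b (u i) - t i + 1) := by ring
        rw [h1, hε]
        have := hN1 (u i)
        linarith
      · have hdv : hd σ o u s t h i = 2 * sgn (ω i) := by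
          unfold hd; rw [vo' hO, vu' hU]; ring
        rw [hdv]
        have := sgn_sq (ω i)
        nlinarith
  have hne : ∀ i, i ∉ S → hd σ o u s t h i ≠ 0 := by
    intro i hi h0
    have := sign i hi
    rw [h0, mul_zero] at this
    exact lt_irrefl _ this
  have e := F.emb S h hne
  have hnab : nab nabla F hV S ω = nabla ⟨V, hV, ρ, fun v => (p v, h v), e⟩ :=
    hN.iso _ _ (F.move hV S _ _ sign _ e)
  have fv : ∀ v, Reach ρ b v → fz ε ((p v, h v) : Sp) = M - tm ρ b v := by
    intro v hv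
    rw [fz_apply]
    change ε * h v = _
    rw [hh, hdes_reach hv, ← mul_assoc, hε, one_mul]
  have hmono : Mono ρ (fun v => ((p v, h v) : Sp)) b (fz ε) := by
    constructor
    · intro v hv hvb
      rw [fv v hv, fv _ hv.step, tm_step hv hvb]
      push_cast; linarith
    · intro v w hv hw
      rw [fv v hv, fz_apply]
      change ε * h w < _
      rw [hh, hdes_not hw]
      have h1 : ε * hgt σ o u ω w ≤ B := by
        calc ε * hgt σ o u ω w ≤ |ε * hgt σ o u ω w| := le_abs_self _
          _ = |hgt σ o u ω w| := by rw [abs_mul, hεabs, one_mul]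
          _ ≤ B := hB1 w
      have := hN1 v
      linarith
  constructor
  · intro hone
    rw [hnab]
    exact nabla_mono_knot nabla hN V hV ρ _ e b (fz ε) hmono hone
  · intro hnone
    rw [hnab]
    obtain ⟨w0, hw0⟩ : ∃ w0, ¬ Reach ρ b w0 := by
      by_contra hall
      push Not at hall
      exact hnone hall
    obtain ⟨q, hq, hqc⟩ : ∃ q, ¬ Reach ρ b q ∧ ∀ i, i ∉ S → q ≠ o i ∧ q ≠ u i := by
      by_cases hw : ∃ i, i ∉ S ∧ (w0 = o i ∨ w0 = u i)
      · obtain ⟨i, hi, hio⟩ := hw
        refine ⟨ρ w0, by rw [reach_step_iff]; exact hw0, ?_⟩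
        obtain ⟨ro, ru⟩ := F.rem hi
        intro j _
        rcases hio with rfl | rfl
        · have : ρ (o i) = σ (o i) := ro
          rw [this]; exact F.onext i j
        · have : ρ (u i) = σ (u i) := ru
          rw [this]; exact F.unext i j
      · push Not at hw
        exact ⟨w0, hw0, hw⟩
    apply top_zero hN hV e hε hmono q hq
    · exact F.nondegS S q
    · intro w hwq _ x hx1 hx2
      rcases F.plan S q w hwq.symm x hx1 hx2 with h1 | h1 | ⟨i, hi, hc⟩
      · exact Or.inl h1
      · exact Or.inr h1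
      · exfalso
        rcases hc with ⟨h1, _⟩ | ⟨h1, _⟩
        · exact (hqc i hi).1 h1
        · exact (hqc i hi).2 h1

end Pool.Agent.V11208.PL
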