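import Mathlib

/-!
Oriented polygonal links in space, polygonal isotopy, skein triples, regular diagrams,
the crossing number and the axioms of the Conway polynomial.
-/

namespace Pool.Agent.V11208.PL

/-- the plane -/
abbrev Pt := ℝ × ℝ

/-- the space, a point being `((x, y), z)`; the projection is `Prod.fst`, the height `Prod.snd` -/
abbrev Sp := Pt × ℝ

/-- The closed polygonal curves with vertices `P v` and oriented edges `[P v, P (next v)]` are
simple and pairwise disjoint: every edge is nondegenerate and two different edges meet at most in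
a common endpoint. -/
def Embedded {V : Type} (next : Equiv.Perm V) (P : V → Sp) : Prop :=
  (∀ v, P v ≠ P (next v)) ∧
  ∀ v w, v ≠ w → ∀ x, x ∈ segment ℝ (P v) (P (next v)) → x ∈ segment ℝ (P w) (P (next w)) →
    (next v = w ∧ x = P w) ∨ (next w = v ∧ x = P v)

/-- An oriented polygonal link in space. The cycles of `next` are the components. -/
structure PLink : Type 1 where
  V : Type
  fin : Finite V
  next : Equiv.Perm V
  pos : V → Sp
  emb : Embedded next pos

/-- The elementary moves generating isotopy of polygonal links:
relabelling the vertices, moving all vertices linearly in time through embedded polygons, and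
removing a vertex `v₁` by the triangle move (replacing two consecutive edges by the third side of
a triangle that meets the rest of the link only in the two outer vertices). -/
inductive Move : PLink → PLink → Prop
  | relabel (L L' : PLink) (e : L'.V ≃ L.V) (hnext : ∀ v, e (L'.next v) = L.next (e v))
      (hpos : ∀ v, L'.pos v = L.pos (e v)) : Move L L'
  | motion (V : Type) (hV : Finite V) (next : Equiv.Perm V) (P Q : V → Sp)
      (hP : Embedded next P) (hQ : Embedded next Q)
      (h : ∀ t : ℝ, 0 ≤ t → t ≤ 1 → Embedded next (fun v => (1 - t) • P v + t • Q v)) :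
      Move ⟨V, hV, next, P, hP⟩ ⟨V, hV, next, Q, hQ⟩
  | triangle (L L' : PLink) (v₁ : L.V) (j : L'.V → L.V) (hj : Function.Injective j)
      (hrange : ∀ v, v ≠ v₁ ↔ ∃ w, j w = v)
      (hnext : ∀ w, (L.next (j w) = v₁ → j (L'.next w) = L.next v₁) ∧
        (L.next (j w) ≠ v₁ → j (L'.next w) = L.next (j w)))
      (hpos : ∀ w, L'.pos w = L.pos (j w))
      (hfree : ∀ w, w ≠ v₁ → L.next w ≠ v₁ →
        ∀ x ∈ segment ℝ (L.pos w) (L.pos (L.next w)),
          x ∈ convexHull ℝ {L.pos (L.next.symm v₁), L.pos v₁, L.pos (L.next v₁)} →
          (L.next w = L.next.symm v₁ ∧ x = L.pos (L.next.symm v₁)) ∨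
            (w = L.next v₁ ∧ x = L.pos (L.next v₁))) : Move L L'

/-- isotopy of polygonal links -/
def Isotopic : PLink → PLink → Prop := Relation.EqvGen Move

/-- planar cross product -/
def cross (a b : Pt) : ℝ := a.1 * b.2 - a.2 * b.1

/-- `(Lp, Lm, L0)` is a skein triple: `Lp` and `Lm` have the same projection, `L0` has the same
projection except that the two edges starting at `a` and `c`, which cross in a point, are replaced
by the oriented smoothing (`a` is joined to the successor of `c` and `c` to the successor of `a`);
in `Lp` the crossing is positive, in `Lm` it is negative; the projections of the other edges meet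
the convex hull of the projections of the two crossing edges only in common endpoints; and
for the other edges, what lies over what is the same in all three links. -/
inductive SkeinTriple : PLink → PLink → PLink → Prop
  | mk (V : Type) (hV : Finite V) (dec : DecidableEq V) (next : Equiv.Perm V) (p : V → Pt)
      (hp hm h0 : V → ℝ) (a c : V) (hac : a ≠ c)
      (ep : Embedded next (fun v => (p v, hp v))) (em : Embedded next (fun v => (p v, hm v)))
      (e0 : Embedded (next * Equiv.swap a c) (fun v => (p v, h0 v)))
      (s t : ℝ) (hs0 : 0 < s) (hs1 : s < 1) (ht0 : 0 < t) (ht1 : t < 1)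
      (hx : (1 - s) • p a + s • p (next a) = (1 - t) • p c + t • p (next c))
      (hpos : 0 < cross (p (next a) - p a) (p (next c) - p c) *
        (((1 - s) * hp a + s * hp (next a)) - ((1 - t) * hp c + t * hp (next c))))
      (hneg : cross (p (next a) - p a) (p (next c) - p c) *
        (((1 - s) * hm a + s * hm (next a)) - ((1 - t) * hm c + t * hm (next c))) < 0)
      (hbox : ∀ w, w ≠ a → w ≠ c → ∀ x ∈ segment ℝ (p w) (p (next w)),
        x ∈ convexHull ℝ {p a, p (next a), p c, p (next c)} →
        ∃ v, (v = a ∨ v = next a ∨ v = c ∨ v = next c) ∧ (v = w ∨ v = next w) ∧ x = p v)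
      (hrest : ∀ v w, v ≠ a → v ≠ c → w ≠ a → w ≠ c → ∀ α β : ℝ, 0 ≤ α → α ≤ 1 → 0 ≤ β → β ≤ 1 →
        (1 - α) • p v + α • p (next v) = (1 - β) • p w + β • p (next w) →
        ((0 < ((1 - α) * hp v + α * hp (next v)) - ((1 - β) * hp w + β * hp (next w))) ↔
          (0 < ((1 - α) * hm v + α * hm (next v)) - ((1 - β) * hm w + β * hm (next w)))) ∧
        ((0 < ((1 - α) * hp v + α * hp (next v)) - ((1 - β) * hp w + β * hp (next w))) ↔
          (0 < ((1 - α) * h0 v + α * h0 (next v)) - ((1 - β) * h0 w + β * h0 (next w))))) :
      SkeinTriple ⟨V, hV, next, fun v => (p v, hp v), ep⟩ ⟨V, hV, next, fun v => (p v, hm v), em⟩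
        ⟨V, hV, next * Equiv.swap a c, fun v => (p v, h0 v), e0⟩

/-- The axioms of the Conway polynomial: isotopy invariance, value `1` on the unknot (a
triangle), and the skein relation. -/
structure IsConway (nabla : PLink → Polynomial ℤ) : Prop where
  iso : ∀ L L', Move L L' → nabla L = nabla L'
  unknot : ∀ L : PLink, Nat.card L.V = 3 → nabla L = 1
  skein : ∀ Lp Lm L0, SkeinTriple Lp Lm L0 → nabla Lp - nabla Lm = Polynomial.X * nabla L0

/-- The box of a crossing. -/
def Box (L : PLink) (a c : L.V) : Set Pt :=
  convexHull ℝ {(L.pos a).1, (L.pos (L.next a)).1, (L.pos c).1, (L.pos (L.next c)).1}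

/-- `L` is in regular position with respect to the vertical projection, with crossing set `C`: at
the crossing `i` the edge starting at `o i` passes over the edge starting at `u i`. The
vertices have been chosen so fine that the crossing edges have pairwise different endpoints, that
the boxes spanned by the crossings are disjoint and that other edges meet them
only in common endpoints. -/
structure RegularDiagram (L : PLink) {C : Type} (o u : C → L.V) : Prop where
  /-- all endpoints of crossing edges are different -/
  oo : ∀ i j, o i = o j → i = j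
  uu : ∀ i j, u i = u j → i = j
  ou : ∀ i j, o i ≠ u j
  onext : ∀ i j, L.next (o i) ≠ o j ∧ L.next (o i) ≠ u j
  unext : ∀ i j, L.next (u i) ≠ o j ∧ L.next (u i) ≠ u j
  /-- the edges cross transversally, and the edge at `o i` is the upper one -/
  crossing : ∀ i, ∃ s t : ℝ, 0 < s ∧ s < 1 ∧ 0 < t ∧ t < 1 ∧
    (1 - s) • (L.pos (o i)).1 + s • (L.pos (L.next (o i))).1 =
      (1 - t) • (L.pos (u i)).1 + t • (L.pos (L.next (u i))).1 ∧
    cross ((L.pos (L.next (o i))).1 - (L.pos (o i)).1)
      ((L.pos (L.next (u i))).1 - (L.pos (u i)).1) ≠ 0 ∧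
    (1 - t) * (L.pos (u i)).2 + t * (L.pos (L.next (u i))).2 <
      (1 - s) * (L.pos (o i)).2 + s * (L.pos (L.next (o i))).2
  /-- the other edges meet the box of a crossing only in common endpoints -/
  box : ∀ i w, w ≠ o i → w ≠ u i →
    ∀ x ∈ segment ℝ (L.pos w).1 (L.pos (L.next w)).1, x ∈ Box L (o i) (u i) →
    ∃ v, (v = o i ∨ v = L.next (o i) ∨ v = u i ∨ v = L.next (u i)) ∧ (v = w ∨ v = L.next w) ∧
      x = (L.pos v).1
  /-- the boxes are disjoint -/
  boxes : ∀ i j, i ≠ j → Disjoint (Box L (o i) (u i)) (Box L (o j) (u j))
  /-- the projected edges are nondegenerate -/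
  nondeg : ∀ v, (L.pos v).1 ≠ (L.pos (L.next v)).1
  /-- there are no other crossings -/
  others : ∀ v w, v ≠ w → (∀ i, ¬ (v = o i ∧ w = u i) ∧ ¬ (v = u i ∧ w = o i)) →
    ∀ x, x ∈ segment ℝ (L.pos v).1 (L.pos (L.next v)).1 →
      x ∈ segment ℝ (L.pos w).1 (L.pos (L.next w)).1 →
      (L.next v = w ∧ x = (L.pos w).1) ∨ (L.next w = v ∧ x = (L.pos v).1)

/-- The crossing number: the least number of crossings of a regular diagram of a link
isotopic to `L`. -/
noncomputable def crossingNumber (L : PLink) : ℕ :=
  sInf {n | ∃ (L' : PLink) (C : Type) (_ : Fintype C) (o u : C → L'.V),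
    Isotopic L L' ∧ RegularDiagram L' o u ∧ Fintype.card C = n}

end Pool.Agent.V11208.PL
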