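import Pool.Agent.V11208.PL.Remove

/-! Planar frames: the projection of a regular diagram together with all its smoothings. -/

namespace Pool.Agent.V11208.PL
open Pool.Agent.V11208.UB

theorem quad (A B C D : Pt) (s t : ℝ) (hs0 : 0 < s) (hs1 : s < 1) (ht0 : 0 < t) (ht1 : t < 1)
    (hx : (1 - s) • A + s • B = (1 - t) • C + t • D) (hc : cross (B - A) (D - C) ≠ 0) :
    (∀ x ∈ segment ℝ A D, x ∉ segment ℝ C B) ∧ (∀ x ∈ segment ℝ A D, x ≠ B ∧ x ≠ C) ∧
      (∀ x ∈ segment ℝ C B, x ≠ A ∧ x ≠ D) := by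
  have h1 : (1 - s) * A.1 + s * B.1 = (1 - t) * C.1 + t * D.1 := by
    have := congrArg Prod.fst hx; simpa using this
  have h2 : (1 - s) * A.2 + s * B.2 = (1 - t) * C.2 + t * D.2 := by
    have := congrArg Prod.snd hx; simpa using this
  set κ := cross (B - A) (D - C) with hκ
  have hκ' : κ = (B.1 - A.1) * (D.2 - C.2) - (B.2 - A.2) * (D.1 - C.1) := rfl
  -- two functionals
  set X : Pt := (1 - s) • A + s • B with hX
  have hX1 : X.1 = (1 - s) * A.1 + s * B.1 := by simp [hX]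
  have hX2 : X.2 = (1 - s) * A.2 + s * B.2 := by simp [hX]
  set φ : Pt → ℝ := fun y => (y.1 - X.1) * (D.2 - C.2) - (y.2 - X.2) * (D.1 - C.1) with hφ
  set ψ : Pt → ℝ := fun y => (B.1 - A.1) * (y.2 - X.2) - (B.2 - A.2) * (y.1 - X.1) with hψ
  have φA : φ A = - s * κ := by rw [hκ']; simp only [hφ, hX1, hX2]; ring
  have φB : φ B = (1 - s) * κ := by rw [hκ']; simp only [hφ, hX1, hX2]; ring
  have φC : φ C = 0 := by
    simp only [hφ, hX1, hX2, h1, h2]; ring
  have φD : φ D = 0 := by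
    simp only [hφ, hX1, hX2, h1, h2]; ring
  have ψA : ψ A = 0 := by simp only [hψ, hX1, hX2]; ring
  have ψB : ψ B = 0 := by simp only [hψ, hX1, hX2]; ring
  have ψC : ψ C = - t * κ := by
    rw [hκ']; simp only [hψ, hX1, hX2, h1, h2]; ring
  have ψD : ψ D = (1 - t) * κ := by
    rw [hκ']; simp only [hψ, hX1, hX2, h1, h2]; ring
  have φlin : ∀ (r : ℝ) (y z : Pt), φ ((1 - r) • y + r • z) = (1 - r) * φ y + r * φ z := by
    intro r y z; simp only [hφ, Prod.fst_add, Prod.snd_add, Prod.smul_fst, Prod.smul_snd, smul_eq_mul]; ring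
  have ψlin : ∀ (r : ℝ) (y z : Pt), ψ ((1 - r) • y + r • z) = (1 - r) * ψ y + r * ψ z := by
    intro r y z; simp only [hψ, Prod.fst_add, Prod.snd_add, Prod.smul_fst, Prod.smul_snd, smul_eq_mul]; ring
  have AD : ∀ x ∈ segment ℝ A D, ∃ r : ℝ, 0 ≤ r ∧ r ≤ 1 ∧ φ x = - ((1 - r) * s) * κ ∧
      ψ x = (r * (1 - t)) * κ := by
    intro x hx
    obtain ⟨r, h0, h1, rfl⟩ := mem_seg.1 hx
    refine ⟨r, h0, h1, ?_, ?_⟩
    · rw [φlin, φA, φD]; ring
    · rw [ψlin, ψA, ψD]; ring
  have CB : ∀ x ∈ segment ℝ C B, ∃ r : ℝ, 0 ≤ r ∧ r ≤ 1 ∧ φ x = (r * (1 - s)) * κ ∧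
      ψ x = - ((1 - r) * t) * κ := by
    intro x hx
    obtain ⟨r, h0, h1, rfl⟩ := mem_seg.1 hx
    refine ⟨r, h0, h1, ?_, ?_⟩
    · rw [φlin, φB, φC]; ring
    · rw [ψlin, ψB, ψC]; ring
  refine ⟨?_, ?_, ?_⟩
  · intro x hx hx'
    obtain ⟨r, r0, r1, e1, e2⟩ := AD x hx
    obtain ⟨r', r0', r1', e1', e2'⟩ := CB x hx'
    rw [e1] at e1'
    rw [e2] at e2'
    have k1 := mul_right_cancel₀ hc e1'
    have k2 := mul_right_cancel₀ hc e2'
    have k3 : 0 ≤ (1 - r) * s := mul_nonneg (by linarith) hs0.le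
    have k4 : 0 ≤ r' * (1 - s) := mul_nonneg r0' (by linarith)
    have k5 : 0 ≤ r * (1 - t) := mul_nonneg r0 (by linarith)
    have k6 : 0 ≤ (1 - r') * t := mul_nonneg (by linarith) ht0.le
    have k7 : (1 - r) * s = 0 := by linarith
    have k8 : r * (1 - t) = 0 := by linarith
    have k9 : r = 1 := by
      rcases mul_eq_zero.1 k7 with h | h
      · linarith
      · linarith
    rw [k9] at k8
    linarith
  · intro x hx
    obtain ⟨r, r0, r1, e1, e2⟩ := AD x hx
    constructor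
    · rintro rfl
      rw [φB] at e1
      have k1 := mul_right_cancel₀ hc e1
      nlinarith [mul_nonneg (sub_nonneg.2 r1) hs0.le]
    · rintro rfl
      rw [ψC] at e2
      have k1 := mul_right_cancel₀ hc e2
      nlinarith [mul_nonneg r0 (sub_nonneg.2 ht1.le)]
  · intro x hx
    obtain ⟨r, r0, r1, e1, e2⟩ := CB x hx
    constructor
    · rintro rfl
      rw [φA] at e1
      have k1 := mul_right_cancel₀ hc e1
      nlinarith [mul_nonneg r0 (sub_nonneg.2 hs1.le)]
    · rintro rfl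
      rw [ψD] at e2
      have k1 := mul_right_cancel₀ hc e2
      nlinarith [mul_nonneg (sub_nonneg.2 r1) ht0.le]

theorem cross_unique (A B C D : Pt) (s t s' t' : ℝ)
    (hx : (1 - s) • A + s • B = (1 - t) • C + t • D)
    (hx' : (1 - s') • A + s' • B = (1 - t') • C + t' • D) (hc : cross (B - A) (D - C) ≠ 0) :
    s' = s ∧ t' = t := by
  have h1 : (1 - s) * A.1 + s * B.1 = (1 - t) * C.1 + t * D.1 := by
    have := congrArg Prod.fst hx; simpa using this
  have h2 : (1 - s) * A.2 + s * B.2 = (1 - t) * C.2 + t * D.2 := by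
    have := congrArg Prod.snd hx; simpa using this
  have h1' : (1 - s') * A.1 + s' * B.1 = (1 - t') * C.1 + t' * D.1 := by
    have := congrArg Prod.fst hx'; simpa using this
  have h2' : (1 - s') * A.2 + s' * B.2 = (1 - t') * C.2 + t' * D.2 := by
    have := congrArg Prod.snd hx'; simpa using this
  have hκ' : cross (B - A) (D - C) = (B.1 - A.1) * (D.2 - C.2) - (B.2 - A.2) * (D.1 - C.1) := rfl
  constructor
  · have : (s' - s) * cross (B - A) (D - C) = 0 := by
      rw [hκ']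
      linear_combination (D.2 - C.2) * (h1' - h1) - (D.1 - C.1) * (h2' - h2)
    rcases mul_eq_zero.1 this with h | h
    · linarith
    · exact absurd h hc
  · have : (t' - t) * cross (B - A) (D - C) = 0 := by
      rw [hκ']
      linear_combination (B.2 - A.2) * (h1' - h1) - (B.1 - A.1) * (h2' - h2)
    rcases mul_eq_zero.1 this with h | h
    · linarith
    · exact absurd h hc

theorem seg_param_unique {E : Type*} [AddCommGroup E] [Module ℝ E] {a b : E} (hab : a ≠ b)
    {s t : ℝ} (h : (1 - s) • a + s • b = (1 - t) • a + t • b) : s = t := by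
  have h1 : (t - s) • (b - a) = 0 := by
    have e1 : (1 - s) • a + s • b = a + s • (b - a) := by
      rw [sub_smul, one_smul, smul_sub]; abel
    have e2 : (1 - t) • a + t • b = a + t • (b - a) := by
      rw [sub_smul, one_smul, smul_sub]; abel
    rw [e1, e2] at h
    have := add_left_cancel h
    rw [sub_smul, ← this, sub_self]
  rcases smul_eq_zero.1 h1 with h | h
  · linarith
  · exact absurd (sub_eq_zero.1 h).symm hab

/-- planar frame -/
structure Frame {V C : Type} (σ : Equiv.Perm V) (p : V → Pt) (o u : C → V) (s t : C → ℝ) :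
    Prop where
  oo : ∀ i j, o i = o j → i = j
  uu : ∀ i j, u i = u j → i = j
  ou : ∀ i j, o i ≠ u j
  onext : ∀ i j, σ (o i) ≠ o j ∧ σ (o i) ≠ u j
  unext : ∀ i j, σ (u i) ≠ o j ∧ σ (u i) ≠ u j
  s0 : ∀ i, 0 < s i
  s1 : ∀ i, s i < 1
  t0 : ∀ i, 0 < t i
  t1 : ∀ i, t i < 1
  meet : ∀ i, (1 - s i) • p (o i) + s i • p (σ (o i)) = (1 - t i) • p (u i) + t i • p (σ (u i))
  cr : ∀ i, cross (p (σ (o i)) - p (o i)) (p (σ (u i)) - p (u i)) ≠ 0
  box : ∀ i w, w ≠ o i → w ≠ u i → ∀ x ∈ segment ℝ (p w) (p (σ w)),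
    x ∈ convexHull ℝ {p (o i), p (σ (o i)), p (u i), p (σ (u i))} →
    ∃ v, (v = o i ∨ v = σ (o i) ∨ v = u i ∨ v = σ (u i)) ∧ (v = w ∨ v = σ w) ∧ x = p v
  boxes : ∀ i j, i ≠ j → Disjoint (convexHull ℝ {p (o i), p (σ (o i)), p (u i), p (σ (u i))})
    (convexHull ℝ {p (o j), p (σ (o j)), p (u j), p (σ (u j))})
  nondeg : ∀ v, p v ≠ p (σ v)
  others : ∀ v w, v ≠ w → (∀ i, ¬ (v = o i ∧ w = u i) ∧ ¬ (v = u i ∧ w = o i)) →
    ∀ x, x ∈ segment ℝ (p v) (p (σ v)) → x ∈ segment ℝ (p w) (p (σ w)) →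
      (σ v = w ∧ x = p w) ∨ (σ w = v ∧ x = p v)

variable {V C : Type} {σ : Equiv.Perm V} {p : V → Pt} {o u : C → V} {s t : C → ℝ}

theorem Frame.distinct (F : Frame σ p o u s t) : Distinct o u := ⟨F.oo, F.uu, F.ou⟩

theorem Frame.so (F : Frame σ p o u s t) {S : Finset C} {i : C} (hi : i ∈ S) :
    (σ * tau o u S) (o i) = σ (u i) := by
  rw [Equiv.Perm.mul_apply, tau_apply F.distinct, tauFun_o F.distinct S i hi]

theorem Frame.su (F : Frame σ p o u s t) {S : Finset C} {i : C} (hi : i ∈ S) :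
    (σ * tau o u S) (u i) = σ (o i) := by
  rw [Equiv.Perm.mul_apply, tau_apply F.distinct, tauFun_u F.distinct S i hi]

theorem Frame.ordinary (F : Frame σ p o u s t) {S : Finset C} {v : V}
    (h : ∀ i ∈ S, v ≠ o i ∧ v ≠ u i) : (σ * tau o u S) v = σ v := by
  rw [Equiv.Perm.mul_apply, tau_apply F.distinct]
  rcases tau_cases (o := o) (u := u) v with ⟨c, rfl⟩ | ⟨c, rfl⟩ | ⟨h1, h2⟩
  · rw [tauFun_o_not F.distinct S c (fun hc => (h c hc).1 rfl)]
  · rw [tauFun_u_not F.distinct S c (fun hc => (h c hc).2 rfl)]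
  · rw [tauFun_other S v h1 h2]

theorem Frame.trich (F : Frame σ p o u s t) (S : Finset C) (v : V) :
    (∃ i ∈ S, v = o i) ∨ (∃ i ∈ S, v = u i) ∨ (∀ i ∈ S, v ≠ o i ∧ v ≠ u i) := by
  by_cases h1 : ∃ i ∈ S, v = o i
  · exact Or.inl h1
  · by_cases h2 : ∃ i ∈ S, v = u i
    · exact Or.inr (Or.inl h2)
    · push Not at h1 h2
      exact Or.inr (Or.inr (fun i hi => ⟨h1 i hi, h2 i hi⟩))

theorem seg_sub_box (a b c d : Pt) (i j : Pt) (hi : i = a ∨ i = b ∨ i = c ∨ i = d)
    (hj : j = a ∨ j = b ∨ j = c ∨ j = d) (x : Pt) (hx : x ∈ segment ℝ i j) :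
    x ∈ convexHull ℝ {a, b, c, d} := by
  have hc := convex_convexHull ℝ ({a, b, c, d} : Set Pt)
  have hm : ∀ y, (y = a ∨ y = b ∨ y = c ∨ y = d) → y ∈ convexHull ℝ ({a, b, c, d} : Set Pt) := by
    intro y hy
    apply subset_convexHull ℝ _
    simpa using hy
  exact hc.segment_subset (hm i hi) (hm j hj) hx

/-- the new edge at `o i` in its box -/
theorem Frame.seg_o (F : Frame σ p o u s t) {S : Finset C} {i : C} (hi : i ∈ S) {x : Pt}
    (hx : x ∈ segment ℝ (p (o i)) (p ((σ * tau o u S) (o i)))) :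
    x ∈ convexHull ℝ {p (o i), p (σ (o i)), p (u i), p (σ (u i))} := by
  rw [F.so hi] at hx
  exact seg_sub_box _ _ _ _ _ _ (Or.inl rfl) (Or.inr (Or.inr (Or.inr rfl))) x hx

theorem Frame.seg_u (F : Frame σ p o u s t) {S : Finset C} {i : C} (hi : i ∈ S) {x : Pt}
    (hx : x ∈ segment ℝ (p (u i)) (p ((σ * tau o u S) (u i)))) :
    x ∈ convexHull ℝ {p (o i), p (σ (o i)), p (u i), p (σ (u i))} := by
  rw [F.su hi] at hx
  exact seg_sub_box _ _ _ _ _ _ (Or.inr (Or.inr (Or.inl rfl))) (Or.inr (Or.inl rfl)) x hx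

theorem Frame.q (F : Frame σ p o u s t) (i : C) :
    (∀ x ∈ segment ℝ (p (o i)) (p (σ (u i))), x ∉ segment ℝ (p (u i)) (p (σ (o i)))) ∧
    (∀ x ∈ segment ℝ (p (o i)) (p (σ (u i))), x ≠ p (σ (o i)) ∧ x ≠ p (u i)) ∧
      (∀ x ∈ segment ℝ (p (u i)) (p (σ (o i))), x ≠ p (o i) ∧ x ≠ p (σ (u i))) :=
  quad (p (o i)) (p (σ (o i))) (p (u i))
    (p (σ (u i))) (s i) (t i) (F.s0 i) (F.s1 i) (F.t0 i) (F.t1 i) (F.meet i) (F.cr i)

/-- a new edge against an ordinary edge -/
theorem Frame.new_ord (F : Frame σ p o u s t) {S : Finset C} {i : C} (hi : i ∈ S) {w : V}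
    (hw : ∀ i ∈ S, w ≠ o i ∧ w ≠ u i) {x : Pt}
    (hxw : x ∈ segment ℝ (p w) (p ((σ * tau o u S) w))) :
    (x ∈ segment ℝ (p (o i)) (p ((σ * tau o u S) (o i))) →
      ((σ * tau o u S) (o i) = w ∧ x = p w) ∨ ((σ * tau o u S) w = o i ∧ x = p (o i))) ∧
    (x ∈ segment ℝ (p (u i)) (p ((σ * tau o u S) (u i))) →
      ((σ * tau o u S) (u i) = w ∧ x = p w) ∨ ((σ * tau o u S) w = u i ∧ x = p (u i))) := by
  have hws := F.ordinary hw
  rw [hws] at hxw ⊢
  constructor
  · intro hx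
    have hb := F.seg_o hi hx
    obtain ⟨v, hv, hv', hxv⟩ := F.box i w (hw i hi).1 (hw i hi).2 x hxw hb
    rw [F.so hi] at hx ⊢
    have hq := (F.q i).2.1 x hx
    rcases hv with rfl | rfl | rfl | rfl
    · rcases hv' with h | h
      · exact absurd h.symm (hw i hi).1
      · right; exact ⟨h.symm, hxv⟩
    · exact absurd hxv hq.1
    · exact absurd hxv hq.2
    · rcases hv' with h | h
      · left; exact ⟨h, by rw [hxv, h]⟩
      · exact absurd (σ.injective h).symm (hw i hi).2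
  · intro hx
    have hb := F.seg_u hi hx
    obtain ⟨v, hv, hv', hxv⟩ := F.box i w (hw i hi).1 (hw i hi).2 x hxw hb
    rw [F.su hi] at hx ⊢
    have hq := (F.q i).2.2 x hx
    rcases hv with rfl | rfl | rfl | rfl
    · exact absurd hxv hq.1
    · rcases hv' with h | h
      · left; exact ⟨h, by rw [hxv, h]⟩
      · exact absurd (σ.injective h).symm (hw i hi).1
    · rcases hv' with h | h
      · exact absurd h.symm (hw i hi).2
      · right; exact ⟨h.symm, hxv⟩
    · exact absurd hxv hq.2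

/-- the planar incidences of a smoothing -/
theorem Frame.plan (F : Frame σ p o u s t) (S : Finset C) (v w : V) (hvw : v ≠ w) (x : Pt)
    (hxv : x ∈ segment ℝ (p v) (p ((σ * tau o u S) v)))
    (hxw : x ∈ segment ℝ (p w) (p ((σ * tau o u S) w))) :
    ((σ * tau o u S) v = w ∧ x = p w) ∨ ((σ * tau o u S) w = v ∧ x = p v) ∨
      (∃ i, i ∉ S ∧ ((v = o i ∧ w = u i) ∨ (v = u i ∧ w = o i))) := by
  have assemble : (((σ * tau o u S) v = w ∧ x = p w) ∨ ((σ * tau o u S) w = v ∧ x = p v)) →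
      ((σ * tau o u S) v = w ∧ x = p w) ∨ ((σ * tau o u S) w = v ∧ x = p v) ∨
      (∃ i, i ∉ S ∧ ((v = o i ∧ w = u i) ∨ (v = u i ∧ w = o i))) := by
    rintro (h | h)
    · exact Or.inl h
    · exact Or.inr (Or.inl h)
  rcases F.trich S v with ⟨i, hi, rfl⟩ | ⟨i, hi, rfl⟩ | hv
  · rcases F.trich S w with ⟨j, hj, rfl⟩ | ⟨j, hj, rfl⟩ | hw
    · exfalso
      have hij : i ≠ j := fun h => hvw (by rw [h])
      exact Set.disjoint_left.1 (F.boxes i j hij) (F.seg_o hi hxv) (F.seg_o hj hxw)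
    · exfalso
      by_cases hij : i = j
      · subst hij
        rw [F.so hi] at hxv
        rw [F.su hi] at hxw
        exact (F.q i).1 x hxv hxw
      · exact Set.disjoint_left.1 (F.boxes i j hij) (F.seg_o hi hxv) (F.seg_u hj hxw)
    · exact assemble ((F.new_ord hi hw hxw).1 hxv)
  · rcases F.trich S w with ⟨j, hj, rfl⟩ | ⟨j, hj, rfl⟩ | hw
    · exfalso
      by_cases hij : i = j
      · subst hij
        rw [F.su hi] at hxv
        rw [F.so hi] at hxw
        exact (F.q i).1 x hxw hxv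
      · exact Set.disjoint_left.1 (F.boxes i j hij) (F.seg_u hi hxv) (F.seg_o hj hxw)
    · exfalso
      have hij : i ≠ j := fun h => hvw (by rw [h])
      exact Set.disjoint_left.1 (F.boxes i j hij) (F.seg_u hi hxv) (F.seg_u hj hxw)
    · exact assemble ((F.new_ord hi hw hxw).2 hxv)
  · rcases F.trich S w with ⟨j, hj, rfl⟩ | ⟨j, hj, rfl⟩ | hw
    · exact assemble (((F.new_ord hj hv hxv).1 hxw).symm)
    · exact assemble (((F.new_ord hj hv hxv).2 hxw).symm)
    · rw [F.ordinary hv] at hxv ⊢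
      rw [F.ordinary hw] at hxw ⊢
      by_cases hcr : ∃ i, (v = o i ∧ w = u i) ∨ (v = u i ∧ w = o i)
      · obtain ⟨i, hi⟩ := hcr
        right; right
        refine ⟨i, ?_, hi⟩
        intro hiS
        rcases hi with ⟨h, _⟩ | ⟨h, _⟩
        · exact (hv i hiS).1 h
        · exact (hv i hiS).2 h
      · have := F.others v w hvw (fun i => ⟨fun h => hcr ⟨i, Or.inl h⟩, fun h => hcr ⟨i, Or.inr h⟩⟩)
          x hxv hxw
        rcases this with h | h
        · exact Or.inl h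
        · exact Or.inr (Or.inl h)

/-- projected edges of a smoothing are nondegenerate -/
theorem Frame.nondegS (F : Frame σ p o u s t) (S : Finset C) (v : V) :
    p v ≠ p ((σ * tau o u S) v) := by
  rcases F.trich S v with ⟨i, hi, rfl⟩ | ⟨i, hi, rfl⟩ | hv
  · rw [F.so hi]
    intro h'
    have hu := cross_unique (p (o i)) (p (σ (o i))) (p (u i)) (p (σ (u i))) (s i) (t i) 0 1
      (F.meet i) (by simp [h']) (F.cr i)
    linarith [F.s0 i, hu.1]
  · rw [F.su hi]
    intro h'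
    have hm := F.meet i
    have hcr := F.cr i
    have hu := cross_unique (p (o i)) (p (σ (o i))) (p (u i)) (p (σ (u i))) (s i) (t i) 1 0 hm
      (by simp [h']) hcr
    linarith [F.s1 i, hu.1]
  · rw [F.ordinary hv]
    exact F.nondeg v

/-- height difference at the crossing `i` -/
def hd (σ : Equiv.Perm V) (o u : C → V) (s t : C → ℝ) (h : V → ℝ) (i : C) : ℝ :=
  ((1 - s i) * h (o i) + s i * h (σ (o i))) - ((1 - t i) * h (u i) + t i * h (σ (u i)))

theorem proj_seg {a b : Sp} {x : Sp} (hx : x ∈ segment ℝ a b) : x.1 ∈ segment ℝ a.1 b.1 := by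
  obtain ⟨r, h0, h1, rfl⟩ := mem_seg.1 hx
  exact mem_seg.2 ⟨r, h0, h1, rfl⟩

theorem lift_left {a b x : Sp} (hx : x ∈ segment ℝ a b) (hab : a.1 ≠ b.1) (h : x.1 = a.1) :
    x = a := by
  obtain ⟨r, h0, h1, rfl⟩ := mem_seg.1 hx
  have : r = 0 := by
    apply seg_param_unique hab
    have h2 : (1 - r) • a.1 + r • b.1 = a.1 := h
    rw [h2]; simp
  rw [this]; simp

theorem lift_right {a b x : Sp} (hx : x ∈ segment ℝ a b) (hab : a.1 ≠ b.1) (h : x.1 = b.1) :
    x = b := by
  obtain ⟨r, h0, h1, rfl⟩ := mem_seg.1 hx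
  have : r = 1 := by
    apply seg_param_unique hab
    have h2 : (1 - r) • a.1 + r • b.1 = b.1 := h
    rw [h2]; simp
  rw [this]; simp

theorem Frame.no_meet (F : Frame σ p o u s t) (i : C) (h : V → ℝ) (hne : hd σ o u s t h i ≠ 0)
    (x : Sp) (h1 : x ∈ segment ℝ ((p (o i), h (o i)) : Sp) (p (σ (o i)), h (σ (o i))))
    (h2 : x ∈ segment ℝ ((p (u i), h (u i)) : Sp) (p (σ (u i)), h (σ (u i)))) : False := by
  obtain ⟨a, a0, a1, rfl⟩ := mem_seg.1 h1
  obtain ⟨b, b0, b1, hb⟩ := mem_seg.1 h2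
  have e1 : (1 - a) • p (o i) + a • p (σ (o i)) = (1 - b) • p (u i) + b • p (σ (u i)) :=
    congrArg Prod.fst hb
  have e2 : (1 - a) * h (o i) + a * h (σ (o i)) = (1 - b) * h (u i) + b * h (σ (u i)) :=
    congrArg Prod.snd hb
  obtain ⟨rfl, rfl⟩ := cross_unique _ _ _ _ _ _ _ _ (F.meet i) e1 (F.cr i)
  apply hne
  unfold hd
  linarith

/-- embeddedness of a smoothing with given heights -/
theorem Frame.emb (F : Frame σ p o u s t) (S : Finset C) (h : V → ℝ)
    (hh : ∀ i, i ∉ S → hd σ o u s t h i ≠ 0) :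
    Embedded (σ * tau o u S) (fun v => ((p v, h v) : Sp)) := by
  constructor
  · intro v hv
    exact F.nondegS S v (congrArg Prod.fst hv)
  · intro v w hvw x hxv hxw
    have hnv := F.nondegS S v
    have hnw := F.nondegS S w
    rcases F.plan S v w hvw x.1 (proj_seg hxv) (proj_seg hxw) with ⟨h1, h2⟩ | ⟨h1, h2⟩ | ⟨i, hi, hc⟩
    · left; exact ⟨h1, lift_left hxw hnw h2⟩
    · right; exact ⟨h1, lift_left hxv hnv h2⟩
    · exfalso
      have hord : ∀ v, (v = o i ∨ v = u i) → (σ * tau o u S) v = σ v := by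
        intro v hv
        apply F.ordinary
        intro j hj
        have hij : i ≠ j := fun h => hi (h ▸ hj)
        rcases hv with rfl | rfl
        · exact ⟨fun h => hij (F.oo _ _ h), F.ou _ _⟩
        · exact ⟨fun h => F.ou _ _ h.symm, fun h => hij (F.uu _ _ h)⟩
      rcases hc with ⟨rfl, rfl⟩ | ⟨rfl, rfl⟩
      · rw [hord _ (Or.inl rfl)] at hxv
        rw [hord _ (Or.inr rfl)] at hxw
        exact F.no_meet i h (hh i hi) x hxv hxw
      · rw [hord _ (Or.inr rfl)] at hxv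
        rw [hord _ (Or.inl rfl)] at hxw
        exact F.no_meet i h (hh i hi) x hxw hxv

/-- heights of the same type give isotopic links -/
theorem Frame.move (F : Frame σ p o u s t) (hV : Finite V) (S : Finset C) (h h' : V → ℝ)
    (hh : ∀ i, i ∉ S → 0 < hd σ o u s t h i * hd σ o u s t h' i)
    (e : Embedded (σ * tau o u S) (fun v => ((p v, h v) : Sp)))
    (e' : Embedded (σ * tau o u S) (fun v => ((p v, h' v) : Sp))) :
    Move ⟨V, hV, σ * tau o u S, _, e⟩ ⟨V, hV, σ * tau o u S, _, e'⟩ := by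
  apply Move.motion
  intro r r0 r1
  have h1 : (fun v => (1 - r) • ((p v, h v) : Sp) + r • ((p v, h' v) : Sp)) =
      fun v => ((p v, (1 - r) * h v + r * h' v) : Sp) := by
    funext v
    apply Prod.ext
    · change (1 - r) • p v + r • p v = p v
      rw [← add_smul]; simp
    · rfl
  rw [h1]
  apply F.emb
  intro i hi
  have h2 : hd σ o u s t (fun v => (1 - r) * h v + r * h' v) i =
      (1 - r) * hd σ o u s t h i + r * hd σ o u s t h' i := by
    unfold hd; ring
  rw [h2]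
  have h3 := hh i hi
  rcases lt_or_ge 0 (hd σ o u s t h i) with h4 | h4
  · have h5 : 0 < hd σ o u s t h' i := (pos_iff_pos_of_mul_pos h3).1 h4
    have : 0 < (1 - r) * hd σ o u s t h i + r * hd σ o u s t h' i := by
      rcases r0.eq_or_lt with h' | h'
      · rw [← h']; simpa using h4
      · have := mul_pos h' h5
        have := mul_nonneg (sub_nonneg.2 r1) h4.le
        linarith
    exact this.ne'
  · have h4' : hd σ o u s t h i < 0 := by
      rcases h4.lt_or_eq with h | h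
      · exact h
      · rw [h] at h3; simp at h3
    have h5 : hd σ o u s t h' i < 0 := by
      by_contra h6
      push Not at h6
      nlinarith
    have : (1 - r) * hd σ o u s t h i + r * hd σ o u s t h' i < 0 := by
      rcases r0.eq_or_lt with h' | h'
      · rw [← h']; simpa using h4'
      · have := mul_neg_of_pos_of_neg h' h5
        have := mul_nonpos_of_nonneg_of_nonpos (sub_nonneg.2 r1) h4'.le
        linarith
    exact this.ne

end Pool.Agent.V11208.PL
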