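import Pool.Agent.V11208.PL.Mono

/-! Adding vertices; relabelling; moving a triangle component in a half space. -/

namespace Pool.Agent.V11208.PL
open Pool.Agent.V11208.UB

theorem seg_eq_left {E : Type*} [AddCommGroup E] [Module ℝ E] (a b : E) :
    a ∈ segment ℝ a b := left_mem_segment ℝ a b

/-- converse of `remove_emb` -/
theorem unremove_emb {V : Type} {σ : Equiv.Perm V} {P : V → Sp} (v1 : V)
    (h : Embedded (bypass σ v1) (fun w => P w))
    (hσ : σ v1 ≠ v1) (hσ2 : σ v1 ≠ σ.symm v1)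
    (hnc : ∀ r r' : ℝ, 0 ≤ r → r ≤ 1 → 0 ≤ r' → r' ≤ 1 →
      (1 - r) • P (σ.symm v1) + r • P v1 = (1 - r') • P v1 + r' • P (σ v1) → r = 1 ∧ r' = 0)
    (hfree : TriFree σ P v1) : Embedded σ P := by
  classical
  have hsa : σ (σ.symm v1) = v1 := σ.apply_symm_apply v1
  have hav : σ.symm v1 ≠ v1 := by
    intro h'
    apply hσ
    rw [← h'] ; rw [hsa, h']
  have hav1 : P (σ.symm v1) ≠ P v1 := by
    intro h'
    have := hnc 0 0 le_rfl zero_le_one le_rfl zero_le_one (by simp [h'])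
    linarith [this.1]
  have hcv1 : P v1 ≠ P (σ v1) := by
    intro h'
    have := hnc 1 1 zero_le_one le_rfl zero_le_one le_rfl (by simp [h'])
    linarith [this.2]
  have tri1 : ∀ x ∈ segment ℝ (P (σ.symm v1)) (P v1),
      x ∈ convexHull ℝ {P (σ.symm v1), P v1, P (σ v1)} := by
    intro x hx
    rw [← convexHull_pair] at hx
    exact convexHull_mono (by intro y hy; simp at hy ⊢; tauto) hx
  have tri2 : ∀ x ∈ segment ℝ (P v1) (P (σ v1)),
      x ∈ convexHull ℝ {P (σ.symm v1), P v1, P (σ v1)} := by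
    intro x hx
    rw [← convexHull_pair] at hx
    exact convexHull_mono (by intro y hy; simp at hy ⊢; tauto) hx
  have hord : ∀ w : V, w ≠ v1 → σ w ≠ v1 → P w ≠ P (σ w) := by
    intro w hw hw'
    have := h.1 ⟨w, hw⟩
    intro h'
    apply this
    change P w = P (bypass σ v1 ⟨w, hw⟩)
    rw [(bypass_apply σ v1 ⟨w, hw⟩).2 hw']; exact h'
  have hsymm : ∀ w, σ w = v1 → w = σ.symm v1 := fun w hw => (Equiv.eq_symm_apply σ).2 hw
  -- edge at `a` against an ordinary edge
  have ca : ∀ w, w ≠ v1 → σ w ≠ v1 → ∀ x, x ∈ segment ℝ (P (σ.symm v1)) (P v1) →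
      x ∈ segment ℝ (P w) (P (σ w)) → σ w = σ.symm v1 ∧ x = P (σ.symm v1) := by
    intro w hw hw' x hx hxw
    rcases hfree w hw hw' x hxw (tri1 x hx) with h1 | ⟨h1, h2⟩
    · exact h1
    · exfalso
      obtain ⟨r, r0, r1, hr⟩ := mem_seg.1 hx
      have := hnc r 1 r0 r1 zero_le_one le_rfl (by rw [← hr, h2]; simp)
      linarith [this.2]
  have cv : ∀ w, w ≠ v1 → σ w ≠ v1 → ∀ x, x ∈ segment ℝ (P v1) (P (σ v1)) →
      x ∈ segment ℝ (P w) (P (σ w)) → w = σ v1 ∧ x = P (σ v1) := by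
    intro w hw hw' x hx hxw
    rcases hfree w hw hw' x hxw (tri2 x hx) with ⟨h1, h2⟩ | h1
    · exfalso
      obtain ⟨r, r0, r1, hr⟩ := mem_seg.1 hx
      have := hnc 0 r le_rfl zero_le_one r0 r1 (by rw [← hr, h2]; simp)
      linarith [this.1]
    · exact h1
  have cc : ∀ x, x ∈ segment ℝ (P (σ.symm v1)) (P v1) → x ∈ segment ℝ (P v1) (P (σ v1)) →
      x = P v1 := by
    intro x hx hx'
    obtain ⟨r, r0, r1, hr⟩ := mem_seg.1 hx
    obtain ⟨r', r0', r1', hr'⟩ := mem_seg.1 hx'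
    have := hnc r r' r0 r1 r0' r1' (by rw [← hr, ← hr'])
    rw [hr, this.1]; simp
  constructor
  · intro w
    by_cases hw : w = v1
    · rw [hw]; exact hcv1
    · by_cases hw' : σ w = v1
      · rw [hw', hsymm w hw']; exact hav1
      · exact hord w hw hw'
  · intro v w hvw x hxv hxw
    by_cases hv1 : v = v1
    · subst hv1
      by_cases hw' : σ w = v
      · right
        rw [hw', hsymm w hw'] at hxw
        exact ⟨hw', cc x hxw hxv⟩
      · left
        have := cv w (Ne.symm hvw) hw' x hxv hxw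
        exact ⟨this.1.symm, by rw [this.2, ← this.1]⟩
    · by_cases hw1 : w = v1
      · subst hw1
        by_cases hv' : σ v = w
        · left
          rw [hv', hsymm v hv'] at hxv
          exact ⟨hv', cc x hxv hxw⟩
        · right
          have := cv v hvw hv' x hxw hxv
          exact ⟨this.1.symm, by rw [this.2, ← this.1]⟩
      · by_cases hv' : σ v = v1
        · by_cases hw' : σ w = v1
          · exact absurd (σ.injective (hv'.trans hw'.symm)) hvw
          · right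
            have hva := hsymm v hv'
            rw [hv', hva] at hxv
            have := ca w hw1 hw' x hxv hxw
            rw [hva]; exact this
        · by_cases hw' : σ w = v1
          · left
            have hwa := hsymm w hw'
            rw [hw', hwa] at hxw
            have := ca v hv1 hv' x hxw hxv
            rw [hwa]; exact this
          · have hv2 : (bypass σ v1 ⟨v, hv1⟩ : V) = σ v := (bypass_apply σ v1 ⟨v, hv1⟩).2 hv'
            have hw2 : (bypass σ v1 ⟨w, hw1⟩ : V) = σ w := (bypass_apply σ v1 ⟨w, hw1⟩).2 hw'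
            have := h.2 ⟨v, hv1⟩ ⟨w, hw1⟩ (fun h' => hvw (congrArg Subtype.val h')) x
              (by change x ∈ segment ℝ (P v) (P (bypass σ v1 ⟨v, hv1⟩)); rw [hv2]; exact hxv)
              (by change x ∈ segment ℝ (P w) (P (bypass σ v1 ⟨w, hw1⟩)); rw [hw2]; exact hxw)
            rcases this with ⟨h1, h2⟩ | ⟨h1, h2⟩
            · left
              refine ⟨?_, h2⟩
              rw [← hv2, h1]
            · right
              refine ⟨?_, h2⟩
              rw [← hw2, h1]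

/-- embeddedness is inherited by closed sub-collections -/
theorem emb_sub {V V' : Type} {σ : Equiv.Perm V} {P : V → Sp} (h : Embedded σ P)
    (σ' : Equiv.Perm V') (P' : V' → Sp) (j : V' → V) (hj : Function.Injective j)
    (hn : ∀ w, j (σ' w) = σ (j w)) (hp : ∀ w, P' w = P (j w)) : Embedded σ' P' := by
  constructor
  · intro w
    rw [hp, hp, hn]; exact h.1 _
  · intro v w hvw x hxv hxw
    rw [hp, hp, hn] at hxv hxw
    rcases h.2 (j v) (j w) (fun h' => hvw (hj h')) x hxv hxw with ⟨h1, h2⟩ | ⟨h1, h2⟩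
    · left
      exact ⟨hj (by rw [hn, h1]), by rw [hp, h2]⟩
    · right
      exact ⟨hj (by rw [hn, h1]), by rw [hp, h2]⟩

/-- an injective linear map preserves embeddedness -/
theorem emb_linear {V : Type} {σ : Equiv.Perm V} {P : V → Sp} (h : Embedded σ P)
    (M : Sp →ₗ[ℝ] Sp) (hM : Function.Injective M) : Embedded σ (fun v => M (P v)) := by
  have hseg : ∀ a b x : Sp, x ∈ segment ℝ (M a) (M b) → ∃ y ∈ segment ℝ a b, M y = x := by
    intro a b x hx
    obtain ⟨r, r0, r1, rfl⟩ := mem_seg.1 hx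
    exact ⟨(1 - r) • a + r • b, mem_seg.2 ⟨r, r0, r1, rfl⟩, by simp⟩
  constructor
  · intro v hv
    exact h.1 v (hM hv)
  · intro v w hvw x hxv hxw
    obtain ⟨y, hy, hyx⟩ := hseg _ _ _ hxv
    obtain ⟨y', hy', hyx'⟩ := hseg _ _ _ hxw
    have : y = y' := hM (hyx.trans hyx'.symm)
    subst this
    rcases h.2 v w hvw y hy hy' with ⟨h1, h2⟩ | ⟨h1, h2⟩
    · left; exact ⟨h1, by rw [← hyx, h2]⟩
    · right; exact ⟨h1, by rw [← hyx, h2]⟩

theorem linear_move {V : Type} (hV : Finite V) {σ : Equiv.Perm V} {P : V → Sp} (h : Embedded σ P)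
    (M : Sp →ₗ[ℝ] Sp)
    (hM : ∀ r : ℝ, 0 ≤ r → r ≤ 1 → ∀ x : Sp, (1 - r) • x + r • M x = 0 → x = 0)
    (h' : Embedded σ (fun v => M (P v))) :
    Move ⟨V, hV, σ, P, h⟩ ⟨V, hV, σ, fun v => M (P v), h'⟩ := by
  apply Move.motion
  intro r r0 r1
  have := emb_linear h ((1 - r) • LinearMap.id + r • M) (by
    rw [injective_iff_map_eq_zero]
    intro x hx
    apply hM r r0 r1 x
    simpa using hx)
  simpa using this

/-- two vectors are independent -/
def Indep (u v : Sp) : Prop := ∀ α β : ℝ, α • u + β • v = 0 → α = 0 ∧ β = 0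

/-- positions of a triangular component can be changed in an open half space -/
theorem half_emb {V : Type} {σ : Equiv.Perm V} {Q Q' : V → Sp} (h : Embedded σ Q)
    (A B C : V) (hAB : σ A = B) (hBC : σ B = C) (hCA : σ C = A) (g : Sp →ₗ[ℝ] ℝ) (H : ℝ)
    (hoff : ∀ w, w ≠ A → w ≠ B → w ≠ C → Q' w = Q w)
    (hle : ∀ w, w ≠ A → w ≠ B → w ≠ C → g (Q w) ≤ H)
    (hA : H < g (Q' A)) (hB : H < g (Q' B)) (hC : H < g (Q' C))
    (hind : Indep (Q' B - Q' A) (Q' C - Q' A)) : Embedded σ Q' := by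
  have hAneB : A ≠ B := by rintro rfl; exact emb_ne h A hAB
  have hBneC : B ≠ C := by rintro rfl; exact emb_ne h B hBC
  have hCneA : C ≠ A := by rintro rfl; exact emb_ne h C hCA
  have hcl : ∀ w, w ≠ A → w ≠ B → w ≠ C → σ w ≠ A ∧ σ w ≠ B ∧ σ w ≠ C := by
    intro w h1 h2 h3
    refine ⟨fun h' => h3 (σ.injective (h'.trans hCA.symm)),
      fun h' => h1 (σ.injective (h'.trans hAB.symm)),
      fun h' => h2 (σ.injective (h'.trans hBC.symm))⟩
  have goff : ∀ w, w ≠ A → w ≠ B → w ≠ C → ∀ x ∈ segment ℝ (Q' w) (Q' (σ w)), g x ≤ H := by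
    intro w h1 h2 h3 x hx
    obtain ⟨k1, k2, k3⟩ := hcl w h1 h2 h3
    rw [hoff w h1 h2 h3, hoff _ k1 k2 k3] at hx
    obtain ⟨r, r0, r1, rfl⟩ := mem_seg.1 hx
    have e1 := hle w h1 h2 h3
    have e2 := hle _ k1 k2 k3
    simp only [map_add, map_smul, smul_eq_mul]
    nlinarith
  have gon : ∀ a b : Sp, H < g a → H < g b → ∀ x ∈ segment ℝ a b, H < g x := by
    intro a b ha hb x hx
    obtain ⟨r, r0, r1, rfl⟩ := mem_seg.1 hx
    simp only [map_add, map_smul, smul_eq_mul]
    rcases r0.eq_or_lt with h' | h'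
    · rw [← h']; simpa using ha
    · nlinarith
  have gK : ∀ w, (w = A ∨ w = B ∨ w = C) → ∀ x ∈ segment ℝ (Q' w) (Q' (σ w)), H < g x := by
    rintro w (rfl | rfl | rfl) x hx
    · rw [hAB] at hx; exact gon _ _ hA hB x hx
    · rw [hBC] at hx; exact gon _ _ hB hC x hx
    · rw [hCA] at hx; exact gon _ _ hC hA x hx
  set uu := Q' B - Q' A with huu
  set vv := Q' C - Q' A with hvv
  have hBe : Q' B = Q' A + uu := by rw [huu]; abel
  have hCe : Q' C = Q' A + vv := by rw [hvv]; abel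
  have pAB : ∀ x ∈ segment ℝ (Q' A) (Q' B), ∃ r : ℝ, 0 ≤ r ∧ r ≤ 1 ∧ x = Q' A + r • uu + (0:ℝ) • vv := by
    intro x hx
    obtain ⟨r, r0, r1, rfl⟩ := mem_seg.1 hx
    refine ⟨r, r0, r1, ?_⟩
    rw [hBe, smul_add, sub_smul, one_smul, zero_smul]; abel
  have pBC : ∀ x ∈ segment ℝ (Q' B) (Q' C), ∃ r : ℝ, 0 ≤ r ∧ r ≤ 1 ∧
      x = Q' A + (1 - r) • uu + r • vv := by
    intro x hx
    obtain ⟨r, r0, r1, rfl⟩ := mem_seg.1 hx
    refine ⟨r, r0, r1, ?_⟩
    rw [hBe, hCe, smul_add, smul_add, sub_smul, one_smul, sub_smul, one_smul]; abel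
  have pCA : ∀ x ∈ segment ℝ (Q' C) (Q' A), ∃ r : ℝ, 0 ≤ r ∧ r ≤ 1 ∧
      x = Q' A + (0:ℝ) • uu + (1 - r) • vv := by
    intro x hx
    obtain ⟨r, r0, r1, rfl⟩ := mem_seg.1 hx
    refine ⟨r, r0, r1, ?_⟩
    rw [hCe, smul_add, zero_smul, sub_smul, sub_smul, one_smul, one_smul]; abel
  have huniq : ∀ a b a' b' : ℝ, Q' A + a • uu + b • vv = Q' A + a' • uu + b' • vv →
      a = a' ∧ b = b' := by
    intro a b a' b' hh
    have h0 : (a - a') • uu + (b - b') • vv = 0 := by
      rw [sub_smul, sub_smul]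
      have h1 := sub_eq_zero.2 hh
      rw [← h1]; abel
    obtain ⟨h1, h2⟩ := hind _ _ h0
    constructor <;> linarith
  have iAB_BC : ∀ x, x ∈ segment ℝ (Q' A) (Q' B) → x ∈ segment ℝ (Q' B) (Q' C) → x = Q' B := by
    intro x h1 h2
    obtain ⟨r, r0, r1, e1⟩ := pAB x h1
    obtain ⟨r', r0', r1', e2⟩ := pBC x h2
    obtain ⟨k1, k2⟩ := huniq _ _ _ _ (e1.symm.trans e2)
    rw [e1, hBe, show r = 1 by linarith]; simp
  have iBC_CA : ∀ x, x ∈ segment ℝ (Q' B) (Q' C) → x ∈ segment ℝ (Q' C) (Q' A) → x = Q' C := by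
    intro x h1 h2
    obtain ⟨r, r0, r1, e1⟩ := pBC x h1
    obtain ⟨r', r0', r1', e2⟩ := pCA x h2
    obtain ⟨k1, k2⟩ := huniq _ _ _ _ (e1.symm.trans e2)
    rw [e1, hCe, show r = 1 by linarith]; simp
  have iCA_AB : ∀ x, x ∈ segment ℝ (Q' C) (Q' A) → x ∈ segment ℝ (Q' A) (Q' B) → x = Q' A := by
    intro x h1 h2
    obtain ⟨r, r0, r1, e1⟩ := pCA x h1
    obtain ⟨r', r0', r1', e2⟩ := pAB x h2
    obtain ⟨k1, k2⟩ := huniq _ _ _ _ (e1.symm.trans e2)
    rw [e2, ← k1]; simp
  constructor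
  · intro w
    by_cases h1 : w = A
    · subst h1; rw [hAB]
      intro h'
      have := hind 1 0 (by rw [huu, ← h']; simp)
      norm_num at this
    · by_cases h2 : w = B
      · subst h2; rw [hBC]
        intro h'
        have := hind 1 (-1) (by rw [huu, hvv, ← h']; simp)
        norm_num at this
      · by_cases h3 : w = C
        · subst h3; rw [hCA]
          intro h'
          have := hind 0 1 (by rw [hvv, ← h']; simp)
          norm_num at this
        · obtain ⟨k1, k2, k3⟩ := hcl w h1 h2 h3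
          rw [hoff w h1 h2 h3, hoff _ k1 k2 k3]
          exact h.1 w
  · intro v w hvw x hxv hxw
    by_cases hv : v = A ∨ v = B ∨ v = C
    · by_cases hw : w = A ∨ w = B ∨ w = C
      · rcases hv with rfl | rfl | rfl
        · rcases hw with rfl | rfl | rfl
          · exact absurd rfl hvw
          · left; rw [hAB] at hxv; rw [hBC] at hxw; exact ⟨hAB, iAB_BC x hxv hxw⟩
          · right; rw [hAB] at hxv; rw [hCA] at hxw; exact ⟨hCA, iCA_AB x hxw hxv⟩
        · rcases hw with rfl | rfl | rfl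
          · right; rw [hBC] at hxv; rw [hAB] at hxw; exact ⟨hAB, iAB_BC x hxw hxv⟩
          · exact absurd rfl hvw
          · left; rw [hBC] at hxv; rw [hCA] at hxw; exact ⟨hBC, iBC_CA x hxv hxw⟩
        · rcases hw with rfl | rfl | rfl
          · left; rw [hCA] at hxv; rw [hAB] at hxw; exact ⟨hCA, iCA_AB x hxv hxw⟩
          · right; rw [hCA] at hxv; rw [hBC] at hxw; exact ⟨hBC, iBC_CA x hxw hxv⟩
          · exact absurd rfl hvw
      · exfalso
        push Not at hw
        have e1 := gK v hv x hxv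
        have e2 := goff w hw.1 hw.2.1 hw.2.2 x hxw
        linarith
    · push Not at hv
      by_cases hw : w = A ∨ w = B ∨ w = C
      · exfalso
        have e1 := gK w hw x hxw
        have e2 := goff v hv.1 hv.2.1 hv.2.2 x hxv
        linarith
      · push Not at hw
        obtain ⟨k1, k2, k3⟩ := hcl v hv.1 hv.2.1 hv.2.2
        obtain ⟨l1, l2, l3⟩ := hcl w hw.1 hw.2.1 hw.2.2
        rw [hoff v hv.1 hv.2.1 hv.2.2, hoff _ k1 k2 k3] at hxv
        rw [hoff w hw.1 hw.2.1 hw.2.2, hoff _ l1 l2 l3] at hxw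
        rw [hoff v hv.1 hv.2.1 hv.2.2, hoff w hw.1 hw.2.1 hw.2.2]
        exact h.2 v w hvw x hxv hxw

end Pool.Agent.V11208.PL
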