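import Pool.Agent.V11208.PL.Tri

/-! The kink: a link with a small split triangle has vanishing Conway polynomial. -/

namespace Pool.Agent.V11208.PL
open Pool.Agent.V11208.UB

/-- the first coordinate -/
def gx : Sp →ₗ[ℝ] ℝ := (LinearMap.fst ℝ ℝ ℝ).comp (LinearMap.fst ℝ Pt ℝ)

theorem gx_apply (x : Sp) : gx x = x.1.1 := rfl

section
variable (p1 p2 : Sp)

noncomputable def sA (h : ℝ) : Sp := p1 + (2/5 : ℝ) • (p2 - p1) + ((1, 0), -h)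
noncomputable def sB (h : ℝ) : Sp := p1 + (3/5 : ℝ) • (p2 - p1) + ((1, 0), h)
noncomputable def sC : Sp := p1 + (1/2 : ℝ) • (p2 - p1) + ((2, 0), 0)

end

section
variable {p1 p2 : Sp} {H : ℝ}

theorem gA (h1 : gx p1 = H) (h2 : gx p2 = H) (h : ℝ) : gx (sA p1 p2 h) = H + 1 := by
  unfold sA
  rw [map_add, map_add, map_smul, map_sub, h1, h2, gx_apply]; simp

theorem gB (h1 : gx p1 = H) (h2 : gx p2 = H) (h : ℝ) : gx (sB p1 p2 h) = H + 1 := by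
  unfold sB
  rw [map_add, map_add, map_smul, map_sub, h1, h2, gx_apply]; simp

theorem gC (h1 : gx p1 = H) (h2 : gx p2 = H) : gx (sC p1 p2) = H + 2 := by
  unfold sC
  rw [map_add, map_add, map_smul, map_sub, h1, h2, gx_apply]; simp

/-- the coordinates of a combination -/
theorem comb_inj (h1 : gx p1 = H) (h2 : gx p2 = H) (hη : p1.1.2 ≠ p2.1.2) (a b c a' b' c' : ℝ)
    (heq : a • (p2 - p1) + b • (((1, 0), 0) : Sp) + c • (((0, 0), 1) : Sp) =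
      a' • (p2 - p1) + b' • (((1, 0), 0) : Sp) + c' • (((0, 0), 1) : Sp)) :
    a = a' ∧ b = b' ∧ c = c' := by
  have e1 := congrArg (fun x : Sp => x.1.1) heq
  have e2 := congrArg (fun x : Sp => x.1.2) heq
  have e3 := congrArg (fun x : Sp => x.2) heq
  simp only [gx_apply] at h1 h2
  simp [h1, h2] at e1 e2 e3
  have ha : a = a' := by
    have : p2.1.2 - p1.1.2 ≠ 0 := sub_ne_zero.2 hη.symm
    rcases e2 with h | h
    · exact h
    · exact absurd h this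
  subst ha
  exact ⟨rfl, e1, by linarith⟩

theorem sA_eq (h : ℝ) : sA p1 p2 h = p1 + ((2/5 : ℝ) • (p2 - p1) + (1:ℝ) • (((1, 0), 0) : Sp) +
    (-h) • (((0, 0), 1) : Sp)) := by
  unfold sA
  rw [add_assoc]
  congr 1
  rw [add_assoc]
  congr 1
  ext <;> simp

theorem sB_eq (h : ℝ) : sB p1 p2 h = p1 + ((3/5 : ℝ) • (p2 - p1) + (1:ℝ) • (((1, 0), 0) : Sp) +
    h • (((0, 0), 1) : Sp)) := by
  unfold sB
  rw [add_assoc]
  congr 1
  rw [add_assoc]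
  congr 1
  ext <;> simp

theorem sC_eq : sC p1 p2 = p1 + ((1/2 : ℝ) • (p2 - p1) + (2:ℝ) • (((1, 0), 0) : Sp) +
    (0:ℝ) • (((0, 0), 1) : Sp)) := by
  unfold sC
  rw [add_assoc]
  congr 1
  rw [add_assoc]
  congr 1
  ext <;> simp

theorem p2_eq : p2 = p1 + ((1 : ℝ) • (p2 - p1) + (0:ℝ) • (((1, 0), 0) : Sp) +
    (0:ℝ) • (((0, 0), 1) : Sp)) := by
  simp

theorem p1_eq : p1 = p1 + ((0 : ℝ) • (p2 - p1) + (0:ℝ) • (((1, 0), 0) : Sp) +
    (0:ℝ) • (((0, 0), 1) : Sp)) := by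
  simp

/-- combinations of points given in the frame -/
theorem comb2 (x y : ℝ) (hxy : x + y = 1) (a b c a' b' c' : ℝ) :
    x • (p1 + (a • (p2 - p1) + b • (((1, 0), 0) : Sp) + c • (((0, 0), 1) : Sp))) +
    y • (p1 + (a' • (p2 - p1) + b' • (((1, 0), 0) : Sp) + c' • (((0, 0), 1) : Sp))) =
    p1 + ((x * a + y * a') • (p2 - p1) + (x * b + y * b') • (((1, 0), 0) : Sp) +
      (x * c + y * c') • (((0, 0), 1) : Sp)) := by
  have hx : x = 1 - y := by linarith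
  subst hx
  ext <;> simp <;> ring

theorem comb3 (x y z : ℝ) (hxy : x + y + z = 1) (a b c a' b' c' a'' b'' c'' : ℝ) :
    x • (p1 + (a • (p2 - p1) + b • (((1, 0), 0) : Sp) + c • (((0, 0), 1) : Sp))) +
    y • (p1 + (a' • (p2 - p1) + b' • (((1, 0), 0) : Sp) + c' • (((0, 0), 1) : Sp))) +
    z • (p1 + (a'' • (p2 - p1) + b'' • (((1, 0), 0) : Sp) + c'' • (((0, 0), 1) : Sp))) =
    p1 + ((x * a + y * a' + z * a'') • (p2 - p1) + (x * b + y * b' + z * b'') • (((1, 0), 0) : Sp) +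
      (x * c + y * c' + z * c'') • (((0, 0), 1) : Sp)) := by
  have hx : x = 1 - y - z := by linarith
  subst hx
  ext <;> simp <;> ring

theorem comb_inj' (h1 : gx p1 = H) (h2 : gx p2 = H) (hη : p1.1.2 ≠ p2.1.2) (a b c a' b' c' : ℝ)
    (heq : p1 + (a • (p2 - p1) + b • (((1, 0), 0) : Sp) + c • (((0, 0), 1) : Sp)) =
      p1 + (a' • (p2 - p1) + b' • (((1, 0), 0) : Sp) + c' • (((0, 0), 1) : Sp))) :
    a = a' ∧ b = b' ∧ c = c' :=
  comb_inj h1 h2 hη a b c a' b' c' (add_left_cancel heq)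

/-- noncollinearity conditions -/
theorem nc_BCA (h1 : gx p1 = H) (h2 : gx p2 = H) (hη : p1.1.2 ≠ p2.1.2) (h : ℝ)
    (r r' : ℝ) (heq : (1 - r) • sB p1 p2 h + r • sC p1 p2 =
      (1 - r') • sC p1 p2 + r' • sA p1 p2 h) : r = 1 ∧ r' = 0 := by
  rw [sA_eq, sB_eq, sC_eq, comb2 _ _ (by ring), comb2 _ _ (by ring)] at heq
  obtain ⟨e1, e2, e3⟩ := comb_inj' h1 h2 hη _ _ _ _ _ _ heq
  constructor <;> linarith

theorem nc_sBA (h1 : gx p1 = H) (h2 : gx p2 = H) (hη : p1.1.2 ≠ p2.1.2) (h : ℝ) (hh : h ≠ 0)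
    (r r' : ℝ) (heq : (1 - r) • p1 + r • sB p1 p2 h =
      (1 - r') • sB p1 p2 h + r' • sA p1 p2 h) : r = 1 ∧ r' = 0 := by
  have hp : (1 - r) • p1 + r • sB p1 p2 h = (1 - r) • (p1 + ((0 : ℝ) • (p2 - p1) +
    (0:ℝ) • (((1, 0), 0) : Sp) + (0:ℝ) • (((0, 0), 1) : Sp))) + r • sB p1 p2 h := by
    rw [← p1_eq]
  rw [hp, sA_eq, sB_eq, comb2 _ _ (by ring), comb2 _ _ (by ring)] at heq
  obtain ⟨e1, e2, e3⟩ := comb_inj' h1 h2 hη _ _ _ _ _ _ heq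
  have hr : r = 1 := by linarith
  subst hr
  have : r' * h = 0 := by linarith
  rcases mul_eq_zero.1 this with h' | h'
  · exact ⟨rfl, h'⟩
  · exact absurd h' hh

theorem nc_sAs (h1 : gx p1 = H) (h2 : gx p2 = H) (hη : p1.1.2 ≠ p2.1.2) (h : ℝ)
    (r r' : ℝ) (heq : (1 - r) • p1 + r • sA p1 p2 h =
      (1 - r') • sA p1 p2 h + r' • p2) : r = 1 ∧ r' = 0 := by
  have hp : (1 - r) • p1 + r • sA p1 p2 h = (1 - r) • (p1 + ((0 : ℝ) • (p2 - p1) +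
    (0:ℝ) • (((1, 0), 0) : Sp) + (0:ℝ) • (((0, 0), 1) : Sp))) + r • sA p1 p2 h := by
    rw [← p1_eq]
  have hp' : (1 - r') • sA p1 p2 h + r' • p2 = (1 - r') • sA p1 p2 h +
      r' • (p1 + ((1 : ℝ) • (p2 - p1) + (0:ℝ) • (((1, 0), 0) : Sp) +
      (0:ℝ) • (((0, 0), 1) : Sp))) := by
    rw [← p2_eq]
  rw [hp, hp', sA_eq, comb2 _ _ (by ring), comb2 _ _ (by ring)] at heq
  obtain ⟨e1, e2, e3⟩ := comb_inj' h1 h2 hη _ _ _ _ _ _ heq
  constructor <;> linarith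

/-- the edge `A → s₂` meets the triangle `s₁ B A` only in `A` -/
theorem tri_sBA (h1 : gx p1 = H) (h2 : gx p2 = H) (hη : p1.1.2 ≠ p2.1.2) (h : ℝ) (hh : h ≠ 0)
    (x : Sp) (hx : x ∈ segment ℝ (sA p1 p2 h) p2)
    (ht : x ∈ convexHull ℝ {p1, sB p1 p2 h, sA p1 p2 h}) : x = sA p1 p2 h := by
  obtain ⟨r, r0, r1, e⟩ := mem_seg.1 hx
  obtain ⟨α, β, γ, hα, hβ, hγ, hs, e'⟩ := mem_tri.1 ht
  have heq : (1 - r) • sA p1 p2 h + r • (p1 + ((1 : ℝ) • (p2 - p1) + (0:ℝ) • (((1, 0), 0) : Sp) +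
      (0:ℝ) • (((0, 0), 1) : Sp))) = α • (p1 + ((0 : ℝ) • (p2 - p1) +
    (0:ℝ) • (((1, 0), 0) : Sp) + (0:ℝ) • (((0, 0), 1) : Sp))) + β • sB p1 p2 h +
      γ • sA p1 p2 h := by
    rw [← p1_eq, ← p2_eq, ← e, e']
  rw [sA_eq, sB_eq, comb2 _ _ (by ring), comb3 _ _ _ hs] at heq
  obtain ⟨e1, e2, e3⟩ := comb_inj' h1 h2 hη _ _ _ _ _ _ heq
  have e4 : (1 - r) * h = (γ - β) * h := by linarith
  have e5 := mul_right_cancel₀ hh e4
  have hr : r = 0 := by linarith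
  rw [e, hr]; simp

end

end Pool.Agent.V11208.PL
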