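import Pool.Agent.V11208.PL.Kink

/-! The kink, continued: reduction of the two kinked links to the same link. -/

namespace Pool.Agent.V11208.PL
open Pool.Agent.V11208.UB

/-- the data of a link with a triangular component on the right of an extremal edge -/
structure Kd {V : Type} (σ : Equiv.Perm V) (Q : V → Sp) (A B C s1 s2 : V) (H : ℝ) : Prop where
  emb : Embedded σ Q
  AB : σ A = B
  BC : σ B = C
  CA : σ C = A
  ss : σ s1 = s2
  s1A : s1 ≠ A
  s1B : s1 ≠ B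
  s1C : s1 ≠ C
  g1 : gx (Q s1) = H
  g2 : gx (Q s2) = H
  hη : (Q s1).1.2 ≠ (Q s2).1.2
  hlt : ∀ w, w ≠ A → w ≠ B → w ≠ C → w ≠ s1 → w ≠ s2 → gx (Q w) < H

variable {V : Type} [DecidableEq V] {σ : Equiv.Perm V} {Q : V → Sp} {A B C s1 s2 : V} {H : ℝ}

namespace Kd

theorem nAB (K : Kd σ Q A B C s1 s2 H) : A ≠ B := by
  intro h; exact emb_ne K.emb A (by rw [K.AB, h])
theorem nBC (K : Kd σ Q A B C s1 s2 H) : B ≠ C := by
  intro h; exact emb_ne K.emb B (by rw [K.BC, h])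
theorem nCA (K : Kd σ Q A B C s1 s2 H) : C ≠ A := by
  intro h; exact emb_ne K.emb C (by rw [K.CA, h])
theorem s2A (K : Kd σ Q A B C s1 s2 H) : s2 ≠ A := by
  intro h; exact K.s1C (σ.injective (by rw [K.ss, h, K.CA]))
theorem s2B (K : Kd σ Q A B C s1 s2 H) : s2 ≠ B := by
  intro h; exact K.s1A (σ.injective (by rw [K.ss, h, K.AB]))
theorem s2C (K : Kd σ Q A B C s1 s2 H) : s2 ≠ C := by
  intro h; exact K.s1B (σ.injective (by rw [K.ss, h, K.BC]))
theorem s12 (K : Kd σ Q A B C s1 s2 H) : s1 ≠ s2 := by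
  intro h; exact emb_ne K.emb s1 (by rw [K.ss, h])

theorem cl (K : Kd σ Q A B C s1 s2 H) {w : V} (h1 : w ≠ A) (h2 : w ≠ B) (h3 : w ≠ C) :
    σ w ≠ A ∧ σ w ≠ B ∧ σ w ≠ C :=
  ⟨fun h' => h3 (σ.injective (h'.trans K.CA.symm)),
    fun h' => h1 (σ.injective (h'.trans K.AB.symm)),
    fun h' => h2 (σ.injective (h'.trans K.BC.symm))⟩

theorem gle (K : Kd σ Q A B C s1 s2 H) {w : V} (h1 : w ≠ A) (h2 : w ≠ B) (h3 : w ≠ C) :
    gx (Q w) ≤ H := by
  by_cases h4 : w = s1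
  · rw [h4, K.g1]
  · by_cases h5 : w = s2
    · rw [h5, K.g2]
    · exact (K.hlt w h1 h2 h3 h4 h5).le

/-- points of the other edges -/
theorem off (K : Kd σ Q A B C s1 s2 H) {w : V} (h1 : w ≠ A) (h2 : w ≠ B) (h3 : w ≠ C)
    (h4 : w ≠ s1) {x : Sp} (hx : x ∈ segment ℝ (Q w) (Q (σ w))) :
    gx x ≤ H ∧ (H ≤ gx x → (w = s2 ∧ x = Q s2) ∨ (σ w = s1 ∧ x = Q s1)) := by
  obtain ⟨k1, k2, k3⟩ := K.cl h1 h2 h3
  have e1 := K.gle h1 h2 h3
  have e2 := K.gle k1 k2 k3
  obtain ⟨r, r0, r1, hr⟩ := mem_seg.1 hx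
  have hg : gx x = (1 - r) * gx (Q w) + r * gx (Q (σ w)) := by rw [hr]; simp
  refine ⟨by rw [hg]; nlinarith, ?_⟩
  intro hge
  have hσ2 : σ w ≠ s2 := by
    intro h'; exact h4 (σ.injective (by rw [h', K.ss]))
  by_cases h5 : w = s2
  · by_cases h6 : σ w = s1
    · exfalso
      have := emb_ne2 K.emb s1
      rw [K.ss, ← h5] at this
      exact this h6
    · left
      have hlt := K.hlt _ k1 k2 k3 h6 hσ2
      have hr0 : r = 0 := by
        by_contra hr0
        have : 0 < r := lt_of_le_of_ne r0 (Ne.symm hr0)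
        nlinarith
      refine ⟨h5, ?_⟩
      rw [hr, hr0, h5]; simp
  · have hlt := K.hlt _ h1 h2 h3 h4 h5
    by_cases h6 : σ w = s1
    · right
      have hr1 : r = 1 := by
        by_contra hr1
        have : r < 1 := lt_of_le_of_ne r1 hr1
        nlinarith
      refine ⟨h6, ?_⟩
      rw [hr, hr1, h6]; simp
    · exfalso
      have hlt2 := K.hlt _ k1 k2 k3 h6 hσ2
      rcases r0.eq_or_lt with h' | h'
      · rw [← h'] at hg; linarith
      · nlinarith

end Kd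

/-- the kinked permutation -/
def kperm (σ : Equiv.Perm V) (s1 A : V) : Equiv.Perm V := σ * Equiv.swap s1 A

/-- positions with the standard triangle -/
noncomputable def posK (Q : V → Sp) (A B C s1 s2 : V) (h : ℝ) : V → Sp :=
  upd3 Q A B C (sA (Q s1) (Q s2) h) (sB (Q s1) (Q s2) h) (sC (Q s1) (Q s2))

namespace Kd

theorem pA (K : Kd σ Q A B C s1 s2 H) (h : ℝ) : posK Q A B C s1 s2 h A = sA (Q s1) (Q s2) h := by
  simp [posK, upd3]
theorem pB (K : Kd σ Q A B C s1 s2 H) (h : ℝ) : posK Q A B C s1 s2 h B = sB (Q s1) (Q s2) h := by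
  simp [posK, upd3, K.nAB.symm]
theorem pC (K : Kd σ Q A B C s1 s2 H) (h : ℝ) : posK Q A B C s1 s2 h C = sC (Q s1) (Q s2) := by
  simp [posK, upd3, K.nCA, K.nBC.symm]
theorem pO (h : ℝ) {w : V} (h1 : w ≠ A) (h2 : w ≠ B) (h3 : w ≠ C) :
    posK Q A B C s1 s2 h w = Q w := by
  simp [posK, upd3, h1, h2, h3]

theorem ks1 (K : Kd σ Q A B C s1 s2 H) : kperm σ s1 A s1 = B := by
  simp [kperm, K.AB]
theorem kA (K : Kd σ Q A B C s1 s2 H) : kperm σ s1 A A = s2 := by
  simp [kperm, K.ss]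
theorem kB (K : Kd σ Q A B C s1 s2 H) : kperm σ s1 A B = C := by
  rw [kperm, Equiv.Perm.mul_apply, Equiv.swap_apply_of_ne_of_ne K.s1B.symm K.nAB.symm, K.BC]
theorem kC (K : Kd σ Q A B C s1 s2 H) : kperm σ s1 A C = A := by
  rw [kperm, Equiv.Perm.mul_apply, Equiv.swap_apply_of_ne_of_ne K.s1C.symm K.nCA, K.CA]
theorem kO {w : V} (h1 : w ≠ A) (h2 : w ≠ s1) : kperm σ s1 A w = σ w := by
  rw [kperm, Equiv.Perm.mul_apply, Equiv.swap_apply_of_ne_of_ne h2 h1]

end Kd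

theorem kd_main (K : Kd σ Q A B C s1 s2 H) (hV : Finite V) :
    ∃ L'' : PLink, ∀ h : ℝ, h ≠ 0 → ∃ e : Embedded (kperm σ s1 A) (posK Q A B C s1 s2 h),
      Isotopic ⟨V, hV, kperm σ s1 A, posK Q A B C s1 s2 h, e⟩ L'' := by
  classical
  set τ := kperm σ s1 A with hτ
  -- stage types
  set τ1 := bypass τ C with hτ1
  set A1 : {v : V // v ≠ C} := ⟨A, K.nCA.symm⟩ with hA1
  set B1 : {v : V // v ≠ C} := ⟨B, K.nBC⟩ with hB1
  set a1 : {v : V // v ≠ C} := ⟨s1, K.s1C⟩ with ha1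
  set b1 : {v : V // v ≠ C} := ⟨s2, K.s2C⟩ with hb1
  have τ1O : ∀ w : {v : V // v ≠ C}, (w : V) ≠ B → (τ1 w : V) = τ w := by
    intro w hw
    apply (bypass_apply τ C w).2
    intro h'
    exact hw (τ.injective (h'.trans K.kB.symm))
  have τ1B : τ1 B1 = A1 := by
    apply Subtype.ext
    rw [hτ1, (bypass_apply τ C B1).1 K.kB, K.kC]
  set τ2 := bypass τ1 B1 with hτ2
  have hA1B1 : A1 ≠ B1 := fun h => K.nAB (congrArg Subtype.val h)
  have ha1B1 : a1 ≠ B1 := fun h => K.s1B (congrArg Subtype.val h)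
  have hb1B1 : b1 ≠ B1 := fun h => K.s2B (congrArg Subtype.val h)
  have τ1a : τ1 a1 = B1 := by
    apply Subtype.ext
    rw [τ1O a1 K.s1B]; exact K.ks1
  have τ1A : τ1 A1 = b1 := by
    apply Subtype.ext
    rw [τ1O A1 K.nAB]; exact K.kA
  set A2 : {v : {v : V // v ≠ C} // v ≠ B1} := ⟨A1, hA1B1⟩ with hA2
  set a2 : {v : {v : V // v ≠ C} // v ≠ B1} := ⟨a1, ha1B1⟩ with ha2
  set b2 : {v : {v : V // v ≠ C} // v ≠ B1} := ⟨b1, hb1B1⟩ with hb2
  have τ2O : ∀ w : {v : {v : V // v ≠ C} // v ≠ B1}, w ≠ a2 → (τ2 w : {v : V // v ≠ C}) = τ1 w := by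
    intro w hw
    apply (bypass_apply τ1 B1 w).2
    intro h'
    exact hw (Subtype.ext (τ1.injective (h'.trans τ1a.symm)))
  have τ2a : τ2 a2 = A2 := by
    apply Subtype.ext
    rw [hτ2, (bypass_apply τ1 B1 a2).1 τ1a, τ1B]
  have τ2A : τ2 A2 = b2 := by
    apply Subtype.ext
    rw [τ2O A2]
    · exact τ1A
    · intro h; exact K.s1A.symm (congrArg (fun w => (w.1.1 : V)) h)
  set τ3 := bypass τ2 A2 with hτ3
  -- the positions on the last stage
  have hval3 : ∀ w : {w : {v : {v : V // v ≠ C} // v ≠ B1} // w ≠ A2},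
      (w.1.1.1 : V) ≠ A ∧ (w.1.1.1 : V) ≠ B ∧ (w.1.1.1 : V) ≠ C := by
    intro w
    refine ⟨?_, ?_, w.1.1.2⟩
    · intro h; exact w.2 (Subtype.ext (Subtype.ext h))
    · intro h; exact w.1.2 (Subtype.ext h)
  have hnext3 : ∀ w : {w : {v : {v : V // v ≠ C} // v ≠ B1} // w ≠ A2},
      ((τ3 w).1.1.1 : V) = σ w.1.1.1 := by
    intro w
    obtain ⟨h1, h2, h3⟩ := hval3 w
    by_cases hw : w.1 = a2
    · have e1 : (τ3 w).1 = τ2 A2 := by
        rw [hτ3]; exact (bypass_apply τ2 A2 w).1 (by rw [hw]; exact τ2a)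
      rw [e1, τ2A, hw]
      exact K.ss.symm
    · have e1 : (τ3 w).1 = τ2 w.1 := by
        rw [hτ3]
        apply (bypass_apply τ2 A2 w).2
        intro h'
        exact hw (τ2.injective (h'.trans τ2a.symm))
      rw [e1, τ2O w.1 hw, τ1O w.1.1 h2]
      apply Kd.kO h1
      intro h'
      exact hw (Subtype.ext (Subtype.ext h'))
  have E3 : Embedded τ3 (fun w => Q w.1.1.1) := by
    apply emb_sub K.emb τ3 _ (fun w => w.1.1.1)
    · intro w w' hww
      exact Subtype.ext (Subtype.ext (Subtype.ext hww))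
    · exact hnext3
    · intro w; rfl
  refine ⟨⟨_, inferInstance, τ3, fun w => Q w.1.1.1, E3⟩, ?_⟩
  intro h hh
  set P := posK Q A B C s1 s2 h with hP
  have PA : P A = sA (Q s1) (Q s2) h := K.pA h
  have PB : P B = sB (Q s1) (Q s2) h := K.pB h
  have PC : P C = sC (Q s1) (Q s2) := K.pC h
  have Ps1 : P s1 = Q s1 := Kd.pO h K.s1A K.s1B K.s1C
  have Ps2 : P s2 = Q s2 := Kd.pO h K.s2A K.s2B K.s2C
  have gPA : gx (P A) = H + 1 := by rw [PA]; exact gA K.g1 K.g2 h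
  have gPB : gx (P B) = H + 1 := by rw [PB]; exact gB K.g1 K.g2 h
  have gPC : gx (P C) = H + 2 := by rw [PC]; exact gC K.g1 K.g2
  have gPs1 : gx (P s1) = H := by rw [Ps1]; exact K.g1
  have gPs2 : gx (P s2) = H := by rw [Ps2]; exact K.g2
  have hs12 : P s1 ≠ P s2 := by
    intro h'
    apply K.hη
    rw [← Ps1, ← Ps2, h']
  -- ordinary edges
  have ord : ∀ w : V, w ≠ A → w ≠ B → w ≠ C → w ≠ s1 → ∀ x ∈ segment ℝ (P w) (P (τ w)),
      gx x ≤ H ∧ (H ≤ gx x → (w = s2 ∧ x = P s2) ∨ (τ w = s1 ∧ x = P s1)) := by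
    intro w h1 h2 h3 h4 x hx
    have e1 : τ w = σ w := Kd.kO h1 h4
    obtain ⟨k1, k2, k3⟩ := K.cl h1 h2 h3
    have q1 : P w = Q w := Kd.pO h h1 h2 h3
    have q2 : P (σ w) = Q (σ w) := Kd.pO h k1 k2 k3
    rw [e1, q1, q2] at hx
    rw [e1, Ps1, Ps2]
    exact K.off h1 h2 h3 h4 hx
  -- E3 for `P`
  have hP3 : (fun w : {w : {v : {v : V // v ≠ C} // v ≠ B1} // w ≠ A2} => P w.1.1.1) =
      fun w => Q w.1.1.1 := by
    funext w
    obtain ⟨h1, h2, h3⟩ := hval3 w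
    exact Kd.pO h h1 h2 h3
  have E3' : Embedded τ3 (fun w => P w.1.1.1) := by rw [hP3]; exact E3
  -- stage 2
  have hsymA2 : τ2.symm A2 = a2 := (Equiv.symm_apply_eq τ2).2 τ2a.symm
  have F2 : TriFree τ2 (fun w => P w.1.1) A2 := by
    intro w hw1 hw2 x hx ht
    rw [hsymA2, τ2A] at ht ⊢
    change x ∈ convexHull ℝ {P s1, P A, P s2} at ht
    have hwa : w ≠ a2 := fun h' => hw2 (by rw [h', τ2a])
    have hvA : (w.1.1 : V) ≠ A := fun h' => hw1 (Subtype.ext (Subtype.ext h'))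
    have hvB : (w.1.1 : V) ≠ B := fun h' => w.2 (Subtype.ext h')
    have hvs : (w.1.1 : V) ≠ s1 := fun h' => hwa (Subtype.ext (Subtype.ext h'))
    have hn : ((τ2 w).1.1 : V) = τ w.1.1 := by
      rw [τ2O w hwa, τ1O w.1 hvB]
    change x ∈ segment ℝ (P w.1.1) (P (τ2 w).1.1) at hx
    rw [hn] at hx
    obtain ⟨g1, g2⟩ := ord _ hvA hvB w.1.2 hvs x hx
    have hge : H ≤ gx x := by
      obtain ⟨α, β, γ, hα, hβ, hγ, hs, e⟩ := mem_tri.1 ht
      rw [e]
      simp only [map_add, map_smul, smul_eq_mul]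
      rw [gPs1, gPA, gPs2]
      have : α = 1 - β - γ := by linarith
      rw [this]; nlinarith
    rcases g2 hge with ⟨e1, e2⟩ | ⟨e1, e2⟩
    · right
      exact ⟨Subtype.ext (Subtype.ext e1), e2⟩
    · left
      exact ⟨Subtype.ext (Subtype.ext (by rw [hn, e1])), e2⟩
  have E2 : Embedded τ2 (fun w => P w.1.1) := by
    apply unremove_emb A2 E3'
    · rw [τ2A]; intro h'; exact K.s2A (congrArg (fun w => (w.1.1 : V)) h')
    · rw [τ2A, hsymA2]; intro h'; exact K.s12.symm (congrArg (fun w => (w.1.1 : V)) h')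
    · intro r r' _ _ _ _ heq
      rw [hsymA2, τ2A] at heq
      change (1 - r) • P s1 + r • P A = (1 - r') • P A + r' • P s2 at heq
      rw [Ps1, Ps2, PA] at heq
      exact nc_sAs K.g1 K.g2 K.hη h r r' heq
    · exact F2
  have hac2 : P (τ2.symm A2).1.1 ≠ P (τ2 A2).1.1 := by
    rw [hsymA2, τ2A]; exact hs12
  have M2 := remove_move inferInstance E2 A2 hac2 F2
  -- stage 1
  have hsymB1 : τ1.symm B1 = a1 := (Equiv.symm_apply_eq τ1).2 τ1a.symm
  have F1 : TriFree τ1 (fun w => P w.1) B1 := by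
    intro w hw1 hw2 x hx ht
    rw [hsymB1, τ1B] at ht ⊢
    change x ∈ convexHull ℝ {P s1, P B, P A} at ht
    have hwa : w ≠ a1 := fun h' => hw2 (by rw [h', τ1a])
    have hvB : (w.1 : V) ≠ B := fun h' => hw1 (Subtype.ext h')
    have hvs : (w.1 : V) ≠ s1 := fun h' => hwa (Subtype.ext h')
    have hn : ((τ1 w).1 : V) = τ w.1 := τ1O w hvB
    change x ∈ segment ℝ (P w.1) (P (τ1 w).1) at hx
    rw [hn] at hx
    by_cases hvA : (w.1 : V) = A
    · right
      rw [hvA, K.kA, PA, Ps2] at hx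
      rw [Ps1, PB, PA] at ht
      have := tri_sBA K.g1 K.g2 K.hη h hh x hx ht
      refine ⟨Subtype.ext hvA, ?_⟩
      change x = P A
      rw [PA]; exact this
    · obtain ⟨g1, g2⟩ := ord _ hvA hvB w.2 hvs x hx
      obtain ⟨α, β, γ, hα, hβ, hγ, hs, e⟩ := mem_tri.1 ht
      have hgx : gx x = H + β + γ := by
        rw [e]
        simp only [map_add, map_smul, smul_eq_mul]
        rw [gPs1, gPA, gPB]
        have : α = 1 - β - γ := by linarith
        rw [this]; ring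
      have hβ0 : β = 0 := by linarith
      have hγ0 : γ = 0 := by linarith
      have hxs : x = P s1 := by
        rw [e, hβ0, hγ0, show α = 1 by linarith]; simp
      rcases g2 (by rw [hgx]; linarith) with ⟨e1, e2⟩ | ⟨e1, e2⟩
      · exfalso; exact hs12 (hxs.symm.trans e2)
      · left
        exact ⟨Subtype.ext (by rw [hn, e1]), e2⟩
  have E1 : Embedded τ1 (fun w => P w.1) := by
    apply unremove_emb B1 E2
    · rw [τ1B]; exact hA1B1
    · rw [τ1B, hsymB1]; intro h'; exact K.s1A.symm (congrArg (fun w => (w.1 : V)) h')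
    · intro r r' _ _ _ _ heq
      rw [hsymB1, τ1B] at heq
      change (1 - r) • P s1 + r • P B = (1 - r') • P B + r' • P A at heq
      rw [Ps1, PB, PA] at heq
      exact nc_sBA K.g1 K.g2 K.hη h hh r r' heq
    · exact F1
  have hac1 : P (τ1.symm B1).1 ≠ P (τ1 B1).1 := by
    rw [hsymB1, τ1B]
    intro h'
    have : gx (P s1) = gx (P A) := congrArg gx h'
    rw [gPs1, gPA] at this; linarith
  have M1 := remove_move inferInstance E1 B1 hac1 F1
  -- stage 0
  have hsymC : τ.symm C = B := (Equiv.symm_apply_eq τ).2 K.kB.symm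
  have F0 : TriFree τ P C := by
    intro w hw1 hw2 x hx ht
    rw [hsymC, K.kC] at ht ⊢
    have hvB : w ≠ B := fun h' => hw2 (by rw [h', K.kB])
    have hge : H + 1 ≤ gx x := by
      obtain ⟨α, β, γ, hα, hβ, hγ, hs, e⟩ := mem_tri.1 ht
      rw [e]
      simp only [map_add, map_smul, smul_eq_mul]
      rw [gPB, gPC, gPA]
      have : α = 1 - β - γ := by linarith
      rw [this]; nlinarith
    by_cases hvA : w = A
    · right
      refine ⟨hvA, ?_⟩
      rw [hvA, K.kA] at hx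
      obtain ⟨r, r0, r1, e⟩ := mem_seg.1 hx
      have : gx x = H + 1 - r := by
        rw [e]; simp only [map_add, map_smul, smul_eq_mul]; rw [gPA, gPs2]; ring
      have hr : r = 0 := by linarith
      rw [e, hr]; simp
    · by_cases hvs : w = s1
      · left
        rw [hvs, K.ks1] at hx
        refine ⟨by rw [hvs]; exact K.ks1, ?_⟩
        obtain ⟨r, r0, r1, e⟩ := mem_seg.1 hx
        have : gx x = H + r := by
          rw [e]; simp only [map_add, map_smul, smul_eq_mul]; rw [gPB, gPs1]; ring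
        have hr : r = 1 := by linarith
        rw [e, hr]; simp
      · exfalso
        have := (ord w hvA hvB hw1 hvs x hx).1
        linarith
  have E0 : Embedded τ P := by
    apply unremove_emb C E1
    · rw [K.kC]; exact K.nCA.symm
    · rw [K.kC, hsymC]; exact K.nAB
    · intro r r' _ _ _ _ heq
      rw [hsymC, K.kC, PB, PC, PA] at heq
      exact nc_BCA K.g1 K.g2 K.hη h r r' heq
    · exact F0
  have hac0 : P (τ.symm C) ≠ P (τ C) := by
    rw [hsymC, K.kC, PB, PA]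
    intro h'
    rw [sB_eq, sA_eq] at h'
    have := (comb_inj' K.g1 K.g2 K.hη _ _ _ _ _ _ h').1
    norm_num at this
  have M0 := remove_move hV E0 C hac0 F0
  refine ⟨E0, ?_⟩
  refine Relation.EqvGen.trans _ _ _ (Relation.EqvGen.rel _ _ M0) ?_
  refine Relation.EqvGen.trans _ _ _ (Relation.EqvGen.rel _ _ M1) ?_
  refine Relation.EqvGen.trans _ _ _ (Relation.EqvGen.rel _ _ M2) ?_
  have conv : ∀ (R : {w : {v : {v : V // v ≠ C} // v ≠ B1} // w ≠ A2} → Sp) (e : Embedded τ3 R),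
      R = (fun w => Q w.1.1.1) →
      Isotopic ⟨_, inferInstance, τ3, R, e⟩ ⟨_, inferInstance, τ3, fun w => Q w.1.1.1, E3⟩ := by
    rintro R e rfl
    exact Relation.EqvGen.refl _
  exact conv _ _ hP3

end Pool.Agent.V11208.PL
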