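import Pool.Agent.V11208.PL.Kink2

/-! The kink, end: the vanishing of the Conway polynomial. -/

namespace Pool.Agent.V11208.PL
open Pool.Agent.V11208.UB

theorem iso_nabla {nabla : PLink → Polynomial ℤ} (hN : IsConway nabla) {L L' : PLink}
    (h : Isotopic L L') : nabla L = nabla L' := by
  induction h with
  | rel x y hxy => exact hN.iso x y hxy
  | refl x => rfl
  | symm x y _ ih => exact ih.symm
  | trans x y z _ _ ih1 ih2 => exact ih1.trans ih2

variable {V : Type} [DecidableEq V] {σ : Equiv.Perm V} {Q : V → Sp} {A B C s1 s2 : V} {H : ℝ}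

theorem posK_fst (h h' : ℝ) (w : V) :
    (posK Q A B C s1 s2 h w).1 = (posK Q A B C s1 s2 h' w).1 := by
  unfold posK upd3 sA sB
  split_ifs <;> simp

/-- the coordinates in the plane -/
theorem plane_eq (K : Kd σ Q A B C s1 s2 H) (a b a' b' : ℝ)
    (h : (Q s1).1 + (a • ((Q s2).1 - (Q s1).1) + b • ((1, 0) : Pt)) =
      (Q s1).1 + (a' • ((Q s2).1 - (Q s1).1) + b' • ((1, 0) : Pt))) : a = a' ∧ b = b' := by
  have h0 := add_left_cancel h
  have e1 := congrArg Prod.fst h0
  have e2 := congrArg Prod.snd h0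
  have g1 : (Q s1).1.1 = H := K.g1
  have g2 : (Q s2).1.1 = H := K.g2
  simp [g1, g2] at e1 e2
  have : (Q s2).1.2 - (Q s1).1.2 ≠ 0 := sub_ne_zero.2 K.hη.symm
  exact ⟨e2.resolve_right this, e1⟩

theorem kd_zero_std {nabla : PLink → Polynomial ℤ} (hN : IsConway nabla)
    (K : Kd σ Q A B C s1 s2 H) (hV : Finite V) (h0 : ℝ) (hh0 : h0 = (Q s2).1.2 - (Q s1).1.2)
    (e0 : Embedded σ (posK Q A B C s1 s2 h0)) :
    nabla ⟨V, hV, σ, posK Q A B C s1 s2 h0, e0⟩ = 0 := by
  obtain ⟨L'', hL⟩ := kd_main K hV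
  have hη0 : h0 ≠ 0 := by rw [hh0]; exact sub_ne_zero.2 K.hη.symm
  obtain ⟨ep, ip⟩ := hL h0 hη0
  obtain ⟨em, im⟩ := hL (-h0) (neg_ne_zero.2 hη0)
  have hτ : kperm σ s1 A * Equiv.swap s1 A = σ := by
    rw [kperm, mul_assoc, Equiv.swap_mul_self, mul_one]
  have e0' : Embedded (kperm σ s1 A * Equiv.swap s1 A) (posK Q A B C s1 s2 h0) := by
    rw [hτ]; exact e0
  set p : V → Pt := fun w => (posK Q A B C s1 s2 h0 w).1 with hp
  set zp : V → ℝ := fun w => (posK Q A B C s1 s2 h0 w).2 with hzp
  set zm : V → ℝ := fun w => (posK Q A B C s1 s2 (-h0) w).2 with hzm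
  have hPp : (fun w => (p w, zp w)) = posK Q A B C s1 s2 h0 := by funext w; rfl
  have hPm : (fun w => (p w, zm w)) = posK Q A B C s1 s2 (-h0) := by
    funext w
    apply Prod.ext
    · exact posK_fst h0 (-h0) w
    · rfl
  have ep' : Embedded (kperm σ s1 A) (fun w => (p w, zp w)) := by rw [hPp]; exact ep
  have em' : Embedded (kperm σ s1 A) (fun w => (p w, zm w)) := by rw [hPm]; exact em
  have e0'' : Embedded (kperm σ s1 A * Equiv.swap s1 A) (fun w => (p w, zp w)) := by
    rw [hPp]; exact e0'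
  have g1 : (Q s1).1.1 = H := K.g1
  have g2 : (Q s2).1.1 = H := K.g2
  -- values
  have vs1 : p s1 = (Q s1).1 := by simp only [hp]; rw [Kd.pO h0 K.s1A K.s1B K.s1C]
  have vs2 : p s2 = (Q s2).1 := by simp only [hp]; rw [Kd.pO h0 K.s2A K.s2B K.s2C]
  have vA : p A = (Q s1).1 + ((2/5 : ℝ) • ((Q s2).1 - (Q s1).1) + (1:ℝ) • ((1, 0) : Pt)) := by
    simp only [hp]; rw [K.pA, sA]; simp [add_assoc]
  have vB : p B = (Q s1).1 + ((3/5 : ℝ) • ((Q s2).1 - (Q s1).1) + (1:ℝ) • ((1, 0) : Pt)) := by
    simp only [hp]; rw [K.pB, sB]; simp [add_assoc]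
  have vC : p C = (Q s1).1 + ((1/2 : ℝ) • ((Q s2).1 - (Q s1).1) + (2:ℝ) • ((1, 0) : Pt)) := by
    simp only [hp]; rw [K.pC, sC]; simp [add_assoc]
  have zs1 : ∀ h, (posK Q A B C s1 s2 h s1).2 = (Q s1).2 := by
    intro h; rw [Kd.pO h K.s1A K.s1B K.s1C]
  have zs2 : ∀ h, (posK Q A B C s1 s2 h s2).2 = (Q s2).2 := by
    intro h; rw [Kd.pO h K.s2A K.s2B K.s2C]
  have zA : ∀ h, (posK Q A B C s1 s2 h A).2 = (Q s1).2 + (2/5) * ((Q s2).2 - (Q s1).2) - h := by
    intro h; rw [K.pA, sA]; simp; ring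
  have zB : ∀ h, (posK Q A B C s1 s2 h B).2 = (Q s1).2 + (3/5) * ((Q s2).2 - (Q s1).2) + h := by
    intro h; rw [K.pB, sB]; simp
  have zC : ∀ h, (posK Q A B C s1 s2 h C).2 = (Q s1).2 + (1/2) * ((Q s2).2 - (Q s1).2) := by
    intro h; rw [K.pC, sC]; simp
  have fA : (p A).1 = H + 1 := by rw [vA]; simp [g1, g2]
  have fB : (p B).1 = H + 1 := by rw [vB]; simp [g1, g2]
  have fC : (p C).1 = H + 2 := by rw [vC]; simp [g1, g2]
  have fs1 : (p s1).1 = H := by rw [vs1]; exact g1
  have fs2 : (p s2).1 = H := by rw [vs2]; exact g2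
  -- ordinary edges
  have ord : ∀ w : V, w ≠ A → w ≠ B → w ≠ C → w ≠ s1 → ∀ x ∈ segment ℝ (p w) (p (kperm σ s1 A w)),
      x.1 ≤ H ∧ (H ≤ x.1 → (w = s2 ∧ x = p s2) ∨ (kperm σ s1 A w = s1 ∧ x = p s1)) := by
    intro w h1 h2 h3 h4 x hx
    have e1 : kperm σ s1 A w = σ w := Kd.kO h1 h4
    obtain ⟨k1, k2, k3⟩ := K.cl h1 h2 h3
    have q1 : p w = (Q w).1 := by simp only [hp]; rw [Kd.pO h0 h1 h2 h3]
    have q2 : p (σ w) = (Q (σ w)).1 := by simp only [hp]; rw [Kd.pO h0 k1 k2 k3]
    rw [e1, q1, q2] at hx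
    obtain ⟨r, r0, r1, e⟩ := mem_seg.1 hx
    have hy : (1 - r) • Q w + r • Q (σ w) ∈ segment ℝ (Q w) (Q (σ w)) :=
      mem_seg.2 ⟨r, r0, r1, rfl⟩
    have hyx : ((1 - r) • Q w + r • Q (σ w)).1 = x := by rw [e]; simp
    obtain ⟨o1, o2⟩ := K.off h1 h2 h3 h4 hy
    rw [gx_apply, hyx] at o1 o2
    refine ⟨o1, fun hH => ?_⟩
    rw [e1, vs1, vs2]
    rcases o2 hH with ⟨w1, w2⟩ | ⟨w1, w2⟩
    · left; refine ⟨w1, ?_⟩; rw [← hyx, w2]
    · right; refine ⟨w1, ?_⟩; rw [← hyx, w2]
  have hull : ∀ x ∈ convexHull ℝ {p s1, p B, p A, p s2}, H ≤ x.1 ∧ x.1 ≤ H + 1 := by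
    have hcv : convexHull ℝ {p s1, p B, p A, p s2} ⊆ {x : Pt | H ≤ x.1 ∧ x.1 ≤ H + 1} := by
      apply convexHull_min
      · rintro x (rfl | rfl | rfl | rfl)
        · rw [Set.mem_setOf_eq, fs1]; constructor <;> linarith
        · rw [Set.mem_setOf_eq, fB]; constructor <;> linarith
        · rw [Set.mem_setOf_eq, fA]; constructor <;> linarith
        · rw [Set.mem_setOf_eq, fs2]; constructor <;> linarith
      · intro x hx y hy a b ha hb hab
        obtain ⟨x1, x2⟩ := hx
        obtain ⟨y1, y2⟩ := hy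
        have hb' : b = 1 - a := by linarith
        subst hb'
        constructor
        · simp only [Prod.fst_add, Prod.smul_fst, smul_eq_mul]; nlinarith
        · simp only [Prod.fst_add, Prod.smul_fst, smul_eq_mul]; nlinarith
    exact fun x hx => hcv hx
  have hsk : SkeinTriple ⟨V, hV, kperm σ s1 A, fun w => (p w, zp w), ep'⟩
      ⟨V, hV, kperm σ s1 A, fun w => (p w, zm w), em'⟩
      ⟨V, hV, kperm σ s1 A * Equiv.swap s1 A, fun w => (p w, zp w), e0''⟩ := by
    have key : ∀ h : ℝ, cross (p B - p s1) (p s2 - p A) *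
        (((1 - (5/6 : ℝ)) * (posK Q A B C s1 s2 h s1).2 + (5/6 : ℝ) * (posK Q A B C s1 s2 h B).2) -
        ((1 - (1/6 : ℝ)) * (posK Q A B C s1 s2 h A).2 +
          (1/6 : ℝ) * (posK Q A B C s1 s2 h s2).2)) = 2 * (h0 * h) := by
      intro h
      rw [zs1, zs2, zA, zB, vs1, vs2, vA, vB, hh0, cross]
      simp [g1, g2]
      ring
    refine SkeinTriple.mk V hV inferInstance (kperm σ s1 A) p zp zm zp s1 A K.s1A ep' em' e0''
      (5/6) (1/6) (by norm_num) (by norm_num) (by norm_num) (by norm_num) ?_ ?_ ?_ ?_ ?_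
    · rw [K.ks1, K.kA, vs1, vs2, vA, vB]
      ext <;> simp <;> ring
    · rw [K.ks1, K.kA]
      have := key h0
      simp only [hzp]
      rw [this]
      have : 0 < h0 * h0 := mul_self_pos.2 hη0
      linarith
    · rw [K.ks1, K.kA]
      have := key (-h0)
      simp only [hzm]
      rw [this]
      have : 0 < h0 * h0 := mul_self_pos.2 hη0
      linarith
    · intro w w1 w2 x hx hc
      rw [K.ks1, K.kA] at hc ⊢
      obtain ⟨b1, b2⟩ := hull x hc
      by_cases hB : w = B
      · refine ⟨B, Or.inr (Or.inl rfl), Or.inl hB.symm, ?_⟩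
        rw [hB, K.kB] at hx
        obtain ⟨r, r0, r1, e⟩ := mem_seg.1 hx
        have : x.1 = H + 1 + r := by
          rw [e]; simp only [Prod.fst_add, Prod.smul_fst, smul_eq_mul]; rw [fB, fC]; ring
        have hr : r = 0 := by linarith
        rw [e, hr]; simp
      · by_cases hC : w = C
        · refine ⟨A, Or.inr (Or.inr (Or.inl rfl)), Or.inr (by rw [hC]; exact K.kC.symm), ?_⟩
          rw [hC, K.kC] at hx
          obtain ⟨r, r0, r1, e⟩ := mem_seg.1 hx
          have : x.1 = H + 2 - r := by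
            rw [e]; simp only [Prod.fst_add, Prod.smul_fst, smul_eq_mul]; rw [fA, fC]; ring
          have hr : r = 1 := by linarith
          rw [e, hr]; simp
        · rcases (ord w w2 hB hC w1 x hx).2 b1 with ⟨k1, k2⟩ | ⟨k1, k2⟩
          · exact ⟨s2, Or.inr (Or.inr (Or.inr rfl)), Or.inl k1.symm, k2⟩
          · exact ⟨s1, Or.inl rfl, Or.inr k1.symm, k2⟩
    · intro v w hv1 hv2 hw1 hw2 α β α0 α1 β0 β1 heq
      refine ⟨?_, Iff.rfl⟩
      -- same heights for ordinary edges
      have same : ∀ v, v ≠ s1 → v ≠ A → v ≠ B → v ≠ C →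
          zm v = zp v ∧ zm (kperm σ s1 A v) = zp (kperm σ s1 A v) := by
        intro v h1 h2 h3 h4
        obtain ⟨k1, k2, k3⟩ := K.cl h2 h3 h4
        constructor
        · simp only [hzm, hzp]; rw [Kd.pO _ h2 h3 h4, Kd.pO _ h2 h3 h4]
        · rw [Kd.kO h2 h1]
          simp only [hzm, hzp]; rw [Kd.pO _ k1 k2 k3, Kd.pO _ k1 k2 k3]
      have fB1 : ∀ r : ℝ, ((1 - r) • p B + r • p C).1 = H + 1 + r := by
        intro r; simp only [Prod.fst_add, Prod.smul_fst, smul_eq_mul]; rw [fB, fC]; ring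
      have fC1 : ∀ r : ℝ, ((1 - r) • p C + r • p A).1 = H + 2 - r := by
        intro r; simp only [Prod.fst_add, Prod.smul_fst, smul_eq_mul]; rw [fA, fC]; ring
      by_cases hv3 : v = B
      · by_cases hw3 : w = B
        · subst hv3; subst hw3
          rw [K.kB] at heq
          have e1 := congrArg Prod.fst heq
          rw [fB1, fB1] at e1
          have : α = β := by linarith
          subst this
          simp
        · by_cases hw4 : w = C
          · subst hv3; subst hw4
            rw [K.kB, K.kC] at heq ⊢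
            have e1 := congrArg Prod.fst heq
            rw [fB1, fC1] at e1
            have e2 : (1 - α) • p v + α • p w = (Q s1).1 +
                (((1 - α) * (3/5) + α * (1/2)) • ((Q s2).1 - (Q s1).1) +
                  (1 + α) • ((1, 0) : Pt)) := by
              rw [vB, vC]; ext <;> simp <;> ring
            have e3 : (1 - β) • p w + β • p A = (Q s1).1 +
                (((1 - β) * (1/2) + β * (2/5)) • ((Q s2).1 - (Q s1).1) +
                  (2 - β) • ((1, 0) : Pt)) := by
              rw [vA, vC]; ext <;> simp <;> ring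
            rw [e2, e3] at heq
            obtain ⟨q1, q2⟩ := plane_eq K _ _ _ _ heq
            have hα : α = 1 := by linarith
            have hβ : β = 0 := by linarith
            subst hα; subst hβ
            simp
          · exfalso
            rw [hv3, K.kB] at heq
            have e1 := congrArg Prod.fst heq
            rw [fB1] at e1
            have := (ord w hw2 hw3 hw4 hw1 _ (mem_seg.2 ⟨β, β0, β1, rfl⟩)).1
            linarith
      · by_cases hv4 : v = C
        · by_cases hw3 : w = B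
          · subst hv4; subst hw3
            rw [K.kB, K.kC] at heq ⊢
            have e1 := congrArg Prod.fst heq
            rw [fB1, fC1] at e1
            have e2 : (1 - β) • p w + β • p v = (Q s1).1 +
                (((1 - β) * (3/5) + β * (1/2)) • ((Q s2).1 - (Q s1).1) +
                  (1 + β) • ((1, 0) : Pt)) := by
              rw [vB, vC]; ext <;> simp <;> ring
            have e3 : (1 - α) • p v + α • p A = (Q s1).1 +
                (((1 - α) * (1/2) + α * (2/5)) • ((Q s2).1 - (Q s1).1) +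
                  (2 - α) • ((1, 0) : Pt)) := by
              rw [vA, vC]; ext <;> simp <;> ring
            rw [e2, e3] at heq
            obtain ⟨q1, q2⟩ := plane_eq K _ _ _ _ heq
            have hα : α = 0 := by linarith
            have hβ : β = 1 := by linarith
            subst hα; subst hβ
            simp
          · by_cases hw4 : w = C
            · subst hv4; subst hw4
              rw [K.kC] at heq
              have e1 := congrArg Prod.fst heq
              rw [fC1, fC1] at e1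
              have : α = β := by linarith
              subst this
              simp
            · exfalso
              rw [hv4, K.kC] at heq
              have e1 := congrArg Prod.fst heq
              rw [fC1] at e1
              have := (ord w hw2 hw3 hw4 hw1 _ (mem_seg.2 ⟨β, β0, β1, rfl⟩)).1
              linarith
        · by_cases hw3 : w = B
          · exfalso
            rw [hw3, K.kB] at heq
            have e1 := congrArg Prod.fst heq
            rw [fB1] at e1
            have := (ord v hv2 hv3 hv4 hv1 _ (mem_seg.2 ⟨α, α0, α1, rfl⟩)).1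
            linarith
          · by_cases hw4 : w = C
            · exfalso
              rw [hw4, K.kC] at heq
              have e1 := congrArg Prod.fst heq
              rw [fC1] at e1
              have := (ord v hv2 hv3 hv4 hv1 _ (mem_seg.2 ⟨α, α0, α1, rfl⟩)).1
              linarith
            · obtain ⟨a1, a2⟩ := same v hv1 hv2 hv3 hv4
              obtain ⟨b1, b2⟩ := same w hw1 hw2 hw3 hw4
              rw [a1, a2, b1, b2]
  have hrel := hN.skein _ _ _ hsk
  have c1 : nabla ⟨V, hV, kperm σ s1 A, fun w => (p w, zp w), ep'⟩ = nabla L'' := by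
    have conv : ∀ (R : V → Sp) (e : Embedded (kperm σ s1 A) R), R = posK Q A B C s1 s2 h0 →
        nabla ⟨V, hV, kperm σ s1 A, R, e⟩ = nabla L'' := by
      rintro R e rfl
      exact iso_nabla hN ip
    exact conv _ _ hPp
  have c2 : nabla ⟨V, hV, kperm σ s1 A, fun w => (p w, zm w), em'⟩ = nabla L'' := by
    have conv : ∀ (R : V → Sp) (e : Embedded (kperm σ s1 A) R), R = posK Q A B C s1 s2 (-h0) →
        nabla ⟨V, hV, kperm σ s1 A, R, e⟩ = nabla L'' := by
      rintro R e rfl
      exact iso_nabla hN im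
    exact conv _ _ hPm
  have c3 : nabla ⟨V, hV, kperm σ s1 A * Equiv.swap s1 A, fun w => (p w, zp w), e0''⟩ =
      nabla ⟨V, hV, σ, posK Q A B C s1 s2 h0, e0⟩ := by
    have conv : ∀ (τ : Equiv.Perm V) (R : V → Sp) (e : Embedded τ R), τ = σ →
        R = posK Q A B C s1 s2 h0 →
        nabla ⟨V, hV, τ, R, e⟩ = nabla ⟨V, hV, σ, posK Q A B C s1 s2 h0, e0⟩ := by
      rintro τ R e rfl rfl
      rfl
    exact conv _ _ _ hτ hPp
  rw [c1, c2, c3, sub_self] at hrel
  exact (mul_eq_zero.1 hrel.symm).resolve_left Polynomial.X_ne_zero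

end Pool.Agent.V11208.PL
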