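import Pool.Agent.V11208.PL.Bdry

/-! The bound for the coefficients of the Conway polynomial. -/

namespace Pool.Agent.V11208.PL
open Pool.Agent.V11208.UB

variable {V C : Type} {σ : Equiv.Perm V} {p : V → Pt} {o u : C → V} {s t : C → ℝ}

theorem frame_bound [Fintype C] {nabla : PLink → Polynomial ℤ} (hN : IsConway nabla)
    (F : Frame σ p o u s t) (hV : Finite V) (hC : 0 < Fintype.card C) (k : ℕ)
    (hpar : Odd (Fintype.card C + k)) :
    |(nab nabla F hV ∅ (fun _ => true)).coeff k| ≤
      (((Fintype.card C - 1 + k) / 2).choose k : ℕ) := by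
  classical
  obtain ⟨c0⟩ : Nonempty C := Fintype.card_pos_iff.1 hC
  set b := σ (σ (o c0)) with hb
  have hb' : ∀ i, σ (o i) ≠ b ∧ σ (u i) ≠ b := by
    intro i
    constructor
    · intro h
      exact (F.onext c0 i).1 (σ.injective h).symm
    · intro h
      exact (F.onext c0 i).2 (σ.injective h).symm
  set e : C → ℤ := fun c => if 0 < chi σ p o u c then 1 else -1 with he
  have he1 : ∀ c, |e c| = 1 := by
    intro c
    simp only [he]
    split_ifs <;> simp
  have hsk : ∀ S c ω, c ∉ S → nab nabla F hV S (Function.update ω c true) -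
      nab nabla F hV S (Function.update ω c false) =
      Polynomial.C (e c) * Polynomial.X * nab nabla F hV (insert c S) ω :=
    fun S c ω hc => nab_skein hN F hV S c ω hc
  have hinv : ∀ S c ω v, c ∈ S → nab nabla F hV S (Function.update ω c v) =
      nab nabla F hV S ω := fun S c ω v hc => nab_inv hN F hV S c ω v hc
  -- descending
  have bd1 : ∀ S ω, Good σ o u o u b S ω →
      (OneCycle (σ * tau o u S) b → nab nabla F hV S ω = 1) ∧
      (¬ OneCycle (σ * tau o u S) b → nab nabla F hV S ω = 0) := by
    intro S ω hg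
    apply boundary hN F hV S ω b hb' 1 (by norm_num)
    intro i hi
    constructor
    · intro h; rw [(hg i hi).1 h]; simp [sgn]
    · intro h; rw [(hg i hi).2 h]; simp [sgn]
  have bd2 : ∀ S ω, Good σ o u u o b S ω →
      (OneCycle (σ * tau o u S) b → nab nabla F hV S ω = 1) ∧
      (¬ OneCycle (σ * tau o u S) b → nab nabla F hV S ω = 0) := by
    intro S ω hg
    apply boundary hN F hV S ω b hb' (-1) (by norm_num)
    intro i hi
    constructor
    · intro h; rw [(hg i hi).2 h]; simp [sgn]
    · intro h; rw [(hg i hi).1 h]; simp [sgn]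
  have r1 := resolution σ F.distinct (x := o) (y := u) (fun c => Or.inl ⟨rfl, rfl⟩) b e
    (nab nabla F hV) hsk hinv (fun S ω hg => (bd1 S ω hg).1) (fun S ω hg => (bd1 S ω hg).2)
    ∅ (fun _ => true)
  have r2 := resolution σ F.distinct (x := u) (y := o) (fun c => Or.inr ⟨rfl, rfl⟩) b e
    (nab nabla F hV) hsk hinv (fun S ω hg => (bd2 S ω hg).1) (fun S ω hg => (bd2 S ω hg).2)
    ∅ (fun _ => true)
  have b1 : |(nab nabla F hV ∅ (fun _ => true)).coeff k| ≤ (statesU σ o u b k).card := by
    rw [r1]
    apply coeff_bound σ F.distinct (fun c => Or.inl ⟨rfl, rfl⟩) b e he1 k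
    intro T h1 h2 h3
    unfold statesU
    rw [Finset.mem_filter]
    exact ⟨Finset.mem_univ _, h1, h2, h3⟩
  have b2 : |(nab nabla F hV ∅ (fun _ => true)).coeff k| ≤ (statesO σ o u b k).card := by
    rw [r2]
    apply coeff_bound σ F.distinct (fun c => Or.inr ⟨rfl, rfl⟩) b e he1 k
    intro T h1 h2 h3
    unfold statesO
    rw [Finset.mem_filter]
    exact ⟨Finset.mem_univ _, h1, h2, h3⟩
  by_cases hk : k ≤ Fintype.card C
  · have hpar' : Odd (Fintype.card C - k) := by
      rw [Nat.odd_sub hk]
      rw [Nat.odd_add] at hpar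
      exact hpar
    have hgb := gauss_bound σ o u F.distinct b k hk hpar'
    have hidx : Fintype.card C + k - 1 = Fintype.card C - 1 + k := by omega
    rw [hidx] at hgb
    have : ((statesO σ o u b k).card : ℤ) + (statesU σ o u b k).card ≤
        2 * (((Fintype.card C - 1 + k) / 2).choose k : ℕ) := by exact_mod_cast hgb
    linarith
  · have hz : (statesU σ o u b k).card = 0 := by
      rw [Finset.card_eq_zero, Finset.eq_empty_iff_forall_notMem]
      intro T hT
      unfold statesU at hT
      rw [Finset.mem_filter] at hT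
      have := Finset.card_le_univ T
      omega
    rw [hz] at b1
    calc _ ≤ _ := b1
      _ ≤ _ := by positivity

/-- for a link with a regular diagram with `n` crossings -/
theorem diagram_bound {nabla : PLink → Polynomial ℤ} (hN : IsConway nabla) (L : PLink) {C : Type}
    [Fintype C] (o u : C → L.V) (hD : RegularDiagram L o u) (hC : 0 < Fintype.card C) (k : ℕ)
    (hpar : Odd (Fintype.card C + k)) :
    |(nabla L).coeff k| ≤ (((Fintype.card C - 1 + k) / 2).choose k : ℕ) := by
  classical
  obtain ⟨V, hV, σ, P, hP⟩ := L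
  choose s t s0 s1 t0 t1 hmeet hcr hlt using hD.crossing
  have F : Frame σ (fun v => (P v).1) o u s t :=
    { oo := hD.oo, uu := hD.uu, ou := hD.ou, onext := hD.onext, unext := hD.unext,
      s0 := s0, s1 := s1, t0 := t0, t1 := t1, meet := hmeet, cr := hcr,
      box := hD.box, boxes := hD.boxes, nondeg := hD.nondeg, others := hD.others }
  have hb := frame_bound hN F hV hC k hpar
  have key : nabla ⟨V, hV, σ, P, hP⟩ = nab nabla F hV ∅ (fun _ => true) := by
    have hτ : σ = σ * tau o u (∅ : Finset C) := by rw [tau_empty F.distinct, mul_one]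
    have hconv : ∀ (τ : Equiv.Perm V) (hτ : σ = τ) (e : Embedded τ (fun v => ((P v).1, (P v).2))),
        nabla ⟨V, hV, σ, P, hP⟩ = nabla ⟨V, hV, τ, fun v => ((P v).1, (P v).2), e⟩ := by
      rintro τ rfl e
      rfl
    have e : Embedded (σ * tau o u (∅ : Finset C)) (fun v => ((P v).1, (P v).2)) := by
      rw [← hτ]; exact hP
    rw [hconv _ hτ e]
    apply hN.iso
    apply F.move hV ∅
    intro i _
    rw [F.hd_hgt]
    have h1 : 0 < hd σ o u s t (fun v => (P v).2) i := sub_pos.2 (hlt i)
    simp only [sgn]
    norm_num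
    exact h1
  rw [key]
  exact hb

/-- **Theorem.** Among the links with crossing number `n`, the coefficients of the Conway
polynomial are bounded by those of the `(2, n)`-torus link. -/
theorem conway_bound {nabla : PLink → Polynomial ℤ} (hN : IsConway nabla) (L : PLink) (n k : ℕ)
    (hn : 2 ≤ n) (hpar : Odd (n + k)) (hc : crossingNumber L = n) :
    |(nabla L).coeff k| ≤ (((n - 1 + k) / 2).choose k : ℕ) := by
  have hne : {n | ∃ (L' : PLink) (C : Type) (_ : Fintype C) (o u : C → L'.V),
    Isotopic L L' ∧ RegularDiagram L' o u ∧ Fintype.card C = n}.Nonempty := by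
    apply Nat.nonempty_of_pos_sInf
    have : crossingNumber L = sInf {n | ∃ (L' : PLink) (C : Type) (_ : Fintype C) (o u : C → L'.V),
      Isotopic L L' ∧ RegularDiagram L' o u ∧ Fintype.card C = n} := rfl
    rw [← this, hc]; omega
  have hmem := Nat.sInf_mem hne
  change crossingNumber L ∈ _ at hmem
  rw [hc] at hmem
  obtain ⟨L', C, hF, o, u, hiso, hD, hcard⟩ := hmem
  rw [iso_nabla hN hiso]
  have := diagram_bound hN L' o u hD (by rw [hcard]; omega) k (by rw [hcard]; exact hpar)
  rw [hcard] at this
  exact this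

end Pool.Agent.V11208.PL
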