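import Pool.Agent.V11208.PL.Remove

/-! Elimination of the vertices of a monotone component lying above everything else. -/

namespace Pool.Agent.V11208.PL
open Pool.Agent.V11208.UB

theorem reach_of_step {V : Type} [Finite V] {σ : Equiv.Perm V} {b w : V}
    (h : Reach σ b (σ w)) : Reach σ b w := by
  obtain ⟨i, hi⟩ := h
  rcases i with _ | i
  · have hpos := orderOf_pos σ
    refine ⟨orderOf σ - 1, ?_⟩
    apply σ.injective
    rw [← Equiv.Perm.mul_apply, ← pow_succ', Nat.sub_add_cancel hpos, pow_orderOf_eq_one]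
    simpa using hi
  · refine ⟨i, ?_⟩
    rw [pow_succ', Equiv.Perm.mul_apply] at hi
    exact σ.injective hi

theorem reach_step_iff {V : Type} [Finite V] {σ : Equiv.Perm V} {b w : V} :
    Reach σ b (σ w) ↔ Reach σ b w := ⟨reach_of_step, Reach.step⟩

/-- the cycle of `b` is monotone for `f` and lies above everything else -/
structure Mono {V : Type} (σ : Equiv.Perm V) (P : V → Sp) (b : V) (f : Sp →ₗ[ℝ] ℝ) : Prop where
  dec : ∀ v, Reach σ b v → σ v ≠ b → f (P (σ v)) < f (P v)
  above : ∀ v w, Reach σ b v → ¬ Reach σ b w → f (P w) < f (P v)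

theorem Mono.lt {V : Type} {σ : Equiv.Perm V} {P : V → Sp} {b : V} {f : Sp →ₗ[ℝ] ℝ}
    (hm : Mono σ P b f) {v w : V} (hv : Reach σ b v) (hw : Reach σ b w)
    (h : tm σ b v < tm σ b w) : f (P w) < f (P v) := by
  have key : ∀ w, Reach σ b w → ∀ v, Reach σ b v → tm σ b v < tm σ b w → f (P w) < f (P v) := by
    intro w hw
    refine orbit_induction (ρ := σ) (b := b)
      (P := fun w => ∀ v, Reach σ b v → tm σ b v < tm σ b w → f (P w) < f (P v)) ?_ ?_ w hw
    · intro v _ h
      rw [tm_base] at h; omega
    · intro w hw ih hb v hv h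
      rw [tm_step hw hb] at h
      have h1 := hm.dec w hw hb
      rcases Nat.lt_succ_iff_lt_or_eq.1 h with h | h
      · exact h1.trans (ih v hv h)
      · rw [tm_inj hv hw h]; exact h1
  exact key w hw v hv h

theorem emb_ne {V : Type} {σ : Equiv.Perm V} {P : V → Sp} (h : Embedded σ P) (b : V) :
    σ b ≠ b := by
  intro hb
  exact h.1 b (by rw [hb])

theorem emb_ne2 {V : Type} {σ : Equiv.Perm V} {P : V → Sp} (h : Embedded σ P) (b : V) :
    σ (σ b) ≠ b := by
  intro hb
  have hne := h.1 b
  have hx1 : ((1/2 : ℝ) • P b + (1/2 : ℝ) • P (σ b)) ∈ segment ℝ (P b) (P (σ b)) :=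
    ⟨1/2, 1/2, by norm_num, by norm_num, by norm_num, rfl⟩
  have hx2 : ((1/2 : ℝ) • P b + (1/2 : ℝ) • P (σ b)) ∈ segment ℝ (P (σ b)) (P (σ (σ b))) := by
    rw [hb, segment_symm]; exact hx1
  have hhalf : ∀ y : Sp, (1/2 : ℝ) • P b + (1/2 : ℝ) • P (σ b) = y →
      y = P b ∨ y = P (σ b) → False := by
    intro y hy h'
    rcases h' with h' | h'
    · apply hne
      have h3 : (1/2 : ℝ) • P (σ b) = (1/2 : ℝ) • P b := by
        have h4 : P b = (1/2 : ℝ) • P b + (1/2 : ℝ) • P b := by
          rw [← add_smul]; norm_num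
        rw [h'] at hy
        rw [h4] at hy
        have h5 : (1/2 : ℝ) • ((1/2 : ℝ) • P b + (1/2 : ℝ) • P b) = (1/2 : ℝ) • P b := by
          rw [← h4]
        rw [h5] at hy
        exact add_left_cancel hy
      exact (smul_right_injective Sp (by norm_num : (1/2 : ℝ) ≠ 0) h3).symm
    · apply hne
      have h3 : (1/2 : ℝ) • P b = (1/2 : ℝ) • P (σ b) := by
        have h4 : P (σ b) = (1/2 : ℝ) • P (σ b) + (1/2 : ℝ) • P (σ b) := by
          rw [← add_smul]; norm_num
        rw [h', h4] at hy
        have h5 : (1/2 : ℝ) • ((1/2 : ℝ) • P (σ b) + (1/2 : ℝ) • P (σ b)) = (1/2 : ℝ) • P (σ b) := by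
          rw [← h4]
        rw [h5] at hy
        exact add_right_cancel hy
      exact smul_right_injective Sp (by norm_num : (1/2 : ℝ) ≠ 0) h3
  rcases h.2 b (σ b) (emb_ne h b).symm _ hx1 hx2 with ⟨_, h2⟩ | ⟨_, h2⟩
  · exact hhalf _ rfl (Or.inr h2)
  · exact hhalf _ rfl (Or.inl h2)

theorem tri_free_of_mono {V : Type} [Finite V] {σ : Equiv.Perm V} {P : V → Sp} {b : V}
    {f : Sp →ₗ[ℝ] ℝ} (h : Embedded σ P) (hm : Mono σ P b f) (h3 : σ (σ (σ b)) ≠ b) :
    TriFree σ P (σ b) := by
  have h1 : σ b ≠ b := emb_ne h b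
  have h2 : σ (σ b) ≠ b := emb_ne2 h b
  have r0 : Reach σ b b := reach_base σ b
  have r1 : Reach σ b (σ b) := r0.step
  have r2 : Reach σ b (σ (σ b)) := r1.step
  have t1 : tm σ b (σ b) = 1 := by rw [tm_step r0 h1, tm_base]
  have t2 : tm σ b (σ (σ b)) = 2 := by rw [tm_step r1 h2, t1]
  have f01 : f (P (σ b)) < f (P b) := hm.dec b r0 h1
  have f12 : f (P (σ (σ b))) < f (P (σ b)) := hm.dec _ r1 h2
  intro w hw1 hw2 x hx ht
  rw [Equiv.symm_apply_apply] at ht ⊢
  have hwb : w ≠ b := fun h' => hw2 (by rw [h'])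
  obtain ⟨α, β, γ, hα, hβ, hγ, hs, hx'⟩ := mem_tri.1 ht
  have hfx : f x = α * f (P b) + β * f (P (σ b)) + γ * f (P (σ (σ b))) := by
    rw [hx']; simp
  have hfge : f (P (σ (σ b))) ≤ f x := by
    rw [hfx]
    have hγ' : γ = 1 - α - β := by linarith
    rw [hγ']
    nlinarith
  have hfeq : f x ≤ f (P (σ (σ b))) → x = P (σ (σ b)) := by
    intro hle
    rw [hfx] at hle
    have hγ' : γ = 1 - α - β := by linarith
    rw [hγ'] at hle
    have hα0 : α = 0 := by
      by_contra h0
      have : 0 < α := lt_of_le_of_ne hα (Ne.symm h0)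
      nlinarith [mul_nonneg hβ (sub_nonneg.2 f12.le), mul_pos this (sub_pos.2 (f12.trans f01))]
    have hβ0 : β = 0 := by
      by_contra h0
      have : 0 < β := lt_of_le_of_ne hβ (Ne.symm h0)
      rw [hα0] at hle
      nlinarith [mul_pos this (sub_pos.2 f12)]
    have hγ1 : γ = 1 := by rw [hα0, hβ0] at hs; linarith
    rw [hx', hα0, hβ0, hγ1]; simp
  obtain ⟨s, hs0, hs1, hxs⟩ := mem_seg.1 hx
  have hfs : f x = (1 - s) * f (P w) + s * f (P (σ w)) := by
    rw [hxs]; simp
  by_cases hr : Reach σ b w
  · have htw : 2 ≤ tm σ b w := by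
      by_contra hlt
      push Not at hlt
      have : tm σ b w = 0 ∨ tm σ b w = 1 := by omega
      rcases this with h' | h'
      · exact hwb (tm_inj hr r0 (by rw [h', tm_base]))
      · exact hw1 (tm_inj hr r1 (by rw [h', t1]))
    have hfw : w = σ (σ b) ∨ f (P w) < f (P (σ (σ b))) := by
      rcases htw.eq_or_lt with h' | h'
      · left; exact tm_inj hr r2 (by rw [t2, h'])
      · right; exact hm.lt r2 hr (by rw [t2]; exact h')
    by_cases hσw : σ w = b
    · -- closing edge
      left
      refine ⟨hσw, ?_⟩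
      have hw2' : w ≠ σ (σ b) := by
        rintro rfl; exact h3 hσw
      have hfw' : f (P w) < f (P (σ (σ b))) := by
        rcases hfw with h' | h'
        · exact absurd h' hw2'
        · exact h'
      rw [hσw] at hxs hx
      by_cases hα1 : α = 1
      · have hβ0 : β = 0 := by linarith
        have hγ0 : γ = 0 := by linarith
        rw [hx', hα1, hβ0, hγ0]; simp
      · exfalso
        have hα1' : 0 < 1 - α := by
          have : α ≤ 1 := by linarith
          exact lt_of_le_of_ne (by linarith) (fun h' => hα1 (by linarith))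
        set y : Sp := (β / (1 - α)) • P (σ b) + (γ / (1 - α)) • P (σ (σ b)) with hy
        have hy1 : y ∈ segment ℝ (P (σ b)) (P (σ (σ b))) := by
          refine ⟨β / (1 - α), γ / (1 - α), by positivity, by positivity, ?_, rfl⟩
          field_simp; linarith
        set l : ℝ := (1 - s) / (1 - α) with hl
        have hl0 : 0 ≤ l := div_nonneg (by linarith) hα1'.le
        have hy2 : y = l • P w + (1 - l) • P b := by
          have e1 : (1 - α) • y = β • P (σ b) + γ • P (σ (σ b)) := by
            rw [hy, smul_add, smul_smul, smul_smul, mul_div_cancel₀ _ hα1'.ne',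
              mul_div_cancel₀ _ hα1'.ne']
          have e2 : α • P b + (1 - α) • y = (1 - s) • P w + s • P b := by
            rw [e1, ← hxs, hx', add_assoc]
          have e3 : (1 - α) • y = (1 - s) • P w + (s - α) • P b := by
            rw [sub_smul s α, ← add_sub_assoc, ← e2]; abel
          have e4 : (1 - α) • y = (1 - α) • (l • P w + (1 - l) • P b) := by
            rw [e3, smul_add, smul_smul, smul_smul]
            have e5 : (1 - α) * l = 1 - s := by rw [hl]; field_simp
            have e6 : (1 - α) * (1 - l) = s - α := by rw [mul_sub, e5]; ring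
            rw [e5, e6]
          exact smul_right_injective Sp hα1'.ne' e4
        have hfy : f (P (σ (σ b))) ≤ f y := by
          have : f y = (β / (1 - α)) * f (P (σ b)) + (γ / (1 - α)) * f (P (σ (σ b))) := by
            rw [hy]; simp
          rw [this]
          have hsum : γ / (1 - α) = 1 - β / (1 - α) := by field_simp; linarith
          rw [hsum]
          have : 0 ≤ β / (1 - α) := by positivity
          nlinarith
        have hfy2 : f y = l * f (P w) + (1 - l) * f (P b) := by rw [hy2]; simp
        have hl1 : l < 1 := by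
          by_contra hge
          push Not at hge
          have : f (P w) < f (P b) := hfw'.trans (f12.trans f01)
          nlinarith
        have hy3 : y ∈ segment ℝ (P w) (P (σ w)) := by
          rw [hσw]
          exact ⟨l, 1 - l, hl0, by linarith, by ring, hy2.symm⟩
        rcases h.2 (σ b) w hw1.symm y hy1 hy3 with ⟨h5, _⟩ | ⟨h5, _⟩
        · exact hw2' h5.symm
        · rw [hσw] at h5; exact h1 h5.symm
    · right
      have hdec := hm.dec w hr hσw
      have hfw' : f (P w) ≤ f (P (σ (σ b))) := by
        rcases hfw with h' | h'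
        · rw [h']
        · exact h'.le
      have hfx2 : f x ≤ f (P w) := by rw [hfs]; nlinarith
      have hx2 := hfeq (hfx2.trans hfw')
      refine ⟨?_, hx2⟩
      rcases hfw with h' | h'
      · exact h'
      · exfalso
        have : f x < f (P (σ (σ b))) := lt_of_le_of_lt hfx2 h'
        exact absurd hfge (not_le.2 this)
  · exfalso
    have hr' : ¬ Reach σ b (σ w) := fun h' => hr (reach_of_step h')
    have g1 := hm.above _ w r2 hr
    have g2 := hm.above _ (σ w) r2 hr'
    have : f x < f (P (σ (σ b))) := by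
      rw [hfs]
      rcases hs0.eq_or_lt with h' | h'
      · rw [← h']; simpa using g1
      · nlinarith
    exact absurd hfge (not_le.2 this)

theorem elim (f : Sp →ₗ[ℝ] ℝ) (n : ℕ) : ∀ (V : Type) (hV : Finite V) (_ : Nat.card V ≤ n)
    (σ : Equiv.Perm V) (P : V → Sp) (h : Embedded σ P) (b : V) (_ : Mono σ P b f),
    ∃ (V' : Type) (hV' : Finite V') (σ' : Equiv.Perm V') (P' : V' → Sp) (h' : Embedded σ' P')
      (j : V' → V) (b' : V'), Isotopic ⟨V, hV, σ, P, h⟩ ⟨V', hV', σ', P', h'⟩ ∧
      Function.Injective j ∧ j b' = b ∧ (∀ v, P' v = P (j v)) ∧ Mono σ' P' b' f ∧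
      σ' (σ' (σ' b')) = b' ∧ (∀ v, Reach σ' b' v ↔ Reach σ b (j v)) ∧
      (∀ v, ¬ Reach σ' b' v → j (σ' v) = σ (j v)) ∧ (∀ w, ¬ Reach σ b w → ∃ v, j v = w) := by
  induction n with
  | zero =>
    intro V hV hn σ P h b hm
    exfalso
    have : 0 < Nat.card V := Nat.card_pos_iff.2 ⟨⟨b⟩, hV⟩
    omega
  | succ n ih =>
    intro V hV hn σ P h b hm
    by_cases h3 : σ (σ (σ b)) = b
    · exact ⟨V, hV, σ, P, h, id, b, Relation.EqvGen.refl _, Function.injective_id, rfl,
        fun _ => rfl, hm, h3, fun _ => Iff.rfl, fun _ _ => rfl, fun w _ => ⟨w, rfl⟩⟩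
    · have h1 : σ b ≠ b := emb_ne h b
      have h2 : σ (σ b) ≠ b := emb_ne2 h b
      have hfree := tri_free_of_mono h hm h3
      have r0 : Reach σ b b := reach_base σ b
      have r1 : Reach σ b (σ b) := r0.step
      have f01 : f (P (σ b)) < f (P b) := hm.dec b r0 h1
      have f12 : f (P (σ (σ b))) < f (P (σ b)) := hm.dec _ r1 h2
      have hac : P (σ.symm (σ b)) ≠ P (σ (σ b)) := by
        rw [Equiv.symm_apply_apply]
        intro h'
        rw [h'] at f01
        exact lt_irrefl _ (f01.trans f12)
      set v1 := σ b with hv1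
      have hb1 : b ≠ v1 := h1.symm
      set b1 : {v // v ≠ v1} := ⟨b, hb1⟩ with hb1def
      have hσb : (bypass σ v1 b1 : V) = σ v1 := (bypass_apply σ v1 b1).1 rfl
      have hmono : Mono (bypass σ v1) (fun w => P w) b1 f := by
        constructor
        · intro v hv hvb
          rw [reach_bypass] at hv
          change f (P (bypass σ v1 v)) < f (P v)
          by_cases hvσ : σ v = v1
          · have hvb' : (v : V) = b := σ.injective hvσ
            rw [(bypass_apply σ v1 v).1 hvσ, hvb']
            exact f12.trans f01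
          · rw [(bypass_apply σ v1 v).2 hvσ]
            apply hm.dec v hv
            intro h'
            apply hvb
            apply Subtype.ext
            rw [(bypass_apply σ v1 v).2 hvσ, h']
        · intro v w hv hw
          rw [reach_bypass] at hv hw
          exact hm.above v w hv hw
      have hcard : Nat.card {v // v ≠ v1} ≤ n := by
        have : Nat.card {v // v ≠ v1} < Nat.card V := by
          classical
          have := Fintype.ofFinite V
          rw [Nat.card_eq_fintype_card, Nat.card_eq_fintype_card]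
          exact Fintype.card_subtype_lt (x := v1) (by simp)
        omega
      obtain ⟨V', hV', σ', P', h', j, b', hiso, hj, hjb, hP, hm', h3', hreach, hnext, hsurj⟩ :=
        ih {v // v ≠ v1} inferInstance hcard (bypass σ v1) (fun w => P w)
          (remove_emb h v1 hac hfree) b1 hmono
      refine ⟨V', hV', σ', P', h', fun v => (j v : V), b', ?_, ?_, ?_, hP, hm', h3', ?_, ?_, ?_⟩
      · exact Relation.EqvGen.trans _ _ _
          (Relation.EqvGen.rel _ _ (remove_move hV h v1 hac hfree)) hiso
      · exact Subtype.val_injective.comp hj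
      · exact congrArg Subtype.val hjb
      · intro v; rw [hreach, reach_bypass]
      · intro v hv
        have hv' : ¬ Reach σ b (j v) := by
          rw [hreach, reach_bypass] at hv; exact hv
        have e1 : ((j (σ' v) : {v // v ≠ v1}) : V) = (bypass σ v1 (j v) : V) := by
          rw [hnext v hv]
        refine e1.trans ((bypass_apply σ v1 (j v)).2 ?_)
        intro h''
        apply hv'
        rw [← reach_step_iff, h'']
        exact r1
      · intro w hw
        have hw1 : w ≠ v1 := by rintro rfl; exact hw r1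
        obtain ⟨v, hv⟩ := hsurj ⟨w, hw1⟩ (by rw [reach_bypass]; exact hw)
        exact ⟨v, congrArg Subtype.val hv⟩

/-- a monotone knot is an unknot -/
theorem nabla_mono_knot (nabla : PLink → Polynomial ℤ) (hN : IsConway nabla) (V : Type)
    (hV : Finite V) (σ : Equiv.Perm V) (P : V → Sp) (h : Embedded σ P) (b : V)
    (f : Sp →ₗ[ℝ] ℝ) (hm : Mono σ P b f) (hone : ∀ v, Reach σ b v) :
    nabla ⟨V, hV, σ, P, h⟩ = 1 := by
  obtain ⟨V', hV', σ', P', h', j, b', hiso, hj, hjb, hP, hm', h3', hreach, hnext, hsurj⟩ :=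
    elim f _ V hV le_rfl σ P h b hm
  have hinv : ∀ L L', Isotopic L L' → nabla L = nabla L' := by
    intro L L' hL
    induction hL with
    | rel _ _ h => exact hN.iso _ _ h
    | refl _ => rfl
    | symm _ _ _ ih => exact ih.symm
    | trans _ _ _ _ _ ih1 ih2 => exact ih1.trans ih2
  rw [hinv _ _ hiso]
  apply hN.unknot
  change Nat.card V' = 3
  have hall : ∀ v : V', v = b' ∨ v = σ' b' ∨ v = σ' (σ' b') := by
    intro v
    refine orbit_induction (ρ := σ') (b := b')
      (P := fun v => v = b' ∨ v = σ' b' ∨ v = σ' (σ' b')) (Or.inl rfl) ?_ v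
      ((hreach v).2 (hone _))
    rintro v _ (rfl | rfl | rfl) hvb
    · right; left; rfl
    · right; right; rfl
    · exact absurd h3' hvb
  classical
  have := Fintype.ofFinite V'
  rw [Nat.card_eq_fintype_card, ← Finset.card_univ]
  have huniv : (Finset.univ : Finset V') = {b', σ' b', σ' (σ' b')} := by
    ext v; simp [hall v]
  rw [huniv]
  have n1 : σ' b' ≠ b' := emb_ne h' b'
  have n2 : σ' (σ' b') ≠ b' := emb_ne2 h' b'
  rw [Finset.card_insert_of_notMem, Finset.card_insert_of_notMem, Finset.card_singleton]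
  · simp only [Finset.mem_singleton]
    intro h''; exact n1 (σ'.injective h''.symm)
  · simp only [Finset.mem_insert, Finset.mem_singleton, not_or]
    exact ⟨n1.symm, n2.symm⟩

end Pool.Agent.V11208.PL
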