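import Pool.Agent.V11208.PL.Defs
import Pool.Agent.V11208.UB.Time

/-! Removing vertices; monotone cycles. -/

namespace Pool.Agent.V11208.PL
open Pool.Agent.V11208.UB

theorem mem_seg {E : Type*} [AddCommGroup E] [Module ℝ E] {a b x : E} :
    x ∈ segment ℝ a b ↔ ∃ t : ℝ, 0 ≤ t ∧ t ≤ 1 ∧ x = (1 - t) • a + t • b := by
  rw [segment_eq_image]
  constructor
  · rintro ⟨t, ⟨h0, h1⟩, rfl⟩; exact ⟨t, h0, h1, rfl⟩
  · rintro ⟨t, h0, h1, rfl⟩; exact ⟨t, ⟨h0, h1⟩, rfl⟩

theorem mem_tri {E : Type*} [AddCommGroup E] [Module ℝ E] {a b c x : E} :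
    x ∈ convexHull ℝ {a, b, c} ↔ ∃ α β γ : ℝ, 0 ≤ α ∧ 0 ≤ β ∧ 0 ≤ γ ∧ α + β + γ = 1 ∧
      x = α • a + β • b + γ • c := by
  constructor
  · intro h
    rw [convexHull_insert (by simp), convexHull_pair] at h
    rw [mem_convexJoin] at h
    obtain ⟨a', ha', y, hy, hx⟩ := h
    rw [Set.mem_singleton_iff] at ha'
    subst ha'
    rw [mem_seg] at hy hx
    obtain ⟨t, ht0, ht1, rfl⟩ := hy
    obtain ⟨s, hs0, hs1, rfl⟩ := hx
    refine ⟨1 - s, s * (1 - t), s * t, by linarith, mul_nonneg hs0 (by linarith),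
      mul_nonneg hs0 ht0, by ring, ?_⟩
    rw [smul_add, smul_smul, smul_smul, add_assoc]
  · rintro ⟨α, β, γ, hα, hβ, hγ, hs, rfl⟩
    have hc := convex_convexHull ℝ ({a, b, c} : Set E)
    have ha : a ∈ convexHull ℝ ({a, b, c} : Set E) := subset_convexHull ℝ _ (by simp)
    have hb : b ∈ convexHull ℝ ({a, b, c} : Set E) := subset_convexHull ℝ _ (by simp)
    have hc' : c ∈ convexHull ℝ ({a, b, c} : Set E) := subset_convexHull ℝ _ (by simp)
    by_cases h : α + β = 0
    · have h1 : α = 0 := by linarith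
      have h2 : β = 0 := by linarith
      have h3 : γ = 1 := by linarith
      rw [h1, h2, h3]; simpa using hc'
    · have hpos : 0 < α + β := lt_of_le_of_ne (by linarith) (Ne.symm h)
      have h1 := hc ha hb (a := α / (α + β)) (b := β / (α + β)) (by positivity) (by positivity)
        (by field_simp)
      have h2 := hc h1 hc' hpos.le hγ hs
      convert h2 using 1
      rw [smul_add, smul_smul, smul_smul, mul_div_cancel₀ _ hpos.ne', mul_div_cancel₀ _ hpos.ne']

section bypass
variable {V : Type}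

open Classical in
/-- the permutation obtained by skipping `v1` -/
noncomputable def bypass (σ : Equiv.Perm V) (v1 : V) : Equiv.Perm {v // v ≠ v1} :=
  Equiv.Perm.subtypePerm (Equiv.swap v1 (σ v1) * σ) (by
    intro x
    rw [Equiv.Perm.mul_apply]
    constructor
    · intro h hx
      apply h
      rw [hx, Equiv.swap_apply_right]
    · intro h hx
      apply h
      rw [Equiv.swap_apply_eq_iff, Equiv.swap_apply_left] at hx
      exact σ.injective hx)

theorem bypass_apply (σ : Equiv.Perm V) (v1 : V) (w : {v // v ≠ v1}) :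
    (σ w = v1 → (bypass σ v1 w : V) = σ v1) ∧ (σ w ≠ v1 → (bypass σ v1 w : V) = σ w) := by
  classical
  have h : (bypass σ v1 w : V) = Equiv.swap v1 (σ v1) (σ w) := rfl
  constructor
  · intro h1
    rw [h, h1, Equiv.swap_apply_left]
  · intro h1
    rw [h, Equiv.swap_apply_of_ne_of_ne h1]
    intro h2
    exact w.2 (σ.injective h2)

/-- the free triangle condition -/
def TriFree (σ : Equiv.Perm V) (P : V → Sp) (v1 : V) : Prop :=
  ∀ w, w ≠ v1 → σ w ≠ v1 → ∀ x ∈ segment ℝ (P w) (P (σ w)),
    x ∈ convexHull ℝ {P (σ.symm v1), P v1, P (σ v1)} →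
    (σ w = σ.symm v1 ∧ x = P (σ.symm v1)) ∨ (w = σ v1 ∧ x = P (σ v1))

theorem remove_emb {σ : Equiv.Perm V} {P : V → Sp} (h : Embedded σ P) (v1 : V)
    (hac : P (σ.symm v1) ≠ P (σ v1)) (hfree : TriFree σ P v1) :
    Embedded (bypass σ v1) (fun w => P w) := by
  classical
  have hseg : ∀ x, x ∈ segment ℝ (P (σ.symm v1)) (P (σ v1)) →
      x ∈ convexHull ℝ {P (σ.symm v1), P v1, P (σ v1)} := by
    intro x hx
    rw [← convexHull_pair] at hx
    exact convexHull_mono (by intro y hy; simp at hy ⊢; tauto) hx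
  constructor
  · intro w
    change P w ≠ P (bypass σ v1 w)
    by_cases hw : σ w = v1
    · rw [(bypass_apply σ v1 w).1 hw]
      have : (w : V) = σ.symm v1 := (Equiv.eq_symm_apply σ).2 hw
      rw [this]; exact hac
    · rw [(bypass_apply σ v1 w).2 hw]; exact h.1 w
  · intro v w hvw x hxv hxw
    change x ∈ segment ℝ (P v) (P (bypass σ v1 v)) at hxv
    change x ∈ segment ℝ (P w) (P (bypass σ v1 w)) at hxw
    change (bypass σ v1 v = w ∧ x = P w) ∨ (bypass σ v1 w = v ∧ x = P v)
    have hvw' : (v : V) ≠ w := fun h' => hvw (Subtype.ext h')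
    by_cases hv : σ v = v1
    · have hva : (v : V) = σ.symm v1 := (Equiv.eq_symm_apply σ).2 hv
      have hw : σ w ≠ v1 := by
        intro hw
        apply hvw'
        rw [hva]; exact ((Equiv.eq_symm_apply σ).2 hw).symm
      rw [(bypass_apply σ v1 v).1 hv, hva] at hxv
      rw [(bypass_apply σ v1 w).2 hw] at hxw
      rcases hfree w w.2 hw x hxw (hseg x hxv) with ⟨h1, h2⟩ | ⟨h1, h2⟩
      · right
        refine ⟨?_, by rw [h2, hva]⟩
        apply Subtype.ext
        rw [(bypass_apply σ v1 w).2 hw, h1, hva]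
      · left
        refine ⟨?_, by rw [h2, h1]⟩
        apply Subtype.ext
        rw [(bypass_apply σ v1 v).1 hv, h1]
    · by_cases hw : σ w = v1
      · have hwa : (w : V) = σ.symm v1 := (Equiv.eq_symm_apply σ).2 hw
        rw [(bypass_apply σ v1 v).2 hv] at hxv
        rw [(bypass_apply σ v1 w).1 hw, hwa] at hxw
        rcases hfree v v.2 hv x hxv (hseg x hxw) with ⟨h1, h2⟩ | ⟨h1, h2⟩
        · left
          refine ⟨?_, by rw [h2, hwa]⟩
          apply Subtype.ext
          rw [(bypass_apply σ v1 v).2 hv, h1, hwa]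
        · right
          refine ⟨?_, by rw [h2, h1]⟩
          apply Subtype.ext
          rw [(bypass_apply σ v1 w).1 hw, h1]
      · rw [(bypass_apply σ v1 v).2 hv] at hxv
        rw [(bypass_apply σ v1 w).2 hw] at hxw
        rcases h.2 v w hvw' x hxv hxw with ⟨h1, h2⟩ | ⟨h1, h2⟩
        · left
          refine ⟨?_, h2⟩
          apply Subtype.ext
          rw [(bypass_apply σ v1 v).2 hv, h1]
        · right
          refine ⟨?_, h2⟩
          apply Subtype.ext
          rw [(bypass_apply σ v1 w).2 hw, h1]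

theorem remove_move (hV : Finite V) {σ : Equiv.Perm V} {P : V → Sp} (h : Embedded σ P) (v1 : V)
    (hac : P (σ.symm v1) ≠ P (σ v1)) (hfree : TriFree σ P v1) :
    Move ⟨V, hV, σ, P, h⟩ ⟨{v // v ≠ v1}, inferInstance, bypass σ v1, fun w => P w,
      remove_emb h v1 hac hfree⟩ := by
  apply Move.triangle _ _ v1 (fun w : {v // v ≠ v1} => (w : V))
  · exact Subtype.val_injective
  · intro v
    constructor
    · intro hv; exact ⟨⟨v, hv⟩, rfl⟩
    · rintro ⟨w, rfl⟩; exact w.2
  · intro w; exact bypass_apply σ v1 w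
  · intro w; rfl
  · exact hfree

end bypass

/-- reachability is preserved by skipping a vertex -/
theorem reach_bypass {V : Type} [Finite V] (σ : Equiv.Perm V) (v1 : V) (b : {v // v ≠ v1})
    (w : {v // v ≠ v1}) : Reach (bypass σ v1) b w ↔ Reach σ b w := by
  constructor
  · intro h
    refine orbit_induction (ρ := bypass σ v1) (b := b) (P := fun w => Reach σ b w) ?_ ?_ w h
    · exact reach_base σ _
    · intro v _ ih _
      by_cases hv : σ v = v1
      · rw [(bypass_apply σ v1 v).1 hv]
        have h3 := ih.step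
        rw [hv] at h3
        exact h3.step
      · rw [(bypass_apply σ v1 v).2 hv]
        exact ih.step
  · intro h
    -- strengthen: for every reachable `v`, either `v ≠ v1` and reachable below, or `v = v1` and
    -- its predecessor is
    have key : ∀ v : V, Reach σ b v → (∀ hv : v ≠ v1, Reach (bypass σ v1) b ⟨v, hv⟩) ∧
        (v = v1 → ∀ hv : σ v ≠ v1, Reach (bypass σ v1) b ⟨σ v, hv⟩) := by
      intro v hv
      refine orbit_induction (ρ := σ) (b := (b : V))
        (P := fun v => (∀ hv : v ≠ v1, Reach (bypass σ v1) b ⟨v, hv⟩) ∧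
        (v = v1 → ∀ hv : σ v ≠ v1, Reach (bypass σ v1) b ⟨σ v, hv⟩)) ?_ ?_ v hv
      · exact ⟨fun hv => reach_base _ b, fun h => absurd h b.2⟩
      · intro v _ ih _
        by_cases hv1 : v = v1
        · refine ⟨fun hσ => ih.2 hv1 hσ, ?_⟩
          intro h1 h2
          exfalso
          apply h2
          exact (congrArg σ (h1.trans hv1.symm)).trans h1
        · have hr := ih.1 hv1
          by_cases hσ : σ v = v1
          · refine ⟨fun h => absurd hσ h, ?_⟩
            intro _ h2
            have h3 : (bypass σ v1 ⟨v, hv1⟩) = ⟨σ (σ v), h2⟩ := by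
              apply Subtype.ext
              rw [(bypass_apply σ v1 ⟨v, hv1⟩).1 hσ]
              simp [hσ]
            rw [← h3]; exact hr.step
          · refine ⟨fun h => ?_, fun h => absurd h hσ⟩
            have h3 : (bypass σ v1 ⟨v, hv1⟩) = ⟨σ v, h⟩ := by
              apply Subtype.ext
              rw [(bypass_apply σ v1 ⟨v, hv1⟩).2 hσ]
            rw [← h3]; exact hr.step
    exact (key w h).1 w.2

end Pool.Agent.V11208.PL
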