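import Pool.Agent.V11208.PL.Top2
import Pool.Agent.V11208.UB.Res

/-! The skein relation and the boundary values for the smoothings of a planar frame. -/

namespace Pool.Agent.V11208.PL
open Pool.Agent.V11208.UB

variable {V C : Type} {σ : Equiv.Perm V} {p : V → Pt} {o u : C → V} {s t : C → ℝ}

/-- planar orientation of a crossing -/
noncomputable def chi (σ : Equiv.Perm V) (p : V → Pt) (o u : C → V) (i : C) : ℝ :=
  cross (p (σ (o i)) - p (o i)) (p (σ (u i)) - p (u i))

theorem Frame.rem (F : Frame σ p o u s t) {S : Finset C} {i : C} (hi : i ∉ S) :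
    (σ * tau o u S) (o i) = σ (o i) ∧ (σ * tau o u S) (u i) = σ (u i) := by
  constructor
  · rw [Equiv.Perm.mul_apply, tau_apply F.distinct, tauFun_o_not F.distinct S i hi]
  · rw [Equiv.Perm.mul_apply, tau_apply F.distinct, tauFun_u_not F.distinct S i hi]

theorem Frame.order (F : Frame σ p o u s t) (S : Finset C) (c : C) (h h' : V → ℝ)
    (hh : ∀ i, i ∉ S → i ≠ c → 0 < hd σ o u s t h i * hd σ o u s t h' i) (v w : V)
    (hv1 : v ≠ o c) (hv2 : v ≠ u c) (α β : ℝ) (α0 : 0 ≤ α) (α1 : α ≤ 1) (β0 : 0 ≤ β) (β1 : β ≤ 1)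
    (heq : (1 - α) • p v + α • p ((σ * tau o u S) v) =
      (1 - β) • p w + β • p ((σ * tau o u S) w)) :
    (0 < ((1 - α) * h v + α * h ((σ * tau o u S) v)) -
      ((1 - β) * h w + β * h ((σ * tau o u S) w))) ↔
    (0 < ((1 - α) * h' v + α * h' ((σ * tau o u S) v)) -
      ((1 - β) * h' w + β * h' ((σ * tau o u S) w))) := by
  by_cases hvw : v = w
  · subst hvw
    have := seg_param_unique (F.nondegS S v) heq
    subst this
    simp
  · rcases F.plan S v w hvw _ (mem_seg.2 ⟨α, α0, α1, rfl⟩) (mem_seg.2 ⟨β, β0, β1, heq⟩) with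
      ⟨h1, h2⟩ | ⟨h1, h2⟩ | ⟨i, hi, hc⟩
    · have e1 : α = 1 := seg_param_unique (F.nondegS S v) (by rw [h2, ← h1]; simp)
      have e2 : β = 0 := seg_param_unique (F.nondegS S w) (by rw [← heq, h2]; simp)
      subst e1; subst e2
      rw [h1]; simp
    · have e1 : β = 1 := seg_param_unique (F.nondegS S w) (by rw [← heq, h2, ← h1]; simp)
      have e2 : α = 0 := seg_param_unique (F.nondegS S v) (by rw [h2]; simp)
      subst e1; subst e2
      rw [h1]; simp
    · obtain ⟨ro, ru⟩ := F.rem hi
      rcases hc with ⟨rfl, rfl⟩ | ⟨rfl, rfl⟩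
      · have hic : i ≠ c := by rintro rfl; exact hv1 rfl
        rw [ro, ru] at heq ⊢
        obtain ⟨e1, e2⟩ := cross_unique _ _ _ _ _ _ _ _ (F.meet i) heq (F.cr i)
        have := hh i hi hic
        subst e1; subst e2
        change 0 < hd σ o u s t h i ↔ 0 < hd σ o u s t h' i
        exact pos_iff_pos_of_mul_pos this
      · have hic : i ≠ c := by rintro rfl; exact hv2 rfl
        rw [ro, ru] at heq ⊢
        obtain ⟨e1, e2⟩ := cross_unique _ _ _ _ _ _ _ _ (F.meet i) heq.symm (F.cr i)
        have := hh i hi hic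
        subst e1; subst e2
        have k1 : ∀ h : V → ℝ, ((1 - t i) * h (u i) + t i * h (σ (u i))) -
            ((1 - s i) * h (o i) + s i * h (σ (o i))) = - hd σ o u s t h i := by
          intro h; unfold hd; ring
        rw [k1, k1, neg_pos, neg_pos]
        exact neg_iff_neg_of_mul_pos this

theorem Frame.skein [DecidableEq C] [DecidableEq V] (F : Frame σ p o u s t) (hV : Finite V)
    (S : Finset C) (c : C) (hc : c ∉ S) (hp hm h0 : V → ℝ)
    (hpos : 0 < chi σ p o u c * hd σ o u s t hp c)
    (hneg : chi σ p o u c * hd σ o u s t hm c < 0)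
    (hpm : ∀ i, i ∉ S → i ≠ c → 0 < hd σ o u s t hp i * hd σ o u s t hm i)
    (hp0 : ∀ i, i ∉ S → i ≠ c → 0 < hd σ o u s t hp i * hd σ o u s t h0 i)
    (ep : Embedded (σ * tau o u S) (fun v => ((p v, hp v) : Sp)))
    (em : Embedded (σ * tau o u S) (fun v => ((p v, hm v) : Sp)))
    (e0 : Embedded (σ * tau o u (insert c S)) (fun v => ((p v, h0 v) : Sp))) :
    SkeinTriple ⟨V, hV, _, _, ep⟩ ⟨V, hV, _, _, em⟩ ⟨V, hV, _, _, e0⟩ := by
  have key : ∀ (τ : Equiv.Perm V) (_ : τ = σ * tau o u S * Equiv.swap (o c) (u c))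
      (e : Embedded τ (fun v => ((p v, h0 v) : Sp))),
      SkeinTriple ⟨V, hV, _, _, ep⟩ ⟨V, hV, _, _, em⟩ ⟨V, hV, _, _, e⟩ := by
    rintro τ rfl e
    obtain ⟨ro, ru⟩ := F.rem hc
    refine SkeinTriple.mk V hV inferInstance (σ * tau o u S) p hp hm h0 (o c) (u c) (F.ou c c)
      ep em e (s c) (t c) (F.s0 c) (F.s1 c) (F.t0 c) (F.t1 c) ?_ ?_ ?_ ?_ ?_
    · rw [ro, ru]; exact F.meet c
    · rw [ro, ru]; exact hpos
    · rw [ro, ru]; exact hneg
    · intro w w1 w2 x hx hb
      rw [ro, ru] at hb ⊢
      rcases F.trich S w with ⟨i, hi, rfl⟩ | ⟨i, hi, rfl⟩ | hw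
      · exfalso
        have hic : i ≠ c := by rintro rfl; exact hc hi
        exact Set.disjoint_left.1 (F.boxes i c hic) (F.seg_o hi hx) hb
      · exfalso
        have hic : i ≠ c := by rintro rfl; exact hc hi
        exact Set.disjoint_left.1 (F.boxes i c hic) (F.seg_u hi hx) hb
      · rw [F.ordinary hw] at hx ⊢
        exact F.box c w w1 w2 x hx hb
    · intro v w v1 v2 w1 w2 α β α0 α1 β0 β1 heq
      exact ⟨F.order S c hp hm hpm v w v1 v2 α β α0 α1 β0 β1 heq,
        F.order S c hp h0 hp0 v w v1 v2 α β α0 α1 β0 β1 heq⟩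
  apply key
  rw [mul_assoc, ← tau_insert F.distinct S c hc]

/-- sign of a choice -/
noncomputable def sgn (v : Bool) : ℝ := if v = true then 1 else -1

theorem sgn_sq (v : Bool) : sgn v * sgn v = 1 := by
  unfold sgn; split_ifs <;> norm_num

open Classical in
/-- the standard heights -/
noncomputable def hgt [Fintype C] (σ : Equiv.Perm V) (o u : C → V) (ω : C → Bool) (v : V) : ℝ :=
  ∑ i, sgn (ω i) * ((if v = o i then 1 else 0) + (if v = σ (o i) then 1 else 0)
    - (if v = u i then 1 else 0) - (if v = σ (u i) then 1 else 0))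

section
variable [Fintype C]

theorem Frame.hgt_o (F : Frame σ p o u s t) (ω : C → Bool) (i : C) :
    hgt σ o u ω (o i) = sgn (ω i) := by
  classical
  unfold hgt
  rw [Finset.sum_eq_single i]
  · rw [if_pos rfl, if_neg (fun h => (F.onext i i).1 h.symm), if_neg (F.ou i i),
      if_neg (fun h => (F.unext i i).1 h.symm)]
    ring
  · intro j _ hj
    rw [if_neg (fun h => hj (F.oo _ _ h.symm)), if_neg (fun h => (F.onext j i).1 h.symm),
      if_neg (F.ou i j), if_neg (fun h => (F.unext j i).1 h.symm)]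
    ring
  · intro h; exact absurd (Finset.mem_univ _) h

theorem Frame.hgt_so (F : Frame σ p o u s t) (ω : C → Bool) (i : C) :
    hgt σ o u ω (σ (o i)) = sgn (ω i) := by
  classical
  unfold hgt
  rw [Finset.sum_eq_single i]
  · rw [if_neg (F.onext i i).1, if_pos rfl, if_neg (F.onext i i).2,
      if_neg (fun h => F.ou i i (σ.injective h))]
    ring
  · intro j _ hj
    rw [if_neg (F.onext i j).1, if_neg (fun h => hj (F.oo _ _ (σ.injective h.symm))),
      if_neg (F.onext i j).2, if_neg (fun h => F.ou i j (σ.injective h))]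
    ring
  · intro h; exact absurd (Finset.mem_univ _) h

theorem Frame.hgt_u (F : Frame σ p o u s t) (ω : C → Bool) (i : C) :
    hgt σ o u ω (u i) = - sgn (ω i) := by
  classical
  unfold hgt
  rw [Finset.sum_eq_single i]
  · rw [if_neg (F.ou i i).symm, if_neg (fun h => (F.onext i i).2 h.symm), if_pos rfl,
      if_neg (fun h => (F.unext i i).2 h.symm)]
    ring
  · intro j _ hj
    rw [if_neg (F.ou j i).symm, if_neg (fun h => (F.onext j i).2 h.symm),
      if_neg (fun h => hj (F.uu _ _ h.symm)), if_neg (fun h => (F.unext j i).2 h.symm)]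
    ring
  · intro h; exact absurd (Finset.mem_univ _) h

theorem Frame.hgt_su (F : Frame σ p o u s t) (ω : C → Bool) (i : C) :
    hgt σ o u ω (σ (u i)) = - sgn (ω i) := by
  classical
  unfold hgt
  rw [Finset.sum_eq_single i]
  · rw [if_neg (F.unext i i).1, if_neg (fun h => F.ou i i (σ.injective h.symm)),
      if_neg (F.unext i i).2, if_pos rfl]
    ring
  · intro j _ hj
    rw [if_neg (F.unext i j).1, if_neg (fun h => F.ou j i (σ.injective h.symm)),
      if_neg (F.unext i j).2, if_neg (fun h => hj (F.uu _ _ (σ.injective h.symm)))]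
    ring
  · intro h; exact absurd (Finset.mem_univ _) h

theorem Frame.hd_hgt (F : Frame σ p o u s t) (ω : C → Bool) (i : C) :
    hd σ o u s t (hgt σ o u ω) i = 2 * sgn (ω i) := by
  unfold hd
  rw [F.hgt_o, F.hgt_so, F.hgt_u, F.hgt_su]
  ring

theorem Frame.hd_ne (F : Frame σ p o u s t) (ω : C → Bool) (i : C) :
    hd σ o u s t (hgt σ o u ω) i ≠ 0 := by
  rw [F.hd_hgt]
  have := sgn_sq (ω i)
  intro h
  have h1 : sgn (ω i) = 0 := by linarith
  rw [h1] at this
  norm_num at this

/-- the value of `nabla` on the smoothing `S` with the choice `ω` at the crossings -/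
noncomputable def nab (nabla : PLink → Polynomial ℤ) (F : Frame σ p o u s t) (hV : Finite V)
    (S : Finset C) (ω : C → Bool) : Polynomial ℤ :=
  nabla ⟨V, hV, σ * tau o u S, fun v => (p v, hgt σ o u ω v),
    F.emb S (hgt σ o u ω) (fun i _ => F.hd_ne ω i)⟩

theorem nab_skein {nabla : PLink → Polynomial ℤ} (hN : IsConway nabla) [DecidableEq C]
    (F : Frame σ p o u s t) (hV : Finite V) (S : Finset C) (c : C) (ω : C → Bool) (hc : c ∉ S) :
    nab nabla F hV S (Function.update ω c true) - nab nabla F hV S (Function.update ω c false) =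
      Polynomial.C (if 0 < chi σ p o u c then 1 else -1) * Polynomial.X *
        nab nabla F hV (insert c S) ω := by
  classical
  have hu : ∀ (v : Bool) (i : C), i ≠ c → Function.update ω c v i = ω i :=
    fun v i hi => Function.update_of_ne hi _ _
  have hpos4 : ∀ i, (0:ℝ) < 2 * sgn (ω i) * (2 * sgn (ω i)) := by
    intro i
    have := sgn_sq (ω i)
    nlinarith
  have hsk : ∀ v v' : Bool, 0 < chi σ p o u c * (2 * sgn v) → chi σ p o u c * (2 * sgn v') < 0 →
      nab nabla F hV S (Function.update ω c v) - nab nabla F hV S (Function.update ω c v') =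
        Polynomial.X * nab nabla F hV (insert c S) ω := by
    intro v v' h1 h2
    apply hN.skein
    apply F.skein hV S c hc
    · rw [F.hd_hgt, Function.update_self]; exact h1
    · rw [F.hd_hgt, Function.update_self]; exact h2
    · intro i _ hi
      rw [F.hd_hgt, F.hd_hgt, hu _ _ hi, hu _ _ hi]; exact hpos4 i
    · intro i _ hi
      rw [F.hd_hgt, F.hd_hgt, hu _ _ hi]; exact hpos4 i
  rcases lt_or_gt_of_ne (F.cr c) with h | h
  · have h' : chi σ p o u c < 0 := h
    rw [if_neg (not_lt.2 h'.le)]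
    have := hsk false true (by unfold sgn; norm_num; linarith) (by unfold sgn; norm_num; linarith)
    have e1 : nab nabla F hV S (Function.update ω c true) -
        nab nabla F hV S (Function.update ω c false) =
        - (nab nabla F hV S (Function.update ω c false) -
        nab nabla F hV S (Function.update ω c true)) := by ring
    rw [e1, this]
    simp
  · have h' : 0 < chi σ p o u c := h
    rw [if_pos h']
    have := hsk true false (by unfold sgn; norm_num; linarith) (by unfold sgn; norm_num; linarith)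
    rw [this]
    simp

theorem nab_inv {nabla : PLink → Polynomial ℤ} (hN : IsConway nabla) [DecidableEq C]
    (F : Frame σ p o u s t) (hV : Finite V) (S : Finset C) (c : C) (ω : C → Bool) (v : Bool)
    (hc : c ∈ S) :
    nab nabla F hV S (Function.update ω c v) = nab nabla F hV S ω := by
  apply hN.iso
  apply F.move hV S
  intro i hi
  have hic : i ≠ c := by rintro rfl; exact hi hc
  rw [F.hd_hgt, F.hd_hgt, Function.update_of_ne hic]
  have := sgn_sq (ω i)
  nlinarith

end

end Pool.Agent.V11208.PL
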