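import Pool.Agent.V11208.PL.Kink3

/-! A link with a monotone component above a nonempty rest has vanishing Conway polynomial. -/

namespace Pool.Agent.V11208.PL
open Pool.Agent.V11208.UB

theorem indep_of_emb {V : Type} {σ : Equiv.Perm V} {Q : V → Sp} (h : Embedded σ Q) (A B C : V)
    (hAB : σ A = B) (hBC : σ B = C) (hCA : σ C = A) : Indep (Q B - Q A) (Q C - Q A) := by
  have hAneB : A ≠ B := by rintro rfl; exact emb_ne h A hAB
  have hBneC : B ≠ C := by rintro rfl; exact emb_ne h B hBC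
  have hCneA : C ≠ A := by rintro rfl; exact emb_ne h C hCA
  have pAB : Q A ≠ Q B := by have := h.1 A; rwa [hAB] at this
  have pBC : Q B ≠ Q C := by have := h.1 B; rwa [hBC] at this
  have pCA : Q C ≠ Q A := by have := h.1 C; rwa [hCA] at this
  intro α β h0
  by_cases hβ : β = 0
  · rw [hβ, zero_smul, add_zero] at h0
    rcases smul_eq_zero.1 h0 with h1 | h1
    · exact ⟨h1, hβ⟩
    · exact absurd (sub_eq_zero.1 h1).symm pAB
  · exfalso
    set l : ℝ := -(β⁻¹ * α) with hl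
    have hC : Q C = Q A + l • (Q B - Q A) := by
      have h1 : β • (Q C - Q A) = -(α • (Q B - Q A)) := by
        rw [eq_neg_iff_add_eq_zero, add_comm]; exact h0
      have h2 : Q C - Q A = β⁻¹ • (β • (Q C - Q A)) := by
        rw [smul_smul, inv_mul_cancel₀ hβ, one_smul]
      rw [h1, smul_neg, smul_smul] at h2
      rw [hl, neg_smul, ← h2]; abel
    rcases lt_trichotomy l 0 with hl0 | hl0 | hl0
    · -- `A` lies between `B` and `C`
      have hx1 : Q A ∈ segment ℝ (Q A) (Q (σ A)) := left_mem_segment ℝ _ _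
      have hx2 : Q A ∈ segment ℝ (Q B) (Q (σ B)) := by
        rw [hBC]
        have h1l : (0:ℝ) < 1 - l := by linarith
        refine mem_seg.2 ⟨1 / (1 - l), by positivity, ?_, ?_⟩
        · rw [div_le_one h1l]; linarith
        · rw [hC]
          have e1 : (1 - 1 / (1 - l)) • Q B + (1 / (1 - l)) • (Q A + l • (Q B - Q A)) =
            ((1 / (1 - l)) * (1 - l)) • Q A + (1 - (1 / (1 - l)) * (1 - l)) • Q B := by
            module
          rw [e1, div_mul_cancel₀ _ h1l.ne']; simp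
      rcases h.2 A B hAneB _ hx1 hx2 with ⟨_, h2⟩ | ⟨h1, _⟩
      · exact pAB h2
      · rw [hBC] at h1; exact hCneA h1
    · apply pCA; rw [hC, hl0]; simp
    · rcases lt_trichotomy l 1 with hl1 | hl1 | hl1
      · have hx1 : Q C ∈ segment ℝ (Q A) (Q (σ A)) := by
          rw [hAB]
          refine mem_seg.2 ⟨l, hl0.le, hl1.le, ?_⟩
          rw [hC]; module
        have hx2 : Q C ∈ segment ℝ (Q B) (Q (σ B)) := by
          rw [hBC]; exact right_mem_segment ℝ _ _
        rcases h.2 A B hAneB _ hx1 hx2 with ⟨_, h2⟩ | ⟨h1, _⟩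
        · exact pBC h2.symm
        · rw [hBC] at h1; exact hCneA h1
      · apply pBC; rw [hC, hl1]; simp
      · have hx1 : Q B ∈ segment ℝ (Q A) (Q (σ A)) := by
          rw [hAB]; exact right_mem_segment ℝ _ _
        have hx2 : Q B ∈ segment ℝ (Q C) (Q (σ C)) := by
          rw [hCA]
          refine mem_seg.2 ⟨1 - 1 / l, ?_, ?_, ?_⟩
          · have : 1 / l ≤ 1 := by rw [div_le_one hl0]; exact hl1.le
            linarith
          · have : 0 < 1 / l := by positivity
            linarith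
          · rw [hC]
            have e1 : (1 - (1 - 1 / l)) • (Q A + l • (Q B - Q A)) + (1 - 1 / l) • Q A =
              ((1 / l) * l) • Q B + (1 - (1 / l) * l) • Q A := by
              module
            rw [e1, div_mul_cancel₀ _ hl0.ne']; simp
        rcases h.2 A C hCneA.symm _ hx1 hx2 with ⟨h1, _⟩ | ⟨_, h2⟩
        · rw [hAB] at h1; exact hBneC h1
        · exact pAB h2.symm

theorem kf_zero {nabla : PLink → Polynomial ℤ} (hN : IsConway nabla) {V : Type} (hV : Finite V)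
    {σ : Equiv.Perm V} {Q : V → Sp} (h : Embedded σ Q) {A B C s1 s2 : V} {H : ℝ}
    (hAB : σ A = B) (hBC : σ B = C) (hCA : σ C = A) (hss : σ s1 = s2)
    (hA : H < gx (Q A)) (hB : H < gx (Q B)) (hC : H < gx (Q C))
    (g1 : gx (Q s1) = H) (g2 : gx (Q s2) = H) (hη : (Q s1).1.2 ≠ (Q s2).1.2)
    (hlt : ∀ w, w ≠ A → w ≠ B → w ≠ C → w ≠ s1 → w ≠ s2 → gx (Q w) < H) :
    nabla ⟨V, hV, σ, Q, h⟩ = 0 := by
  classical
  have K : Kd σ Q A B C s1 s2 H := ⟨h, hAB, hBC, hCA, hss,
    by rintro rfl; linarith, by rintro rfl; linarith, by rintro rfl; linarith, g1, g2, hη, hlt⟩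
  set h0 : ℝ := (Q s2).1.2 - (Q s1).1.2 with hh0
  have hind' : Indep (posK Q A B C s1 s2 h0 B - posK Q A B C s1 s2 h0 A)
      (posK Q A B C s1 s2 h0 C - posK Q A B C s1 s2 h0 A) := by
    rw [K.pA, K.pB, K.pC]
    intro α β h1
    rw [sA_eq, sB_eq, sC_eq] at h1
    have h2 : (α * (1/5) + β * (1/10)) • (Q s2 - Q s1) + β • (((1, 0), 0) : Sp) +
        (α * (2 * h0) + β * h0) • (((0, 0), 1) : Sp) =
        (0:ℝ) • (Q s2 - Q s1) + (0:ℝ) • (((1, 0), 0) : Sp) + (0:ℝ) • (((0, 0), 1) : Sp) := by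
      have h3 : (0:ℝ) • (Q s2 - Q s1) + (0:ℝ) • (((1, 0), 0) : Sp) +
        (0:ℝ) • (((0, 0), 1) : Sp) = 0 := by simp
      rw [h3, ← h1]
      module
    obtain ⟨k1, k2, k3⟩ := comb_inj K.g1 K.g2 K.hη _ _ _ _ _ _ h2
    refine ⟨?_, k2⟩
    rw [k2] at k1; linarith
  have hoff : ∀ w, w ≠ A → w ≠ B → w ≠ C → posK Q A B C s1 s2 h0 w = Q w :=
    fun w h1 h2 h3 => Kd.pO h0 h1 h2 h3
  have hA' : H < gx (posK Q A B C s1 s2 h0 A) := by rw [K.pA, gA K.g1 K.g2]; linarith
  have hB' : H < gx (posK Q A B C s1 s2 h0 B) := by rw [K.pB, gB K.g1 K.g2]; linarith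
  have hC' : H < gx (posK Q A B C s1 s2 h0 C) := by rw [K.pC, gC K.g1 K.g2]; linarith
  have hle : ∀ w, w ≠ A → w ≠ B → w ≠ C → gx (Q w) ≤ H := fun w h1 h2 h3 => K.gle h1 h2 h3
  have e0 : Embedded σ (posK Q A B C s1 s2 h0) :=
    half_emb h A B C hAB hBC hCA gx H hoff hle hA' hB' hC' hind'
  rw [iso_nabla hN (tri_iso hV h A B C hAB hBC hCA gx H hoff hle hA hB hC
    (indep_of_emb h A B C hAB hBC hCA) hA' hB' hC' hind' e0)]
  exact kd_zero_std hN K hV h0 rfl e0

/-- the height functional, up to sign -/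
noncomputable def fz (ε : ℝ) : Sp →ₗ[ℝ] ℝ := ε • LinearMap.snd ℝ Pt ℝ

theorem fz_apply (ε : ℝ) (x : Sp) : fz ε x = ε * x.2 := rfl

noncomputable def Mz (ε lam : ℝ) : Sp →ₗ[ℝ] Sp where
  toFun x := ((ε * x.2, x.1.2 + lam * x.1.1), -(ε * x.1.1))
  map_add' x y := by ext <;> simp <;> ring
  map_smul' c x := by ext <;> simp <;> ring

theorem ke_zero {nabla : PLink → Polynomial ℤ} (hN : IsConway nabla) {V : Type} (hV : Finite V)
    {σ : Equiv.Perm V} {Q : V → Sp} (h : Embedded σ Q) {A B C s1 s2 : V} {H ε : ℝ}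
    (hε : ε * ε = 1)
    (hAB : σ A = B) (hBC : σ B = C) (hCA : σ C = A) (hss : σ s1 = s2)
    (hA : H < fz ε (Q A)) (hB : H < fz ε (Q B)) (hC : H < fz ε (Q C))
    (g1 : fz ε (Q s1) = H) (g2 : fz ε (Q s2) = H) (hη : (Q s1).1 ≠ (Q s2).1)
    (hlt : ∀ w, w ≠ A → w ≠ B → w ≠ C → w ≠ s1 → w ≠ s2 → fz ε (Q w) < H) :
    nabla ⟨V, hV, σ, Q, h⟩ = 0 := by
  have hlam : ∃ lam : ℝ, (Q s1).1.2 + lam * (Q s1).1.1 ≠ (Q s2).1.2 + lam * (Q s2).1.1 := by
    by_cases hy : (Q s1).1.2 = (Q s2).1.2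
    · refine ⟨1, ?_⟩
      intro h'
      apply hη
      apply Prod.ext
      · rw [hy] at h'; linarith
      · exact hy
    · exact ⟨0, by simpa using hy⟩
  obtain ⟨lam, hlam⟩ := hlam
  have hM : ∀ r : ℝ, 0 ≤ r → r ≤ 1 → ∀ x : Sp, (1 - r) • x + r • Mz ε lam x = 0 → x = 0 := by
    intro r r0 r1 x hx
    have e1 := congrArg (fun x : Sp => x.1.1) hx
    have e2 := congrArg (fun x : Sp => x.1.2) hx
    have e3 := congrArg (fun x : Sp => x.2) hx
    simp [Mz] at e1 e2 e3
    have hdet : 0 < (1 - r) ^ 2 + r ^ 2 := by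
      rcases r0.eq_or_lt with h' | h'
      · rw [← h']; norm_num
      · positivity
    have hx1 : ((1 - r) ^ 2 + r ^ 2) * x.1.1 = 0 := by
      have : (1 - r) * ((1 - r) * x.1.1 + r * (ε * x.2)) -
          r * ε * ((1 - r) * x.2 + -(r * (ε * x.1.1))) = 0 := by
        rw [e1, e3]; ring
      calc ((1 - r) ^ 2 + r ^ 2) * x.1.1 = (1 - r) ^ 2 * x.1.1 + r ^ 2 * (ε * ε) * x.1.1 := by
            rw [hε]; ring
        _ = 0 := by rw [← this]; ring
    have hz1 : ((1 - r) ^ 2 + r ^ 2) * x.2 = 0 := by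
      have : r * ε * ((1 - r) * x.1.1 + r * (ε * x.2)) +
          (1 - r) * ((1 - r) * x.2 + -(r * (ε * x.1.1))) = 0 := by
        rw [e1, e3]; ring
      calc ((1 - r) ^ 2 + r ^ 2) * x.2 = (1 - r) ^ 2 * x.2 + r ^ 2 * (ε * ε) * x.2 := by
            rw [hε]; ring
        _ = 0 := by rw [← this]; ring
    have hx0 : x.1.1 = 0 := (mul_eq_zero.1 hx1).resolve_left hdet.ne'
    have hz0 : x.2 = 0 := (mul_eq_zero.1 hz1).resolve_left hdet.ne'
    have hy0 : x.1.2 = 0 := by rw [hx0] at e2; linarith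
    ext
    · exact hx0
    · exact hy0
    · exact hz0
  have hinj : Function.Injective (Mz ε lam) := by
    rw [injective_iff_map_eq_zero]
    intro x hx
    exact hM 1 zero_le_one le_rfl x (by simpa using hx)
  have e' := emb_linear h (Mz ε lam) hinj
  rw [hN.iso _ _ (linear_move hV h (Mz ε lam) hM e')]
  have hg : ∀ x : Sp, gx (Mz ε lam x) = fz ε x := fun x => rfl
  apply kf_zero hN hV e' (H := H) hAB hBC hCA hss
  · rw [hg]; exact hA
  · rw [hg]; exact hB
  · rw [hg]; exact hC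
  · rw [hg]; exact g1
  · rw [hg]; exact g2
  · exact hlam
  · intro w w1 w2 w3 w4 w5
    rw [hg]; exact hlt w w1 w2 w3 w4 w5

section insert
variable {V : Type} [DecidableEq V]

/-- insertion of a new vertex after `q` -/
def ins (σ : Equiv.Perm V) (q : V) : Equiv.Perm (Option V) :=
  Equiv.optionCongr σ * Equiv.swap (some q) none

theorem ins_q (σ : Equiv.Perm V) (q : V) : ins σ q (some q) = none := by
  simp [ins]
theorem ins_none (σ : Equiv.Perm V) (q : V) : ins σ q none = some (σ q) := by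
  simp [ins]
theorem ins_some (σ : Equiv.Perm V) {q w : V} (h : w ≠ q) : ins σ q (some w) = some (σ w) := by
  rw [ins, Equiv.Perm.mul_apply, Equiv.swap_apply_of_ne_of_ne (by simpa using h) (by simp)]
  rfl

def insP (P : V → Sp) (X : Sp) : Option V → Sp := fun v => v.elim X P

theorem ins_iso (hV : Finite V) {σ : Equiv.Perm V} {P : V → Sp} (h : Embedded σ P) (q : V)
    (X : Sp)
    (hnc : ∀ r r' : ℝ, 0 ≤ r → r ≤ 1 → 0 ≤ r' → r' ≤ 1 →
      (1 - r) • P q + r • X = (1 - r') • X + r' • P (σ q) → r = 1 ∧ r' = 0)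
    (hfree : ∀ w, w ≠ q → ∀ x ∈ segment ℝ (P w) (P (σ w)),
      x ∈ convexHull ℝ {P q, X, P (σ q)} →
      (σ w = q ∧ x = P q) ∨ (w = σ q ∧ x = P (σ q))) :
    ∃ e : Embedded (ins σ q) (insP P X),
      Isotopic ⟨V, hV, σ, P, h⟩ ⟨Option V, inferInstance, ins σ q, insP P X, e⟩ := by
  have hsymm : (ins σ q).symm none = some q := by
    rw [Equiv.symm_apply_eq]; exact (ins_q σ q).symm
  have hT : TriFree (ins σ q) (insP P X) none := by
    intro w hw hw' x hx ht
    obtain ⟨w, rfl⟩ := Option.ne_none_iff_exists'.1 hw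
    have hwq : w ≠ q := by rintro rfl; exact hw' (ins_q σ w)
    rw [hsymm, ins_none] at ht ⊢
    rw [ins_some σ hwq] at hx ⊢
    rcases hfree w hwq x hx ht with ⟨h1, h2⟩ | ⟨h1, h2⟩
    · left; exact ⟨by rw [h1], h2⟩
    · right; exact ⟨by rw [h1], h2⟩
  let eqv : {v : Option V // v ≠ none} ≃ V :=
    { toFun := fun v => v.1.get (Option.isSome_iff_ne_none.2 v.2)
      invFun := fun v => ⟨some v, by simp⟩
      left_inv := by intro v; apply Subtype.ext; simp
      right_inv := by intro v; simp }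
  have heqv : ∀ v : {v : Option V // v ≠ none}, some (eqv v) = v.1 := by
    intro v; simp [eqv]
  have hbe : ∀ v, σ (eqv v) = eqv (bypass (ins σ q) none v) := by
    intro v
    apply Option.some_injective
    rw [heqv]
    by_cases hv : eqv v = q
    · have hv' : ins σ q v.1 = none := by rw [← heqv, hv, ins_q]
      rw [(bypass_apply (ins σ q) none v).1 hv', ins_none, hv]
    · have hv' : ins σ q v.1 = some (σ (eqv v)) := by rw [← heqv, ins_some σ hv]
      rw [(bypass_apply (ins σ q) none v).2 (by rw [hv']; simp), hv']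
  have hpos : ∀ v : {v : Option V // v ≠ none}, insP P X v = P (eqv v) := by
    intro v; rw [← heqv]; rfl
  have hE1 : Embedded (bypass (ins σ q) none) (fun w => insP P X w) :=
    emb_sub h _ _ eqv eqv.injective (fun v => (hbe v).symm) hpos
  have e : Embedded (ins σ q) (insP P X) := by
    apply unremove_emb none hE1
    · rw [ins_none]; simp
    · rw [ins_none, hsymm]
      intro h'
      exact emb_ne h q (Option.some_injective _ h')
    · intro r r' r0 r1 r0' r1' heq
      rw [hsymm, ins_none] at heq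
      exact hnc r r' r0 r1 r0' r1' heq
    · exact hT
  refine ⟨e, ?_⟩
  have hac : insP P X ((ins σ q).symm none) ≠ insP P X (ins σ q none) := by
    rw [hsymm, ins_none]; exact h.1 q
  have hm := remove_move (inferInstance : Finite (Option V)) e none hac hT
  refine Relation.EqvGen.trans _ _ _ ?_ (Relation.EqvGen.symm _ _ (Relation.EqvGen.rel _ _ hm))
  apply Relation.EqvGen.rel
  exact Move.relabel ⟨V, hV, σ, P, h⟩ ⟨{v : Option V // v ≠ none}, inferInstance,
    bypass (ins σ q) none, fun w => insP P X w, _⟩ eqv (fun v => (hbe v).symm) hpos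

end insert

end Pool.Agent.V11208.PL
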