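import Pool.Agent.V11208.PL.Top
import Pool.Agent.V11208.PL.Frame

/-! A link with a monotone component above a nonempty rest has vanishing Conway polynomial. -/

namespace Pool.Agent.V11208.PL
open Pool.Agent.V11208.UB

theorem top_zero {nabla : PLink → Polynomial ℤ} (hN : IsConway nabla) {V : Type} (hV : Finite V)
    {σ : Equiv.Perm V} {P : V → Sp} (h : Embedded σ P) {b : V} {ε : ℝ} (hε : ε * ε = 1)
    (hm : Mono σ P b (fz ε)) (q : V) (hq : ¬ Reach σ b q) (hqne : (P q).1 ≠ (P (σ q)).1)
    (hcl : ∀ w, w ≠ q → ¬ Reach σ b w → ∀ x, x ∈ segment ℝ (P q).1 (P (σ q)).1 →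
      x ∈ segment ℝ (P w).1 (P (σ w)).1 →
      (σ q = w ∧ x = (P w).1) ∨ (σ w = q ∧ x = (P q).1)) :
    nabla ⟨V, hV, σ, P, h⟩ = 0 := by
  classical
  obtain ⟨V', hV', σ', P', h', j, b', hiso, hj, hjb, hP, hm', h3', hreach, hnext, hsurj⟩ :=
    elim (fz ε) _ V hV le_rfl σ P h b hm
  rw [iso_nabla hN hiso]
  obtain ⟨q', hq'⟩ := hsurj q hq
  have hqr : ¬ Reach σ' b' q' := by rw [hreach, hq']; exact hq
  have hall : ∀ v : V', Reach σ' b' v → v = b' ∨ v = σ' b' ∨ v = σ' (σ' b') := by
    intro v hv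
    refine orbit_induction (ρ := σ') (b := b')
      (P := fun v => v = b' ∨ v = σ' b' ∨ v = σ' (σ' b')) (Or.inl rfl) ?_ v hv
    rintro v _ (rfl | rfl | rfl) hvb
    · right; left; rfl
    · right; right; rfl
    · exact absurd h3' hvb
  have rA : Reach σ' b' b' := reach_base σ' b'
  have rB := rA.step
  have rC := rB.step
  have fBA : fz ε (P' (σ' b')) < fz ε (P' b') := hm'.dec b' rA (emb_ne h' b')
  have fCB : fz ε (P' (σ' (σ' b'))) < fz ε (P' (σ' b')) := hm'.dec _ rB (emb_ne2 h' b')
  have hqne' : (P' q').1 ≠ (P' (σ' q')).1 := by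
    rw [hP, hP, hnext q' hqr, hq']; exact hqne
  have hcl' : ∀ w, w ≠ q' → ¬ Reach σ' b' w → ∀ x, x ∈ segment ℝ (P' q').1 (P' (σ' q')).1 →
      x ∈ segment ℝ (P' w).1 (P' (σ' w)).1 →
      (σ' q' = w ∧ x = (P' w).1) ∨ (σ' w = q' ∧ x = (P' q').1) := by
    intro w hw hwr x hx1 hx2
    rw [hP, hP, hnext q' hqr, hq'] at hx1
    rw [hP, hP, hnext w hwr] at hx2
    have hwr' : ¬ Reach σ b (j w) := by rw [← hreach]; exact hwr
    rcases hcl (j w) (by intro h''; exact hw (hj (h''.trans hq'.symm))) hwr' x hx1 hx2 with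
      ⟨h1, h2⟩ | ⟨h1, h2⟩
    · left; exact ⟨hj (by rw [hnext q' hqr, hq', h1]), by rw [hP, h2]⟩
    · right; exact ⟨hj (by rw [hnext w hwr, h1, hq']), by rw [hP, hq', h2]⟩
  clear hcl hiso hm
  -- the separating height
  obtain ⟨H, hH1, hH2⟩ : ∃ H : ℝ, (∀ w, ¬ Reach σ' b' w → fz ε (P' w) < H) ∧
      H < fz ε (P' (σ' (σ' b'))) := by
    have : Nonempty {w // ¬ Reach σ' b' w} := ⟨⟨q', hqr⟩⟩
    obtain ⟨w0, hw0⟩ := Finite.exists_max (fun w : {w // ¬ Reach σ' b' w} => fz ε (P' w))
    have h1 := hm'.above _ w0 rC w0.2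
    refine ⟨(fz ε (P' w0) + fz ε (P' (σ' (σ' b')))) / 2, ?_, by linarith⟩
    intro w hw
    have := hw0 ⟨w, hw⟩
    simp only at this
    linarith
  have hK : ∀ w, Reach σ' b' w → H < fz ε (P' w) := by
    intro w hw
    rcases hall w hw with rfl | rfl | rfl
    · linarith
    · linarith
    · exact hH2
  have hKe : ∀ w, Reach σ' b' w → ∀ x ∈ segment ℝ (P' w) (P' (σ' w)), H < fz ε x := by
    intro w hw x hx
    obtain ⟨r, r0, r1, rfl⟩ := mem_seg.1 hx
    have k1 := hK w hw
    have k2 := hK _ hw.step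
    simp only [map_add, map_smul, smul_eq_mul]
    rcases r0.eq_or_lt with h'' | h''
    · rw [← h'']; simpa using k1
    · nlinarith
  have hσqr : ¬ Reach σ' b' (σ' q') := by rw [reach_step_iff]; exact hqr
  set p0 := (P' q').1 with hp0
  set p1 := (P' (σ' q')).1 with hp1
  set S1 : Sp := ((1 - (1/3 : ℝ)) • p0 + (1/3 : ℝ) • p1, ε * H) with hS1
  set S2 : Sp := ((1 - (2/3 : ℝ)) • p0 + (2/3 : ℝ) • p1, ε * H) with hS2
  have fS1 : fz ε S1 = H := by rw [fz_apply, hS1]; simp only; rw [← mul_assoc, hε, one_mul]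
  have fS2 : fz ε S2 = H := by rw [fz_apply, hS2]; simp only; rw [← mul_assoc, hε, one_mul]
  have uniq : ∀ a b : ℝ, (1 - a) • p0 + a • p1 = (1 - b) • p0 + b • p1 → a = b := by
    intro a b heq
    have h1 : (a - b) • (p1 - p0) = 0 := by
      have h2 : (a - b) • (p1 - p0) = ((1 - a) • p0 + a • p1) - ((1 - b) • p0 + b • p1) := by
        module
      rw [h2, heq, sub_self]
    rcases smul_eq_zero.1 h1 with h2 | h2
    · linarith
    · exact absurd (sub_eq_zero.1 h2).symm hqne'
  have e0p : p0 = (1 - (0:ℝ)) • p0 + (0:ℝ) • p1 := by simp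
  have e1p : p1 = (1 - (1:ℝ)) • p0 + (1:ℝ) • p1 := by simp
  have hseg : ∀ a : ℝ, 0 ≤ a → a ≤ 1 → (1 - a) • p0 + a • p1 ∈ segment ℝ p0 p1 :=
    fun a a0 a1 => mem_seg.2 ⟨a, a0, a1, rfl⟩
  have fq := hH1 q' hqr
  have fσq := hH1 _ hσqr
  -- first insertion
  obtain ⟨E1, I1⟩ := ins_iso hV' h' q' S1
    (by
      intro r r' r0 r1 r0' r1' heq
      have h1 := congrArg Prod.fst heq
      have h2 : (1 - r / 3) • p0 + (r / 3) • p1 =
          (1 - (1/3 + 2 * r' / 3)) • p0 + (1/3 + 2 * r' / 3) • p1 := by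
        have e1 : ((1 - r) • P' q' + r • S1).1 = (1 - r / 3) • p0 + (r / 3) • p1 := by
          rw [hS1]; simp only [Prod.fst_add, Prod.smul_fst, ← hp0]; module
        have e2 : ((1 - r') • S1 + r' • P' (σ' q')).1 =
          (1 - (1/3 + 2 * r' / 3)) • p0 + (1/3 + 2 * r' / 3) • p1 := by
          rw [hS1]; simp only [Prod.fst_add, Prod.smul_fst, ← hp1]; module
        rw [← e1, ← e2]; exact h1
      have h3 := uniq _ _ h2
      constructor <;> linarith)
    (by
      intro w hw x hx ht
      obtain ⟨α, β, γ, hα, hβ, hγ, hs, e⟩ := mem_tri.1 ht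
      have hα' : α = 1 - β - γ := by linarith
      have ex : x.1 = (1 - (β / 3 + γ)) • p0 + (β / 3 + γ) • p1 := by
        rw [e, hS1]; simp only [Prod.fst_add, Prod.smul_fst, ← hp0, ← hp1, hα']; module
      by_cases hwr : Reach σ' b' w
      · exfalso
        have k1 := hKe w hwr x hx
        have k2 : fz ε x ≤ H := by
          rw [e]; simp only [map_add, map_smul, smul_eq_mul, fS1]
          rw [hα']; nlinarith
        linarith
      · rcases hcl' w hw hwr x.1 (by rw [ex]; exact hseg _ (by positivity) (by linarith))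
          (proj_seg hx) with ⟨h1, h2⟩ | ⟨h1, h2⟩
        · right
          refine ⟨h1.symm, ?_⟩
          rw [← h1, ex] at h2
          have h3 := uniq _ _ (h2.trans (by rw [← hp1]; exact e1p))
          have hβ0 : β = 0 := by linarith
          have hγ1 : γ = 1 := by linarith
          have hα0 : α = 0 := by linarith
          rw [e, hβ0, hγ1, hα0]; simp
        · left
          refine ⟨h1, ?_⟩
          rw [ex] at h2
          have h3 := uniq _ _ (h2.trans e0p)
          have hβ0 : β = 0 := by linarith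
          have hγ0 : γ = 0 := by linarith
          have hα1 : α = 1 := by linarith
          rw [e, hβ0, hγ0, hα1]; simp)
  -- second insertion
  set σ1 := ins σ' q' with hσ1
  set P1 := insP P' S1 with hP1
  have v1none : P1 none = S1 := rfl
  have v1some : ∀ w, P1 (some w) = P' w := fun w => rfl
  have n1none : σ1 none = some (σ' q') := ins_none σ' q'
  obtain ⟨E2, I2⟩ := ins_iso (inferInstance : Finite (Option V')) E1 none S2
    (by
      intro r r' r0 r1 r0' r1' heq
      rw [n1none, v1none, v1some] at heq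
      have h1 := congrArg Prod.fst heq
      have h2 : (1 - (1/3 + r / 3)) • p0 + (1/3 + r / 3) • p1 =
          (1 - (2/3 + r' / 3)) • p0 + (2/3 + r' / 3) • p1 := by
        have e1 : ((1 - r) • S1 + r • S2).1 = (1 - (1/3 + r / 3)) • p0 + (1/3 + r / 3) • p1 := by
          rw [hS1, hS2]; simp only [Prod.fst_add, Prod.smul_fst]; module
        have e2 : ((1 - r') • S2 + r' • P' (σ' q')).1 =
          (1 - (2/3 + r' / 3)) • p0 + (2/3 + r' / 3) • p1 := by
          rw [hS2]; simp only [Prod.fst_add, Prod.smul_fst, ← hp1]; module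
        rw [← e1, ← e2]; exact h1
      have h3 := uniq _ _ h2
      constructor <;> linarith)
    (by
      intro w hw x hx ht
      rw [n1none, v1none, v1some] at ht ⊢
      obtain ⟨w, rfl⟩ := Option.ne_none_iff_exists'.1 hw
      obtain ⟨α, β, γ, hα, hβ, hγ, hs, e⟩ := mem_tri.1 ht
      have hα' : α = 1 - β - γ := by linarith
      have ex : x.1 = (1 - (1/3 + β / 3 + 2 * γ / 3)) • p0 + (1/3 + β / 3 + 2 * γ / 3) • p1 := by
        rw [e, hS1, hS2]; simp only [Prod.fst_add, Prod.smul_fst, ← hp0, ← hp1, hα']; module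
      by_cases hwq : w = q'
      · left
        rw [hwq, hσ1, ins_q] at hx ⊢
        refine ⟨rfl, ?_⟩
        rw [v1none, v1some] at hx
        obtain ⟨s, s0, s1, es⟩ := mem_seg.1 hx
        have ex' : x.1 = (1 - s / 3) • p0 + (s / 3) • p1 := by
          rw [es, hS1]; simp only [Prod.fst_add, Prod.smul_fst, ← hp0]; module
        have h3 := uniq _ _ (ex'.symm.trans ex)
        have hs1 : s = 1 := by linarith
        rw [es, hs1]; simp
      · rw [hσ1, ins_some σ' hwq] at hx ⊢
        rw [v1some, v1some] at hx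
        by_cases hwr : Reach σ' b' w
        · exfalso
          have k1 := hKe w hwr x hx
          have k2 : fz ε x ≤ H := by
            rw [e]; simp only [map_add, map_smul, smul_eq_mul, fS1, fS2]
            rw [hα']; nlinarith
          linarith
        · rcases hcl' w hwq hwr x.1 (by rw [ex]; exact hseg _ (by positivity) (by linarith))
            (proj_seg hx) with ⟨h1, h2⟩ | ⟨h1, h2⟩
          · right
            refine ⟨by rw [h1], ?_⟩
            rw [← h1, ex] at h2
            have h3 := uniq _ _ (h2.trans (by rw [← hp1]; exact e1p))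
            have hβ0 : β = 0 := by linarith
            have hγ1 : γ = 1 := by linarith
            have hα0 : α = 0 := by linarith
            rw [e, hβ0, hγ1, hα0]; simp
          · exfalso
            rw [ex] at h2
            have h3 := uniq _ _ (h2.trans e0p)
            linarith)
  rw [iso_nabla hN (I1.trans _ _ _ I2)]
  have v2 : ∀ w, insP P1 S2 (some (some w)) = P' w := fun w => rfl
  have n2 : ∀ w, Reach σ' b' w → ins σ1 none (some (some w)) = some (some (σ' w)) := by
    intro w hw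
    rw [ins_some σ1 (by simp), hσ1, ins_some σ' (by rintro rfl; exact hqr hw)]
  have hη : S1.1 ≠ S2.1 := by
    intro h''
    have := uniq (1/3) (2/3) h''
    norm_num at this
  apply ke_zero hN _ E2 (A := some (some b')) (B := some (some (σ' b')))
    (C := some (some (σ' (σ' b')))) (s1 := some none) (s2 := none) (H := H) hε
  · exact n2 _ rA
  · exact n2 _ rB
  · rw [n2 _ rC, h3']
  · exact ins_q σ1 none
  · exact hK _ rA
  · exact hK _ rB
  · exact hK _ rC
  · exact fS1
  · exact fS2
  · exact hη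
  · intro w w1 w2 w3 w4 w5
    obtain ⟨y, rfl⟩ := Option.ne_none_iff_exists'.1 w5
    have w4' : y ≠ none := fun h'' => w4 (by rw [h''])
    obtain ⟨w, rfl⟩ := Option.ne_none_iff_exists'.1 w4'
    rw [v2]
    apply hH1
    intro hr
    rcases hall w hr with rfl | rfl | rfl
    · exact w1 rfl
    · exact w2 rfl
    · exact w3 rfl

end Pool.Agent.V11208.PL
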