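import Pool.Agent.V11208.PL.Ins

/-! Moving a triangle component inside an open half space. -/

namespace Pool.Agent.V11208.PL
open Pool.Agent.V11208.UB

def Indep3 (u v w : Sp) : Prop :=
  ∀ α β γ : ℝ, α • u + β • v + γ • w = 0 → α = 0 ∧ β = 0 ∧ γ = 0

theorem exists_indep3 (u v u' v' : Sp) (h : Indep u v) (h' : Indep u' v') (g : Sp →ₗ[ℝ] ℝ) :
    ∃ w : Sp, 0 ≤ g w ∧ Indep3 u v w ∧ Indep3 u' v' w := by
  have hne : ∀ u v : Sp, ∃ a : Sp, a ∉ Submodule.span ℝ ({u, v} : Set Sp) := by
    intro u v
    by_contra hall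
    push Not at hall
    have htop : Submodule.span ℝ ({u, v} : Set Sp) = ⊤ := by
      rw [Submodule.eq_top_iff']; exact hall
    have h1 : Module.finrank ℝ Sp = 3 := by
      rw [Module.finrank_prod, Module.finrank_prod]; simp
    have h2 := finrank_span_le_card (R := ℝ) ({u, v} : Set Sp)
    rw [htop, finrank_top, h1] at h2
    have h3 : ({u, v} : Set Sp).toFinset.card ≤ 2 := by
      classical
      rw [Set.toFinset_insert, Set.toFinset_singleton]
      exact Finset.card_le_two
    omega
  have hex : ∃ w : Sp, w ∉ Submodule.span ℝ ({u, v} : Set Sp) ∧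
      w ∉ Submodule.span ℝ ({u', v'} : Set Sp) := by
    obtain ⟨a, ha⟩ := hne u v
    obtain ⟨b, hb⟩ := hne u' v'
    by_cases ha' : a ∈ Submodule.span ℝ ({u', v'} : Set Sp)
    · by_cases hb' : b ∈ Submodule.span ℝ ({u, v} : Set Sp)
      · refine ⟨a + b, ?_, ?_⟩
        · intro h1
          apply ha
          have := Submodule.sub_mem _ h1 hb'
          simpa using this
        · intro h1
          apply hb
          have := Submodule.sub_mem _ h1 ha'
          simpa using this
      · exact ⟨b, hb', hb⟩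
    · exact ⟨a, ha, ha'⟩
  obtain ⟨w, hw1, hw2⟩ := hex
  have key : ∀ (u v w : Sp), Indep u v → w ∉ Submodule.span ℝ ({u, v} : Set Sp) → Indep3 u v w := by
    intro u v w h hw α β γ h0
    have hγ : γ = 0 := by
      by_contra hγ
      apply hw
      rw [Submodule.mem_span_pair]
      refine ⟨-(γ⁻¹ * α), -(γ⁻¹ * β), ?_⟩
      have h1 : γ • w = - (α • u + β • v) := by
        rw [eq_neg_iff_add_eq_zero, add_comm]; exact h0
      have h2 : w = γ⁻¹ • (γ • w) := by rw [smul_smul, inv_mul_cancel₀ hγ, one_smul]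
      rw [h2, h1, smul_neg, smul_add, smul_smul, smul_smul, neg_smul, neg_smul]
      abel
    rw [hγ, zero_smul, add_zero] at h0
    exact ⟨(h α β h0).1, (h α β h0).2, hγ⟩
  rcases le_or_gt 0 (g w) with hg | hg
  · exact ⟨w, hg, key u v w h hw1, key u' v' w h' hw2⟩
  · refine ⟨-w, by rw [map_neg]; linarith, key u v (-w) h ?_, key u' v' (-w) h' ?_⟩
    · intro h1; exact hw1 (by simpa using Submodule.neg_mem _ h1)
    · intro h1; exact hw2 (by simpa using Submodule.neg_mem _ h1)

section
variable {V : Type} [DecidableEq V]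

/-- override the positions of three vertices -/
def upd3 (Q : V → Sp) (A B C : V) (a b c : Sp) : V → Sp :=
  fun w => if w = A then a else if w = B then b else if w = C then c else Q w

theorem tri_iso (hV : Finite V) {σ : Equiv.Perm V} {Q Q' : V → Sp} (h : Embedded σ Q)
    (A B C : V) (hAB : σ A = B) (hBC : σ B = C) (hCA : σ C = A) (g : Sp →ₗ[ℝ] ℝ) (H : ℝ)
    (hoff : ∀ w, w ≠ A → w ≠ B → w ≠ C → Q' w = Q w)
    (hle : ∀ w, w ≠ A → w ≠ B → w ≠ C → g (Q w) ≤ H)
    (hA : H < g (Q A)) (hB : H < g (Q B)) (hC : H < g (Q C))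
    (hind : Indep (Q B - Q A) (Q C - Q A))
    (hA' : H < g (Q' A)) (hB' : H < g (Q' B)) (hC' : H < g (Q' C))
    (hind' : Indep (Q' B - Q' A) (Q' C - Q' A)) (h' : Embedded σ Q') :
    Isotopic ⟨V, hV, σ, Q, h⟩ ⟨V, hV, σ, Q', h'⟩ := by
  have hAneB : A ≠ B := by rintro rfl; exact emb_ne h A hAB
  have hBneC : B ≠ C := by rintro rfl; exact emb_ne h B hBC
  have hCneA : C ≠ A := by rintro rfl; exact emb_ne h C hCA
  have uA : ∀ a b c, upd3 Q A B C a b c A = a := by intro a b c; simp [upd3]
  have uB : ∀ a b c, upd3 Q A B C a b c B = b := by intro a b c; simp [upd3, hAneB.symm]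
  have uC : ∀ a b c, upd3 Q A B C a b c C = c := by
    intro a b c; simp [upd3, hCneA, hBneC.symm]
  have uO : ∀ a b c w, w ≠ A → w ≠ B → w ≠ C → upd3 Q A B C a b c w = Q w := by
    intro a b c w h1 h2 h3; simp [upd3, h1, h2, h3]
  have embU : ∀ a b c, H < g a → H < g b → H < g c → Indep (b - a) (c - a) →
      Embedded σ (upd3 Q A B C a b c) := by
    intro a b c ha hb hc hi
    apply half_emb h A B C hAB hBC hCA g H
    · exact fun w h1 h2 h3 => uO a b c w h1 h2 h3
    · exact hle
    · rw [uA]; exact ha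
    · rw [uB]; exact hb
    · rw [uC]; exact hc
    · rw [uA, uB, uC]; exact hi
  -- one elementary step
  have step : ∀ a u v a' u' v' : Sp, H < g a → H < g (a + u) → H < g (a + v) → H < g a' →
      H < g (a' + u') → H < g (a' + v') →
      (∀ r : ℝ, 0 ≤ r → r ≤ 1 → Indep ((1 - r) • u + r • u') ((1 - r) • v + r • v')) →
      ∀ e e', Isotopic ⟨V, hV, σ, upd3 Q A B C a (a + u) (a + v), e⟩
        ⟨V, hV, σ, upd3 Q A B C a' (a' + u') (a' + v'), e'⟩ := by
    intro a u v a' u' v' g1 g2 g3 g4 g5 g6 hi e e'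
    apply Relation.EqvGen.rel
    apply Move.motion
    intro r r0 r1
    have e1 : (fun w => (1 - r) • upd3 Q A B C a (a + u) (a + v) w +
        r • upd3 Q A B C a' (a' + u') (a' + v') w) =
        upd3 Q A B C ((1 - r) • a + r • a') ((1 - r) • (a + u) + r • (a' + u'))
          ((1 - r) • (a + v) + r • (a' + v')) := by
      funext w
      by_cases h1 : w = A
      · rw [h1, uA, uA, uA]
      · by_cases h2 : w = B
        · rw [h2, uB, uB, uB]
        · by_cases h3 : w = C
          · rw [h3, uC, uC, uC]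
          · rw [uO _ _ _ w h1 h2 h3, uO _ _ _ w h1 h2 h3, uO _ _ _ w h1 h2 h3, ← add_smul]
            simp
    rw [e1]
    have gc : ∀ x y : Sp, H < g x → H < g y → H < g ((1 - r) • x + r • y) := by
      intro x y hx hy
      simp only [map_add, map_smul, smul_eq_mul]
      rcases r0.eq_or_lt with h' | h'
      · rw [← h']; simpa using hx
      · nlinarith
    apply embU
    · exact gc _ _ g1 g4
    · exact gc _ _ g2 g5
    · exact gc _ _ g3 g6
    · have k1 : (1 - r) • (a + u) + r • (a' + u') - ((1 - r) • a + r • a') =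
          (1 - r) • u + r • u' := by
        rw [smul_add, smul_add]; abel
      have k2 : (1 - r) • (a + v) + r • (a' + v') - ((1 - r) • a + r • a') =
          (1 - r) • v + r • v' := by
        rw [smul_add, smul_add]; abel
      rw [k1, k2]
      exact hi r r0 r1
  obtain ⟨w, gw, i1, i2⟩ := exists_indep3 _ _ _ _ hind hind' g
  set a := Q A with ha
  set u := Q B - Q A with hu
  set v := Q C - Q A with hv
  set a' := Q' A with ha'
  set u' := Q' B - Q' A with hu'
  set v' := Q' C - Q' A with hv'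
  have iuw : Indep u w := by
    intro α γ h0
    have := i1 α 0 γ (by rw [zero_smul, add_zero]; exact h0)
    exact ⟨this.1, this.2.2⟩
  have iuw' : Indep u' w := by
    intro α γ h0
    have := i2 α 0 γ (by rw [zero_smul, add_zero]; exact h0)
    exact ⟨this.1, this.2.2⟩
  obtain ⟨w', gw', j1, j2⟩ := exists_indep3 u w u' w iuw iuw' g
  have iww : Indep w' w := by
    intro α β h0
    have := j1 0 β α (by rw [zero_smul, zero_add, add_comm]; exact h0)
    exact ⟨this.2.2, this.2.1⟩
  have eB : a + u = Q B := by rw [ha, hu]; abel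
  have eC : a + v = Q C := by rw [ha, hv]; abel
  have eB' : a' + u' = Q' B := by rw [ha', hu']; abel
  have eC' : a' + v' = Q' C := by rw [ha', hv']; abel
  have gw1 : H < g (a + w) := by rw [map_add]; linarith
  have gw2 : H < g (a + w') := by rw [map_add]; linarith
  have gw1' : H < g (a' + w) := by rw [map_add]; linarith
  have gw2' : H < g (a' + w') := by rw [map_add]; linarith
  have gB : H < g (a + u) := by rw [eB]; exact hB
  have gC : H < g (a + v) := by rw [eC]; exact hC
  have gB' : H < g (a' + u') := by rw [eB']; exact hB'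
  have gC' : H < g (a' + v') := by rw [eC']; exact hC'
  have sub1 : ∀ x y : Sp, x + y - x = y := fun x y => by abel
  have E0 := embU a (a + u) (a + v) hA gB gC (by rw [sub1, sub1]; exact hind)
  have E1 := embU a (a + u) (a + w) hA gB gw1 (by rw [sub1, sub1]; exact iuw)
  have E2 := embU a (a + w') (a + w) hA gw2 gw1 (by rw [sub1, sub1]; exact iww)
  have E3 := embU a' (a' + w') (a' + w) hA' gw2' gw1' (by rw [sub1, sub1]; exact iww)
  have E4 := embU a' (a' + u') (a' + w) hA' gB' gw1' (by rw [sub1, sub1]; exact iuw')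
  have E5 := embU a' (a' + u') (a' + v') hA' gB' gC' (by rw [sub1, sub1]; exact hind')
  have s1 := step a u v a u w hA gB gC hA gB gw1 (by
    intro r r0 r1 α β h0
    have e1 : (1 - r) • u + r • u = u := by rw [← add_smul]; simp
    rw [e1, smul_add, smul_smul, smul_smul, ← add_assoc] at h0
    obtain ⟨k1, k2, k3⟩ := i1 _ _ _ h0
    refine ⟨k1, ?_⟩
    have : β = β * (1 - r) + β * r := by ring
    rw [this, k2, k3, add_zero]) E0 E1
  have s2 := step a u w a w' w hA gB gw1 hA gw2 gw1 (by
    intro r r0 r1 α β h0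
    have e1 : (1 - r) • w + r • w = w := by rw [← add_smul]; simp
    rw [e1, smul_add, smul_smul, smul_smul] at h0
    obtain ⟨k1, k2, k3⟩ := j1 (α * (1 - r)) β (α * r) (by rw [← h0]; abel)
    refine ⟨?_, k2⟩
    have : α = α * (1 - r) + α * r := by ring
    rw [this, k1, k3, add_zero]) E1 E2
  have s3 := step a w' w a' w' w hA gw2 gw1 hA' gw2' gw1' (by
    intro r r0 r1
    have e1 : (1 - r) • w + r • w = w := by rw [← add_smul]; simp
    have e2 : (1 - r) • w' + r • w' = w' := by rw [← add_smul]; simp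
    rw [e1, e2]; exact iww) E2 E3
  have s4 := step a' w' w a' u' w hA' gw2' gw1' hA' gB' gw1' (by
    intro r r0 r1 α β h0
    have e1 : (1 - r) • w + r • w = w := by rw [← add_smul]; simp
    rw [e1, smul_add, smul_smul, smul_smul] at h0
    obtain ⟨k1, k2, k3⟩ := j2 (α * r) β (α * (1 - r)) (by rw [← h0]; abel)
    refine ⟨?_, k2⟩
    have : α = α * (1 - r) + α * r := by ring
    rw [this, k1, k3, add_zero]) E3 E4
  have s5 := step a' u' w a' u' v' hA' gB' gw1' hA' gB' gC' (by
    intro r r0 r1 α β h0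
    have e1 : (1 - r) • u' + r • u' = u' := by rw [← add_smul]; simp
    rw [e1, smul_add, smul_smul, smul_smul] at h0
    obtain ⟨k1, k2, k3⟩ := i2 α (β * r) (β * (1 - r)) (by rw [← h0]; abel)
    refine ⟨k1, ?_⟩
    have : β = β * (1 - r) + β * r := by ring
    rw [this, k2, k3, add_zero]) E4 E5
  have hQ : upd3 Q A B C a (a + u) (a + v) = Q := by
    funext x
    by_cases h1 : x = A
    · rw [h1, uA]
    · by_cases h2 : x = B
      · rw [h2, uB, eB]
      · by_cases h3 : x = C
        · rw [h3, uC, eC]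
        · rw [uO _ _ _ x h1 h2 h3]
  have hQ' : upd3 Q A B C a' (a' + u') (a' + v') = Q' := by
    funext x
    by_cases h1 : x = A
    · rw [h1, uA]
    · by_cases h2 : x = B
      · rw [h2, uB, eB']
      · by_cases h3 : x = C
        · rw [h3, uC, eC']
        · rw [uO _ _ _ x h1 h2 h3, hoff x h1 h2 h3]
  have hall := ((((s1.trans _ _ _ s2).trans _ _ _ s3).trans _ _ _ s4).trans _ _ _ s5)
  have conv : ∀ (R R' : V → Sp) (e : Embedded σ R) (e' : Embedded σ R'), R = Q → R' = Q' →
      Isotopic ⟨V, hV, σ, R, e⟩ ⟨V, hV, σ, R', e'⟩ →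
      Isotopic ⟨V, hV, σ, Q, h⟩ ⟨V, hV, σ, Q', h'⟩ := by
    rintro R R' e e' rfl rfl hh
    exact hh
  exact conv _ _ E0 E5 hQ hQ' hall

end

end Pool.Agent.V11208.PL
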